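import Pool.Agent.helper88.BDG.NumDefs

/-!
Numerical part N2 of MP_c5c754_ag (Beelen-Datta-Ghorpade).
-/

namespace BDG
namespace N2

open Finset

/-- the layer inequality for digit sums (module N1) -/
def NIds (q : ℕ) : Prop := ∀ (x : ℕ → ℕ) (k t : ℕ), Antitone x →
    cnt (ds q) k t (∑ i ∈ range q, x i) ≤ ∑ i ∈ range q, cnt (ds q) (k + i) t (x i)

/-! ### digit sums -/

theorem ds_eq {q : ℕ} (hq : 2 ≤ q) (z : ℕ) : ds q z = ds q (z / q) + z % q := by
  unfold ds
  rcases Nat.eq_zero_or_pos z with rfl | hz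
  · simp
  · rw [Nat.digits_def' (by omega) hz, List.sum_cons]
    omega

theorem ds_lt {q : ℕ} (hq : 2 ≤ q) {z : ℕ} (hz : z < q) : ds q z = z := by
  rw [ds_eq hq, Nat.div_eq_of_lt hz, Nat.mod_eq_of_lt hz]
  simp [ds]

theorem ds_zero (q : ℕ) : ds q 0 = 0 := by simp [ds]

theorem ds_mul_add {q : ℕ} (hq : 2 ≤ q) (w r : ℕ) (hr : r < q) : ds q (q * w + r) = ds q w + r := by
  rw [ds_eq hq, Nat.mul_add_div (by omega), Nat.div_eq_of_lt hr, Nat.mul_add_mod,
    Nat.mod_eq_of_lt hr, add_zero]

theorem ds_top {q : ℕ} (hq : 2 ≤ q) (M a y : ℕ) (ha : a < q) (hy : y < q ^ M) :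
    ds q (a * q ^ M + y) = a + ds q y := by
  induction M generalizing y with
  | zero =>
    have : y = 0 := by simpa using hy
    subst this
    simp [ds_lt hq ha, ds_zero]
  | succ M ih =>
    have hq0 : 0 < q := by omega
    have h1 : y / q < q ^ M := by
      rw [Nat.div_lt_iff_lt_mul hq0, ← pow_succ]; exact hy
    have h2 : a * q ^ (M + 1) + y = q * (a * q ^ M + y / q) + y % q := by
      have := Nat.div_add_mod y q
      rw [pow_succ]
      nlinarith
    rw [h2, ds_mul_add hq _ _ (Nat.mod_lt _ hq0), ih _ h1, ds_eq hq y]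
    omega

theorem ds_shift {q : ℕ} (hq : 2 ≤ q) (M c y : ℕ) (hy : y < (q - c) * q ^ M) :
    ds q (c * q ^ M + y) = c + ds q y := by
  have hpos : 0 < q ^ M := by positivity
  have h1 : y / q ^ M < q - c := by rwa [Nat.div_lt_iff_lt_mul hpos]
  have h2 : y % q ^ M < q ^ M := Nat.mod_lt _ hpos
  have h3 := Nat.div_add_mod y (q ^ M)
  have h4 : c * q ^ M + y = (c + y / q ^ M) * q ^ M + y % q ^ M := by
    conv_lhs => rw [← h3]
    ring
  have h6 : y / q ^ M + c < q := Nat.lt_sub_iff_add_lt.1 h1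
  have h7 : y / q ^ M < q := lt_of_le_of_lt (Nat.le_add_right _ _) h6
  have h5 : ds q y = y / q ^ M + ds q (y % q ^ M) := by
    conv_lhs => rw [← h3, mul_comm]
    exact ds_top hq M _ _ h7 h2
  rw [h4, ds_top hq M _ _ (by rw [add_comm]; exact h6) h2, h5]
  ring

/-- bound by the top digit -/
theorem le_of_ds {q : ℕ} (hq : 2 ≤ q) {M t z : ℕ} (hz : z < q ^ (M + 1)) (h : ds q z ≤ t) :
    z ≤ t * q ^ M := by
  have hpos : 0 < q ^ M := by positivity
  have h1 : z / q ^ M < q := by
    rw [Nat.div_lt_iff_lt_mul hpos, ← pow_succ']; exact hz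
  have h2 : z % q ^ M < q ^ M := Nat.mod_lt _ hpos
  have h3 := Nat.div_add_mod z (q ^ M)
  have h5 : ds q z = z / q ^ M + ds q (z % q ^ M) := by
    conv_lhs => rw [← h3, mul_comm]
    exact ds_top hq M _ _ h1 h2
  rcases Nat.lt_or_ge (z / q ^ M) t with h6 | h6
  · have : (z / q ^ M + 1) * q ^ M ≤ t * q ^ M := Nat.mul_le_mul_right _ h6
    nlinarith
  · have h7 : z / q ^ M = t := by omega
    have h8 : ds q (z % q ^ M) = 0 := by omega
    have h9 : z % q ^ M = 0 := by
      by_contra hne
      have hlt : z % q ^ M < q ^ (M + 1) := lt_of_lt_of_le h2 (Nat.pow_le_pow_right (by omega) (by omega))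
      -- positive digit sum
      have : ∀ m : ℕ, m ≠ 0 → ds q m ≠ 0 := by
        intro m
        induction m using Nat.strong_induction_on with
        | _ m ihm =>
          intro hm hds
          rw [ds_eq hq] at hds
          have h10 : m % q = 0 := by omega
          have h11 : ds q (m / q) = 0 := by omega
          have h12 : m / q ≠ 0 := by
            intro h13
            have := Nat.div_add_mod m q
            rw [h13, h10] at this
            omega
          exact ihm (m / q) (Nat.div_lt_self (by omega) (by omega)) h12 h11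
      exact this _ hne h8
    rw [h9, h7] at h3
    nlinarith

/-! ### counting -/

theorem cnt_mono (w : ℕ → ℕ) (k t : ℕ) : Monotone (cnt w k t) := Nat.count_monotone _

theorem D_mono (q t : ℕ) : Monotone (D q t) := Nat.count_monotone _

theorem cnt_lt {w : ℕ → ℕ} {k t x y : ℕ} (hx : w x + k ≤ t) (hxy : x < y) :
    cnt w k t x < cnt w k t y :=
  Nat.count_strict_mono (p := fun y => w y + k ≤ t) hx hxy

theorem D_lt {q t x y : ℕ} (hx : ds q x ≤ t) (hxy : x < y) : D q t x < D q t y :=
  cnt_lt (by simpa using hx) hxy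

theorem D_mono_t (q : ℕ) {s t : ℕ} (h : s ≤ t) (x : ℕ) : D q s x ≤ D q t x :=
  Nat.count_mono_left fun z _ hz => by omega

theorem D_add_le (q t x y : ℕ) : D q t (x + y) ≤ D q t x + y := by
  unfold D cnt
  rw [Nat.count_add]
  have := Nat.count_le (p := fun k => ds q (x + k) + 0 ≤ t) (n := y)
  omega

theorem le_of_D_le {q t x y : ℕ} (hy : ds q y ≤ t) (h : D q t x ≤ D q t y) : x ≤ y := by
  by_contra hlt
  have := D_lt hy (not_le.1 hlt)
  omega

theorem exists_f {q : ℕ} (hq : 2 ≤ q) {t : ℕ} (ht : 1 ≤ t) (n : ℕ) :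
    ∃ F, D q t F = n ∧ ds q F ≤ t := by
  have hinf : {y | ds q y + 0 ≤ t}.Infinite := by
    refine Set.infinite_of_injective_forall_mem (f := fun k : ℕ => q ^ k)
      (Nat.pow_right_injective hq) fun k => ?_
    show ds q (q ^ k) + 0 ≤ t
    have h1 := ds_shift hq k 1 0 (by
      have : 0 < q ^ k := by positivity
      have : 0 < q - 1 := by omega
      positivity)
    rw [one_mul, add_zero, ds_zero] at h1
    omega
  refine ⟨Nat.nth (fun y => ds q y + 0 ≤ t) n, ?_, ?_⟩
  · exact Nat.count_nth_of_infinite hinf n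
  · have := Nat.nth_mem_of_infinite hinf n
    simpa using this

theorem D_subadd_of (q : ℕ) (hq : 2 ≤ q) (hNI : NIds q) (t x y : ℕ) :
    D q t (x + y) ≤ D q t x + D q t y := by
  wlog hxy : y ≤ x with H
  · have := H q hq hNI t y x (by omega)
    rw [add_comm x y]
    omega
  set f : ℕ → ℕ := fun i => if i = 0 then x else if i = 1 then y else 0 with hf
  have hanti : Antitone f := by
    refine antitone_nat_of_succ_le fun n => ?_
    simp only [hf]
    rcases n with _ | _ | n <;> simp [hxy]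
  obtain ⟨m, rfl⟩ : ∃ m, q = m + 2 := ⟨q - 2, by omega⟩
  have h := hNI f 0 t hanti
  have hf2 : ∀ i, f (i + 2) = 0 := fun i => by simp [hf]
  rw [Finset.sum_range_succ', Finset.sum_range_succ', Finset.sum_range_succ',
    Finset.sum_range_succ'] at h
  simp only [hf2, add_assoc] at h
  norm_num at h
  have hf0 : f 0 = x := by simp [hf]
  have hf1 : f 1 = y := by simp [hf]
  rw [hf0, hf1] at h
  have h0 : ∀ k t, cnt (ds (m + 2)) k t 0 = 0 := fun k t => by simp [cnt]
  simp only [h0, Finset.sum_const_zero, zero_add] at h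
  have h1 : cnt (ds (m + 2)) 1 t y ≤ cnt (ds (m + 2)) 0 t y :=
    Nat.count_mono_left fun z _ hz => by omega
  unfold D
  have e : y + x = x + y := add_comm _ _
  rw [e] at h
  omega

theorem R_succ (M t : ℕ) : R (M+1) (t+1) = R M (t+1) + R (M+1) t := by
  unfold R
  have h1 : M + 1 + (t + 1) = (M + 1 + t) + 1 := by ring
  rw [h1, Nat.choose_succ_succ, add_comm]
  congr 2
  ring

theorem R_zero_right (M : ℕ) : R M 0 = 1 := by simp [R]

theorem R_zero_left (t : ℕ) : R 0 t = 1 := by simp [R]

theorem cnt_shift_eq {p p' : ℕ → Prop} [DecidablePred p] [DecidablePred p'] {x : ℕ}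
    (h : ∀ z < x, p z ↔ p' z) : Nat.count p x = Nat.count p' x := by
  rw [Nat.count_eq_card_filter_range, Nat.count_eq_card_filter_range]
  congr 1
  refine Finset.filter_congr fun z hz => ?_
  exact h z (Finset.mem_range.1 hz)

theorem D_block (q : ℕ) (hq : 2 ≤ q) (M c t y : ℕ) (hct : c ≤ t) (hy : y ≤ (q - c) * q ^ M) :
    D q t (c * q ^ M + y) = D q t (c * q ^ M) + D q (t - c) y := by
  unfold D cnt
  rw [Nat.count_add]
  congr 1
  refine cnt_shift_eq fun z hz => ?_
  rw [ds_shift hq M c z (lt_of_lt_of_le hz hy)]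
  omega

theorem D_zero (q t : ℕ) : D q t 0 = 0 := by simp [D, cnt]

theorem D_one (q t : ℕ) : D q t 1 = 1 := by
  unfold D cnt
  rw [Nat.count_succ]
  simp [ds_zero]

/-- all counted entries below `q^(M+1)` are at most `t q^M` -/
theorem D_top' (q : ℕ) (hq : 2 ≤ q) (t M x : ℕ) (h1 : t * q ^ M < x) (h2 : x ≤ q ^ (M+1)) :
    D q t x = D q t (q ^ (M + 1)) := by
  obtain ⟨e, he⟩ := Nat.exists_eq_add_of_le h2
  unfold D cnt
  rw [he, Nat.count_add]
  have : Nat.count (fun k => ds q (x + k) + 0 ≤ t) e = 0 := by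
    rw [Nat.count_eq_card_filter_range, Finset.card_eq_zero, Finset.filter_eq_empty_iff]
    intro z hz hle
    rw [Finset.mem_range] at hz
    have := le_of_ds hq (M := M) (t := t) (z := x + z) (by omega) (by simpa using hle)
    omega
  omega

theorem D_pow (q : ℕ) (hq : 2 ≤ q) {t : ℕ} (ht : t < q) (M : ℕ) : D q t (q ^ M) = R M t := by
  induction M generalizing t with
  | zero => rw [pow_zero, D_one, R_zero_left]
  | succ M ihM =>
    induction t with
    | zero =>
      rw [R_zero_right]
      have h1 := D_top' q hq 0 M 1 (by omega) (Nat.one_le_pow _ _ (by omega))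
      rw [← h1, D_one]
    | succ t iht =>
      have hpos : 0 < q ^ M := by positivity
      have h1 : q ^ (M + 1) = 1 * q ^ M + (q - 1) * q ^ M := by
        rw [← add_mul, pow_succ', show 1 + (q - 1) = q by omega]
      have h2 := D_block q hq M 1 (t + 1) ((q - 1) * q ^ M) (by omega) le_rfl
      rw [← h1, one_mul] at h2
      have h3 : D q (t + 1 - 1) ((q - 1) * q ^ M) = R (M + 1) t := by
        rw [Nat.add_sub_cancel, ← iht (by omega)]
        refine D_top' q hq t M _ ?_ ?_
        · exact Nat.mul_lt_mul_of_pos_right (by omega) hpos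
        · rw [pow_succ']; exact Nat.mul_le_mul_right _ (by omega)
      rw [h2, h3, ihM ht, R_succ]

theorem D_top (q : ℕ) {t : ℕ} (hq : 2 ≤ q) (ht : t < q) (M x : ℕ) (h1 : t * q ^ M < x)
    (h2 : x ≤ q ^ (M+1)) : D q t x = R (M+1) t := by
  rw [D_top' q hq t M x h1 h2, D_pow q hq ht]

theorem D_block_val (q : ℕ) (hq : 2 ≤ q) (M c t : ℕ) (htq : t < q) (hct : c ≤ t) :
    D q t (c * q ^ M) = ∑ i ∈ range c, R M (t - i) := by
  induction c with
  | zero => simp [D_zero]
  | succ c ih =>
    rw [Finset.sum_range_succ, ← ih (by omega), add_mul, one_mul,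
      D_block q hq M c t (q ^ M) (by omega), D_pow q hq (by omega)]
    have : 1 ≤ q - c := by omega
    nlinarith [Nat.mul_le_mul_right (q ^ M) this]

theorem D_succ_block (q : ℕ) (hq : 2 ≤ q) (M t y : ℕ) (htq : t + 1 < q)
    (hy : y ≤ (q - 1) * q ^ M) :
    D q (t+1) (q ^ M + y) = R M (t+1) + D q t y := by
  have h := D_block q hq M 1 (t + 1) y (by omega) hy
  rw [one_mul, Nat.add_sub_cancel] at h
  rw [h, D_pow q hq htq]

theorem lt_of_R_add (q : ℕ) (hq : 2 ≤ q) (M t y : ℕ) (htq : t + 1 < q)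
    (h : R M (t+1) + D q t y < R (M+1) (t+1)) : y < (q - 1) * q ^ M := by
  by_contra hcon
  push Not at hcon
  have hpos : 0 < q ^ M := by positivity
  have h1 := D_mono q t hcon
  have h2 : D q t ((q - 1) * q ^ M) = R (M + 1) t := by
    refine D_top q hq (by omega) M _ ?_ ?_
    · exact Nat.mul_lt_mul_of_pos_right (by omega) hpos
    · rw [pow_succ']; exact Nat.mul_le_mul_right _ (by omega)
  have h3 := R_succ M t
  omega

/-! ### reflection -/

theorem ds_refl {q : ℕ} (hq : 2 ≤ q) (n κ z : ℕ) (hκ : κ ≤ q) (hz : z < κ * q ^ n) :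
    ds q (κ * q ^ n - 1 - z) + ds q z = (κ - 1) + n * (q - 1) := by
  induction n generalizing z with
  | zero =>
    rw [pow_zero, mul_one] at hz ⊢
    rw [ds_lt hq (show κ - 1 - z < q by omega), ds_lt hq (show z < q by omega)]
    omega
  | succ n ih =>
    have hq0 : 0 < q := by omega
    have h1 : z / q < κ * q ^ n := by
      rw [Nat.div_lt_iff_lt_mul hq0, mul_assoc, ← pow_succ]; exact hz
    have hr : z % q < q := Nat.mod_lt _ hq0
    have hz2 := Nat.div_add_mod z q
    have h2 : κ * q ^ (n + 1) - 1 - z = q * (κ * q ^ n - 1 - z / q) + (q - 1 - z % q) := by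
      have e1 : κ * q ^ (n + 1) = q * (κ * q ^ n) := by rw [pow_succ]; ring
      rw [e1]
      obtain ⟨e, he⟩ := Nat.exists_eq_add_of_lt h1
      have e2 : κ * q ^ n - 1 - z / q = e := by omega
      rw [e2, he]
      have e3 : q * (z / q + e + 1) = q * (z / q) + q * e + q := by ring
      rw [e3]
      omega
    rw [h2, ds_mul_add hq _ _ (by omega), ds_eq hq z]
    have h3 := ih _ h1
    have h4 : (n + 1) * (q - 1) = n * (q - 1) + (q - 1) := by ring
    omega

theorem count_refl (p : ℕ → Prop) [DecidablePred p] (C y : ℕ) (hy : y ≤ C) :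
    Nat.count p C = Nat.count p (C - y) + Nat.count (fun z => p (C - 1 - z)) y := by
  induction y with
  | zero => simp
  | succ y ih =>
    rw [ih (by omega), Nat.count_succ]
    obtain ⟨e, he⟩ : ∃ e, C = e + y + 1 := ⟨C - y - 1, by omega⟩
    have h1 : C - y = e + 1 := by omega
    have h2 : C - (y + 1) = e := by omega
    have h3 : C - 1 - y = e := by omega
    rw [h1, h2, h3, Nat.count_succ]
    omega

theorem count_add_not (p : ℕ → Prop) [DecidablePred p] (y : ℕ) :
    Nat.count p y + Nat.count (fun z => ¬ p z) y = y := by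
  induction y with
  | zero => simp
  | succ y ih =>
    rw [Nat.count_succ, Nat.count_succ]
    by_cases h : p y
    · simp only [h, if_true, not_true, if_false]; omega
    · simp only [h, if_false, not_false_eq_true, if_true]; omega

theorem WI_of (q : ℕ) (hq : 2 ≤ q) (hNI : NIds q) (n κ t x0 x1 : ℕ) (hκ : κ ≤ q)
    (h0 : x0 ≤ κ * q ^ n) (h1 : x1 ≤ κ * q ^ n) (h : κ * q ^ n ≤ x0 + x1) :
    D q t (κ * q ^ n) + D q t (x0 + x1 - κ * q ^ n) ≤ D q t x0 + D q t x1 := by
  set C := κ * q ^ n with hC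
  set H : ℕ → ℕ := fun y => Nat.count (fun z => ds q (C - 1 - z) + 0 ≤ t) y with hH
  have hD : ∀ y ≤ C, D q t C = D q t (C - y) + H y := fun y hy => count_refl _ C y hy
  have hsup : ∀ y0 y1, y0 + y1 ≤ C → H y0 + H y1 ≤ H (y0 + y1) := by
    intro y0 y1 hy
    set S := (κ - 1) + n * (q - 1) with hS
    have href : ∀ z < C, ds q (C - 1 - z) + ds q z = S := fun z hz => ds_refl hq n κ z hκ hz
    rcases Nat.lt_or_ge t S with hSt | hSt
    · have e : ∀ y ≤ C, H y + D q (S - t - 1) y = y := by
        intro y hy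
        have e1 : H y = Nat.count (fun z => ¬ (ds q z + 0 ≤ S - t - 1)) y := by
          refine cnt_shift_eq fun z hz => ?_
          have := href z (by omega)
          omega
        rw [e1, add_comm]
        exact count_add_not _ _
      have a1 := e y0 (by omega)
      have a2 := e y1 (by omega)
      have a3 := e (y0 + y1) hy
      have a4 := D_subadd_of q hq hNI (S - t - 1) y0 y1
      omega
    · have e : ∀ y ≤ C, H y = y := by
        intro y hy
        refine Nat.count_of_forall fun z hz => ?_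
        have := href z (by omega)
        omega
      rw [e y0 (by omega), e y1 (by omega), e (y0 + y1) hy]
  have a1 := hD (C - x0) (by omega)
  have a2 := hD (C - x1) (by omega)
  have a3 := hD ((C - x0) + (C - x1)) (by omega)
  have a4 := hsup (C - x0) (C - x1) (by omega)
  have e1 : C - (C - x0) = x0 := by omega
  have e2 : C - (C - x1) = x1 := by omega
  have e3 : C - ((C - x0) + (C - x1)) = x0 + x1 - C := by omega
  rw [e1] at a1
  rw [e2] at a2
  rw [e3] at a3
  omega

/-! ### splitting off the last digit -/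

theorem count_single (a m q : ℕ) (h : m < q) :
    Nat.count (fun r => a + r = a + m) q = 1 := by
  rw [Nat.count_eq_card_filter_range, Finset.card_eq_one]
  refine ⟨m, ?_⟩
  ext r
  simp only [Finset.mem_filter, Finset.mem_range, Finset.mem_singleton]
  omega

theorem count_eq_block (q : ℕ) (hq : 2 ≤ q) (t : ℕ) (ht : t < q) (y : ℕ) :
    Nat.count (fun z => ds q z = t) (q * y) = Nat.count (fun w => ds q w + 0 ≤ t) y := by
  induction y with
  | zero => simp
  | succ y ih =>
    rw [Nat.mul_succ, Nat.count_add, ih, Nat.count_succ]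
    congr 1
    have e : Nat.count (fun r => ds q (q * y + r) = t) q = Nat.count (fun r => ds q y + r = t) q := by
      refine cnt_shift_eq fun r hr => ?_
      rw [ds_mul_add hq _ _ hr]
    rw [e]
    by_cases h : ds q y + 0 ≤ t
    · rw [if_pos h]
      obtain ⟨m, hm⟩ := Nat.exists_eq_add_of_le (show ds q y ≤ t by omega)
      subst hm
      exact count_single _ _ _ (by omega)
    · rw [if_neg h, Nat.count_iff_forall_not]
      intro r _
      omega

theorem D_split (q : ℕ) (hq : 2 ≤ q) (d F : ℕ) (hdq : d + 1 < q) (hF : ds q F ≤ d + 1) :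
    D q (d+1) F = D q (d+1) (F / q) + D q d F := by
  have h1 : D q (d + 1) F = Nat.count (fun z => ds q z = d + 1) F + D q d F := by
    unfold D cnt
    clear hF
    induction F with
    | zero => simp
    | succ F ih =>
      rw [Nat.count_succ, Nat.count_succ, Nat.count_succ, ih]
      by_cases h2 : ds q F = d + 1
      · rw [if_pos (by omega), if_pos h2, if_neg (by omega)]
        omega
      · by_cases h3 : ds q F + 0 ≤ d
        · rw [if_pos (by omega), if_neg h2, if_pos h3]
          omega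
        · rw [if_neg (by omega), if_neg h2, if_neg h3]
          omega
  have h2 : Nat.count (fun z => ds q z = d + 1) F = D q (d + 1) (F / q) := by
    have hF2 := Nat.div_add_mod F q
    conv_lhs => rw [← hF2]
    rw [Nat.count_add, count_eq_block q hq (d + 1) (by omega)]
    have h3 : Nat.count (fun r => ds q (q * (F / q) + r) = d + 1) (F % q) = 0 := by
      rw [Nat.count_iff_forall_not]
      intro r hr
      have hr2 : F % q < q := Nat.mod_lt _ (by omega)
      rw [ds_mul_add hq _ _ (by omega)]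
      rw [ds_eq hq] at hF
      omega
    rw [h3, add_zero]
    rfl
  rw [h1, h2]

theorem pr_succ (q m : ℕ) : pr q (m + 1) = pr q m + q ^ m := by
  unfold pr; rw [Finset.sum_range_succ]

theorem pr_succ' (q m : ℕ) : pr q (m + 1) = q * pr q m + 1 := by
  unfold pr
  rw [Finset.sum_range_succ', Finset.mul_sum, pow_zero]
  congr 1
  refine Finset.sum_congr rfl fun i _ => ?_
  rw [pow_succ']

theorem ds_cat {q : ℕ} (hq : 2 ≤ q) (M w y : ℕ) (hy : y < q ^ M) :
    ds q (w * q ^ M + y) = ds q w + ds q y := by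
  induction M generalizing y with
  | zero =>
    have : y = 0 := by simpa using hy
    subst this
    simp [ds_zero]
  | succ M ih =>
    have hq0 : 0 < q := by omega
    have h1 : y / q < q ^ M := by
      rw [Nat.div_lt_iff_lt_mul hq0, ← pow_succ]; exact hy
    have h2 : w * q ^ (M + 1) + y = q * (w * q ^ M + y / q) + y % q := by
      have := Nat.div_add_mod y q
      rw [pow_succ]
      nlinarith
    rw [h2, ds_mul_add hq _ _ (Nat.mod_lt _ hq0), ih _ h1, ds_eq hq y]
    omega

/-! ### the main numerical lemma -/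

theorem NUM_of (q m e N u zH a F G : ℕ) (hNI : NIds q) (hd : 1 ≤ e) (hdq : e + 1 < q)
    (hF : D q (e + 1) F = N) (hFd : ds q F ≤ e + 1) (hF1 : q ^ (m + 1) ≤ F)
    (hF2 : F < q ^ (m + 2))
    (huM : u < R (m + 1) (e + 1)) (huN : u ≤ N) (hzH : D q (e + 1) (zH - pr q m) ≤ u)
    (hG : D q e G = N - u) (hGd : ds q G ≤ e)
    (hz : pr q (m + 1) + F + 1 ≤ zH + a) (hav : zH + a ≤ q * zH + 1) (ha : a ≤ G) :
    G / q ^ (m + 1) = F / q ^ (m + 1) ∧ F / q ^ (m + 1) ≤ e ∧
      G < a + theta q (e + 1) (m + 1) (F / q ^ (m + 1)) := by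
  have hq : 2 ≤ q := by omega
  have hq0 : 0 < q := by omega
  obtain ⟨P, hP⟩ : ∃ P, P = q ^ m := ⟨_, rfl⟩
  have hP0 : 0 < P := by rw [hP]; positivity
  have hPq : q ^ (m + 1) = q * P := by rw [pow_succ, mul_comm, hP]
  have hPq2 : q ^ (m + 2) = q * (q * P) := by rw [pow_succ, hPq]; ring
  obtain ⟨Y, hYu, hYd⟩ := exists_f hq (t := e + 1) (by omega) u
  have hY1 : zH ≤ pr q m + Y := by
    have := le_of_D_le (q := q) (t := e + 1) (x := zH - pr q m) hYd (by rw [hYu]; exact hzH)
    omega
  have hY2 : Y < q * P := by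
    by_contra hcon
    push Not at hcon
    have h1 := D_mono q (e + 1) hcon
    rw [← hPq, D_pow q hq hdq, hYu] at h1
    omega
  have hpr1 := pr_succ q m
  have hpr2 := pr_succ' q m
  rw [← hP] at hpr1
  obtain ⟨F', hF'⟩ : ∃ F', F' = F / q := ⟨_, rfl⟩
  have hFm := Nat.div_add_mod F q
  rw [← hF'] at hFm
  have hF'd : ds q F' ≤ e + 1 := by
    have := ds_eq hq F
    rw [← hF'] at this
    omega
  have hY3 : F' + 1 ≤ Y := by
    by_contra hcon
    have h1 : zH ≤ pr q m + F' := by omega
    have h2 : q * zH ≤ q * (pr q m + F') := Nat.mul_le_mul_left _ h1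
    rw [mul_add] at h2
    omega
  have hsplit := D_split q hq e F hdq hFd
  rw [← hF'] at hsplit
  have hDY : D q (e + 1) F' < D q (e + 1) Y := D_lt hF'd (by omega)
  -- the basic equation
  have heq0 : D q (e + 1) Y + D q e G = D q (e + 1) F := by rw [hYu, hG, hF]; omega
  have hGF : G < F := by
    by_contra hcon
    push Not at hcon
    have := D_mono q e hcon
    omega
  obtain ⟨b, hb⟩ : ∃ b, b = G / q ^ (m + 1) := ⟨_, rfl⟩
  obtain ⟨c, hc⟩ : ∃ c, c = F / q ^ (m + 1) := ⟨_, rfl⟩
  rw [← hb, ← hc]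
  have hQ0 : 0 < q ^ (m + 1) := by positivity
  have hbc : b ≤ c := by rw [hb, hc]; exact Nat.div_le_div_right hGF.le
  have hcq : c < q := by
    rw [hc, Nat.div_lt_iff_lt_mul hQ0, hPq, ← hPq2]; exact hF2
  have hc1 : 1 ≤ c := by
    rw [hc, Nat.one_le_div_iff hQ0]; exact hF1
  have hFdec := Nat.div_add_mod F (q ^ (m + 1))
  have hGdec := Nat.div_add_mod G (q ^ (m + 1))
  rw [← hc] at hFdec
  rw [← hb] at hGdec
  obtain ⟨F1, hF1def⟩ : ∃ F1, F1 = F % q ^ (m + 1) := ⟨_, rfl⟩
  obtain ⟨G1, hG1def⟩ : ∃ G1, G1 = G % q ^ (m + 1) := ⟨_, rfl⟩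
  have hF1lt : F1 < q ^ (m + 1) := by rw [hF1def]; exact Nat.mod_lt _ hQ0
  have hG1lt : G1 < q ^ (m + 1) := by rw [hG1def]; exact Nat.mod_lt _ hQ0
  rw [← hF1def] at hFdec
  rw [← hG1def] at hGdec
  have hdsF : ds q F = c + ds q F1 := by
    rw [← hFdec, mul_comm, ds_cat hq _ _ _ hF1lt, ds_lt hq hcq]
  have hdsG : ds q G = b + ds q G1 := by
    rw [← hGdec, mul_comm, ds_cat hq _ _ _ hG1lt, ds_lt hq (show b < q by omega)]
  -- splitting at multiples of q^(m+1)
  have hsb : ∀ s, s ≤ e + 1 → s < q → D q (e + 1) (s * q ^ (m + 1)) =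
      D q (e + 1) (s * P) + D q e (s * q ^ (m + 1)) := by
    intro s hs hsq
    have h1 := D_split q hq e (s * q ^ (m + 1)) hdq (by
      have := ds_cat hq (m + 1) s 0 hQ0
      rw [add_zero, ds_zero, ds_lt hq hsq] at this
      omega)
    have h2 : s * q ^ (m + 1) / q = s * P := by
      rw [hPq, show s * (q * P) = q * (s * P) by ring, Nat.mul_div_cancel_left _ hq0]
    rw [h2] at h1
    exact h1
  have hbe : b ≤ e := by omega
  rcases Nat.lt_or_ge b c with hblt | hbge
  · -- b < c : impossible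
    exfalso
    obtain ⟨t, ht⟩ : ∃ t, e = b + t := ⟨e - b, by omega⟩
    obtain ⟨s, hs⟩ : ∃ s, q = b + 1 + s := ⟨q - b - 1, by omega⟩
    -- F = (b+1) q^M + F2
    obtain ⟨F2, hF2e⟩ : ∃ F2, F = b * q ^ (m + 1) + (q ^ (m + 1) + F2) := by
      refine ⟨F - (b + 1) * q ^ (m + 1), ?_⟩
      have h1 : (b + 1) * q ^ (m + 1) ≤ c * q ^ (m + 1) := Nat.mul_le_mul_right _ hblt
      have h2 : (b + 1) * q ^ (m + 1) = b * q ^ (m + 1) + q ^ (m + 1) := by ring
      have h3 : q ^ (m + 1) * c = c * q ^ (m + 1) := mul_comm _ _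
      omega
    have hF2lt : F2 < s * q ^ (m + 1) := by
      have h1 : F < q * q ^ (m + 1) := by rw [hPq, ← hPq2]; exact hF2
      have h2 : ∀ X : ℕ, q * X = b * X + X + s * X := fun X => by rw [hs]; ring
      have h3 := h2 (q ^ (m + 1))
      omega
    have hds2 : ds q F2 ≤ t := by
      have h1 : ds q F = (b + 1) + ds q F2 := by
        rw [hF2e, show b * q ^ (m + 1) + (q ^ (m + 1) + F2) = (b + 1) * q ^ (m + 1) + F2 by ring]
        refine ds_shift hq (m + 1) (b + 1) F2 ?_
        have : q - (b + 1) = s := by omega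
        rw [this]; exact hF2lt
      omega
    -- Y = (b+1) P + Y2
    have hF'lo : (b + 1) * P ≤ F' := by
      rw [hF', Nat.le_div_iff_mul_le hq0]
      have h1 : (b + 1) * P * q = b * q ^ (m + 1) + q ^ (m + 1) := by rw [hPq]; ring
      omega
    obtain ⟨Y2, hY2e⟩ : ∃ Y2, Y = b * P + (P + Y2) := by
      refine ⟨Y - (b + 1) * P, ?_⟩
      have h2 : (b + 1) * P = b * P + P := by ring
      omega
    have hqP : q * P = b * P + P + s * P := by
      have h2 : ∀ X : ℕ, q * X = b * X + X + s * X := fun X => by rw [hs]; ring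
      exact h2 P
    have hY2lt : Y2 < s * P := by omega
    have hqb : q - b = s + 1 := by omega
    have hq1 : s ≤ q - 1 := by omega
    -- (1)
    have E1 : D q (e + 1) Y = D q (e + 1) (b * P) + (R m (t + 1) + D q t Y2) := by
      rw [hY2e, hP, D_block q hq m b (e + 1) _ (by omega), ← hP]
      · congr 1
        have h1 : e + 1 - b = t + 1 := by omega
        rw [h1, hP, D_succ_block q hq m t Y2 (by omega)]
        rw [← hP]
        exact hY2lt.le.trans (Nat.mul_le_mul_right _ hq1)
      · rw [← hP, hqb]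
        have : (s + 1) * P = s * P + P := by ring
        omega
    have E2 : D q e G = D q e (b * q ^ (m + 1)) + D q t G1 := by
      rw [← hGdec, mul_comm, D_block q hq (m + 1) b e G1 hbe]
      · congr 2
        omega
      · rw [hqb]
        have : (s + 1) * q ^ (m + 1) = s * q ^ (m + 1) + q ^ (m + 1) := by ring
        omega
    have E3 : D q (e + 1) F = D q (e + 1) (b * q ^ (m + 1)) + (R (m + 1) (t + 1) + D q t F2) := by
      rw [hF2e, D_block q hq (m + 1) b (e + 1) _ (by omega)]
      · congr 1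
        have h1 : e + 1 - b = t + 1 := by omega
        rw [h1, D_succ_block q hq (m + 1) t F2 (by omega)]
        exact hF2lt.le.trans (Nat.mul_le_mul_right _ hq1)
      · rw [hqb]
        have : (s + 1) * q ^ (m + 1) = s * q ^ (m + 1) + q ^ (m + 1) := by ring
        omega
    have E4 := hsb b (by omega) (by omega)
    have E5 := R_succ m t
    have E6 : R (m + 1) t + D q t F2 = D q t Y2 + D q t G1 := by omega
    -- C' = (q - b) P = (s + 1) P
    have hG1ds : ds q G1 ≤ t := by omega
    have hG1le : G1 ≤ t * P := by rw [hP]; exact le_of_ds hq hG1lt hG1ds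
    have hts : t ≤ s := by omega
    have hC1 : t * P ≤ s * P := Nat.mul_le_mul_right _ hts
    have hC2 : (s + 1) * P = s * P + P := by ring
    have hC3 : (s + 1) * P ≤ q ^ (m + 1) := by
      rw [hPq]; exact Nat.mul_le_mul_right _ (by omega)
    have E7 : D q t ((s + 1) * P) = R (m + 1) t := by
      refine D_top q hq (by omega) m _ ?_ hC3
      rw [← hP]; omega
    have hfin : Y2 + G1 ≤ (s + 1) * P + F2 := by
      rcases Nat.lt_or_ge ((s + 1) * P) (Y2 + G1) with h1 | h1
      · have h2 := WI_of q hq hNI m (s + 1) t Y2 G1 (by omega) (by rw [← hP]; omega)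
          (by rw [← hP]; omega) (by rw [← hP]; omega)
        rw [← hP, E7] at h2
        have h3 := le_of_D_le hds2 (x := Y2 + G1 - (s + 1) * P) (by omega)
        omega
      · omega
    have hqq : q ^ (m + 1) = b * P + P + s * P := by rw [hPq, hqP]
    have hGdec2 : G = b * q ^ (m + 1) + G1 := by rw [← hGdec]; ring
    omega
  · have hbeq : b = c := by omega
    refine ⟨hbeq, by omega, ?_⟩
    obtain ⟨t, ht⟩ : ∃ t, e = c + t := ⟨e - c, by omega⟩
    have hcP : (c + 1) * P = c * P + P := by ring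
    rcases Nat.lt_or_ge Y ((c + 1) * P) with hYlt | hYge
    · -- Y small
      rcases Nat.eq_zero_or_pos m with hm | hm
      · subst hm
        have hP1 : P = 1 := by rw [hP, pow_zero]
        have hth : theta q (e + 1) (0 + 1) c = c - 1 := by unfold theta; simp
        rw [hth]
        rw [hP1] at hcP hYlt hpr1
        omega
      · obtain ⟨n, rfl⟩ : ∃ n, m = n + 1 := ⟨m - 1, by omega⟩
        have hth : theta q (e + 1) (n + 1 + 1) c = (c - 1) * P + (e + 1 - c) * q ^ n := by
          unfold theta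
          rw [if_neg (by omega), hP]
          rfl
        rw [hth]
        have hYle : Y ≤ c * P + (t + 1) * q ^ n := by
          rcases Nat.lt_or_ge Y (c * P) with h1 | h1
          · omega
          · obtain ⟨y, hy⟩ := Nat.exists_eq_add_of_le h1
            have h2 : y < P := by omega
            have h3 : ds q Y = c + ds q y := by
              rw [hy, hP]; exact ds_top hq _ _ _ hcq (by rw [← hP]; exact h2)
            have h4 : y ≤ (t + 1) * q ^ n :=
              le_of_ds hq (by rw [← hP]; exact h2) (by omega)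
            omega
        have h5 : (c - 1) * P + P = c * P := by
          have h7 := Nat.sub_add_cancel hc1
          calc (c - 1) * P + P = (c - 1 + 1) * P := by ring
            _ = c * P := by rw [h7]
        have h6 : e + 1 - c = t + 1 := by omega
        rw [h6]
        omega
    · obtain ⟨Y1, hY1e⟩ : ∃ Y1, Y = c * P + (P + Y1) := ⟨Y - (c + 1) * P, by omega⟩
      obtain ⟨s, hs⟩ : ∃ s, q = c + 1 + s := ⟨q - c - 1, by omega⟩
      have hqP : q * P = c * P + P + s * P := by
        have h2 : ∀ X : ℕ, q * X = c * X + X + s * X := fun X => by rw [hs]; ring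
        exact h2 P
      have hY1lt : Y1 < s * P := by omega
      have hqc : q - c = s + 1 := by omega
      have hq1 : s ≤ q - 1 := by omega
      have hsP : (s + 1) * P = s * P + P := by ring
      have hsQ : (s + 1) * q ^ (m + 1) = s * q ^ (m + 1) + q ^ (m + 1) := by ring
      have E1 : D q (e + 1) Y = D q (e + 1) (c * P) + (R m (t + 1) + D q t Y1) := by
        rw [hY1e, hP, D_block q hq m c (e + 1) _ (by omega), ← hP]
        · congr 1
          have h1 : e + 1 - c = t + 1 := by omega
          rw [h1, hP, D_succ_block q hq m t Y1 (by omega)]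
          rw [← hP]
          exact hY1lt.le.trans (Nat.mul_le_mul_right _ hq1)
        · rw [← hP, hqc]
          omega
      have E2 : D q e G = D q e (c * q ^ (m + 1)) + D q t G1 := by
        rw [← hGdec, hbeq, mul_comm, D_block q hq (m + 1) c e G1 (by omega)]
        · congr 2
          omega
        · rw [hqc]
          omega
      have E3 : D q (e + 1) F = D q (e + 1) (c * q ^ (m + 1)) + D q (t + 1) F1 := by
        rw [← hFdec, mul_comm, D_block q hq (m + 1) c (e + 1) F1 (by omega)]
        · congr 2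
          omega
        · rw [hqc]
          omega
      have E4 := hsb c (by omega) hcq
      have E5 : D q (t + 1) F1 = R m (t + 1) + D q t Y1 + D q t G1 := by omega
      have hF1ds : ds q F1 ≤ t + 1 := by omega
      have E6 : D q (t + 1) F1 < R (m + 1) (t + 1) := by
        rw [← D_pow q hq (show t + 1 < q by omega)]
        exact D_lt hF1ds hF1lt
      have E7 := D_subadd_of q hq hNI t Y1 G1
      have E8 := lt_of_R_add q hq m t (Y1 + G1) (by omega) (by omega)
      have E9 := D_succ_block q hq m t (Y1 + G1) (by omega) E8.le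
      have E10 := le_of_D_le hF1ds (x := q ^ m + (Y1 + G1)) (by omega)
      rw [← hP] at E10
      have hth : (c - 1) * P ≤ theta q (e + 1) (m + 1) c := by
        unfold theta
        by_cases hm : m + 1 ≤ 1
        · rw [if_pos hm]
          have : m = 0 := by omega
          subst this
          rw [hP, pow_zero, mul_one]
        · rw [if_neg hm, Nat.add_sub_cancel, ← hP]
          omega
      have h5 : (c - 1) * P + P = c * P := by
        have h7 := Nat.sub_add_cancel hc1
        calc (c - 1) * P + P = (c - 1 + 1) * P := by ring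
          _ = c * P := by rw [h7]
      have hGdec2 : G = c * q ^ (m + 1) + G1 := by rw [← hGdec, hbeq]; ring
      have hFdec2 : F = c * q ^ (m + 1) + F1 := by rw [← hFdec]; ring
      omega

/-! ### from box counts to theta -/

theorem count_le_of_map {p p' : ℕ → Prop} [DecidablePred p] [DecidablePred p'] {x x' : ℕ}
    (f : ℕ → ℕ) (h1 : ∀ z < x, p z → p' (f z)) (h2 : ∀ z < x, p z → f z < x')
    (h3 : ∀ z1 z2, z1 < z2 → z2 < x → p z1 → p z2 → f z1 < f z2) :
    Nat.count p x ≤ Nat.count p' x' := by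
  rw [Nat.count_eq_card_filter_range, Nat.count_eq_card_filter_range]
  refine Finset.card_le_card_of_injOn f ?_ ?_
  · intro z hz
    simp only [Finset.coe_filter, Finset.mem_range] at hz ⊢
    exact ⟨h2 z hz.1 hz.2, h1 z hz.1 hz.2⟩
  · intro z1 hz1 z2 hz2 heq
    simp only [Finset.coe_filter, Finset.mem_range] at hz1 hz2
    have hz1' : z1 < x ∧ p z1 := hz1
    have hz2' : z2 < x ∧ p z2 := hz2
    rcases lt_trichotomy z1 z2 with h | h | h
    · have := h3 z1 z2 h hz2'.1 hz1'.2 hz2'.2; omega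
    · exact h
    · have := h3 z2 z1 h hz1'.1 hz2'.2 hz1'.2; omega

/-- shrink the second digit -/
def psi (q E w : ℕ) : ℕ := (w / q) * E + w % q

/-- shrink the digit above the `r` lowest ones -/
def phi (q E r z : ℕ) : ℕ := psi q E (z / q ^ r) * q ^ r + z % q ^ r

theorem psi_lt {q E w1 w2 : ℕ} (h : w1 < w2) (h1 : w1 % q < E) :
    psi q E w1 < psi q E w2 := by
  unfold psi
  have e1 := Nat.div_add_mod w1 q
  have e2 := Nat.div_add_mod w2 q
  rcases Nat.lt_or_ge (w1 / q) (w2 / q) with h2 | h2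
  · have h3 : (w1 / q + 1) * E ≤ w2 / q * E := Nat.mul_le_mul_right _ h2
    have h4 : (w1 / q + 1) * E = w1 / q * E + E := by ring
    omega
  · have h3 : w1 / q = w2 / q := le_antisymm (Nat.div_le_div_right h.le) h2
    rw [h3] at e1 ⊢
    omega

theorem phi_lt {q E r z1 z2 : ℕ} (hq : 0 < q) (h : z1 < z2) (h1 : (z1 / q ^ r) % q < E) :
    phi q E r z1 < phi q E r z2 := by
  unfold phi
  have hpos : 0 < q ^ r := by positivity
  have e1 := Nat.div_add_mod z1 (q ^ r)
  have e2 := Nat.div_add_mod z2 (q ^ r)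
  have hm : z1 % q ^ r < q ^ r := Nat.mod_lt _ hpos
  rcases Nat.lt_or_ge (z1 / q ^ r) (z2 / q ^ r) with h2 | h2
  · have h3 : (psi q E (z1 / q ^ r) + 1) * q ^ r ≤ psi q E (z2 / q ^ r) * q ^ r :=
      Nat.mul_le_mul_right _ (psi_lt h2 h1)
    have h4 : (psi q E (z1 / q ^ r) + 1) * q ^ r = psi q E (z1 / q ^ r) * q ^ r + q ^ r := by ring
    calc psi q E (z1 / q ^ r) * q ^ r + z1 % q ^ r
        < psi q E (z1 / q ^ r) * q ^ r + q ^ r := by gcongr
      _ ≤ psi q E (z2 / q ^ r) * q ^ r := by rw [← h4]; exact h3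
      _ ≤ _ := Nat.le_add_right _ _
  · have h3 : z1 / q ^ r = z2 / q ^ r := le_antisymm (Nat.div_le_div_right h.le) h2
    rw [h3] at e1 ⊢
    have h4 : z1 % q ^ r < z2 % q ^ r := by
      have : q ^ r * (z2 / q ^ r) + z1 % q ^ r < q ^ r * (z2 / q ^ r) + z2 % q ^ r := by
        rw [e1, e2]; exact h
      exact Nat.lt_of_add_lt_add_left this
    exact Nat.add_lt_add_left h4 _

theorem W_eval {q : ℕ} (hq : 2 ≤ q) (E r c j y : ℕ) (hj : j < E) (hy : y < q ^ r) :
    W E q r ((c * E + j) * q ^ r + y) = c + j + ds q y := by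
  induction r generalizing y with
  | zero =>
    have : y = 0 := by simpa using hy
    subst this
    have hE : 0 < E := by omega
    show ext id E ((c * E + j) * q ^ 0 + 0) = _
    unfold ext
    rw [pow_zero, mul_one, add_zero, mul_comm c E, Nat.mul_add_div hE, Nat.div_eq_of_lt hj,
      Nat.mul_add_mod, Nat.mod_eq_of_lt hj, ds_zero]
    simp
  | succ r ih =>
    have hq0 : 0 < q := by omega
    have h1 : y / q < q ^ r := by
      rw [Nat.div_lt_iff_lt_mul hq0, ← pow_succ]; exact hy
    have h2 : (c * E + j) * q ^ (r + 1) + y = q * ((c * E + j) * q ^ r + y / q) + y % q := by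
      have h3 := Nat.div_add_mod y q
      have h4 : (c * E + j) * q ^ (r + 1) = q * ((c * E + j) * q ^ r) := by rw [pow_succ]; ring
      rw [h4, mul_add]
      omega
    have hr : y % q < q := Nat.mod_lt _ hq0
    rw [h2]
    show ext (W E q r) q _ = _
    unfold ext
    rw [Nat.mul_add_div hq0, Nat.div_eq_of_lt hr, Nat.mul_add_mod, Nat.mod_eq_of_lt hr, add_zero,
      ih _ h1, ds_eq hq y]
    omega

/-- digits of `z < q^(r+2)` with digit sum below `E` -/
theorem phi_weight {q : ℕ} (hq : 2 ≤ q) (E r z : ℕ) (hz : z < q ^ (r + 2)) (h : ds q z < E) :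
    W E q r (phi q E r z) = ds q z ∧ (z / q ^ r) % q < E := by
  have hpos : 0 < q ^ r := by positivity
  have hq0 : 0 < q := by omega
  have e1 := Nat.div_add_mod z (q ^ r)
  have e2 := Nat.div_add_mod (z / q ^ r) q
  have hm : z % q ^ r < q ^ r := Nat.mod_lt _ hpos
  have hc : z / q ^ r / q < q := by
    rw [Nat.div_lt_iff_lt_mul hq0, Nat.div_lt_iff_lt_mul hpos]
    calc z < q ^ (r + 2) := hz
      _ = q * q * q ^ r := by rw [pow_add]; ring
  have hds : ds q z = z / q ^ r / q + (z / q ^ r) % q + ds q (z % q ^ r) := by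
    conv_lhs => rw [← e1, mul_comm]
    rw [ds_cat hq r _ _ hm]
    congr 1
    conv_lhs => rw [← e2]
    rw [ds_mul_add hq _ _ (Nat.mod_lt _ hq0), ds_lt hq hc]
  have hj0 : (z / q ^ r) % q ≤ ds q z := by
    rw [hds]; exact (Nat.le_add_left _ _).trans (Nat.le_add_right _ _)
  have hj : (z / q ^ r) % q < E := lt_of_le_of_lt hj0 h
  refine ⟨?_, hj⟩
  unfold phi psi
  rw [W_eval hq E r _ _ _ hj hm, hds]

theorem phi_eq {q : ℕ} (E δ r z : ℕ) (hδ : q = E + δ) :
    phi q E r z + (z / q ^ (r + 1)) * δ * q ^ r = z := by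
  have e1 := Nat.div_add_mod z (q ^ r)
  have e2 := Nat.div_add_mod (z / q ^ r) q
  have e3 : z / q ^ (r + 1) = z / q ^ r / q := by rw [Nat.div_div_eq_div_mul, ← pow_succ]
  rw [e3]
  unfold phi psi
  calc (z / q ^ r / q * E + z / q ^ r % q) * q ^ r + z % q ^ r + z / q ^ r / q * δ * q ^ r
      = ((E + δ) * (z / q ^ r / q) + z / q ^ r % q) * q ^ r + z % q ^ r := by ring
    _ = z := by rw [← hδ, e2, mul_comm, e1]

/-- the box count below the image of `G` -/
theorem box_place {q : ℕ} (hq : 2 ≤ q) (E r a n G : ℕ) (hE : 1 ≤ E)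
    (h1 : cnt (W E q r) 0 (E - 1) a ≤ n) (hG : D q (E - 1) G = n) (hGd : ds q G ≤ E - 1)
    (hG2 : G < q ^ (r + 2)) : a ≤ phi q E r G := by
  by_contra hcon
  push Not at hcon
  have hw := phi_weight hq E r G hG2 (by omega)
  have h2 : cnt (W E q r) 0 (E - 1) (phi q E r G) < cnt (W E q r) 0 (E - 1) a :=
    cnt_lt (by rw [hw.1]; omega) hcon
  have h3 : D q (E - 1) G ≤ cnt (W E q r) 0 (E - 1) (phi q E r G) := by
    unfold D cnt
    refine count_le_of_map (phi q E r) (fun z hz hp => ?_) (fun z hz hp => ?_)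
      (fun z1 z2 h12 hz2 hp1 hp2 => ?_)
    · rw [(phi_weight hq E r z (hz.trans hG2) (by omega)).1]
      exact hp
    · exact phi_lt (by omega) hz (phi_weight hq E r z (hz.trans hG2) (by omega)).2
    · exact phi_lt (by omega) h12
        (phi_weight hq E r z1 ((h12.trans hz2).trans hG2) (by omega)).2
  omega

theorem THETA1 (q E a n G : ℕ) (hE : 1 ≤ E) (hEq : E < q)
    (h1 : cnt (ext id E) 0 (E-1) a ≤ n)
    (hG : D q (E-1) G = n) (hGd : ds q G ≤ E - 1) (hG1 : q ≤ G) (hG2 : G < q ^ 2) :
    a + theta q E 1 (G / q) ≤ G := by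
  have h2 := box_place (q := q) (by omega) E 0 a n G hE h1 hG hGd (by simpa using hG2)
  obtain ⟨δ, hδ⟩ : ∃ δ, q = E + δ := ⟨q - E, by omega⟩
  have h3 := phi_eq E δ 0 G hδ
  rw [zero_add, pow_one, pow_zero, mul_one] at h3
  have h4 : theta q E 1 (G / q) = G / q - 1 := by unfold theta; simp
  have h5 : 1 ≤ G / q := by rw [Nat.one_le_div_iff (by omega)]; exact hG1
  have h6 : G / q * 1 ≤ G / q * δ := Nat.mul_le_mul_left _ (by omega)
  rw [h4]
  omega

theorem THETA (q E M a n G Γ : ℕ) (hE : 1 ≤ E) (hEq : E < q) (hM : 2 ≤ M)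
    (h1 : cnt (W E q (M-1)) 0 (E-1) (a - (q-E)*Γ) ≤ n) (h2 : D q (E-1) (q^2*Γ) ≤ n)
    (hG : D q (E-1) G = n) (hGd : ds q G ≤ E - 1) (hG1 : q ^ M ≤ G) (hG2 : G < q ^ (M+1)) :
    a + theta q E M (G / q ^ M) ≤ G := by
  have hq : 2 ≤ q := by omega
  have hq0 : 0 < q := by omega
  obtain ⟨s, rfl⟩ : ∃ s, M = s + 2 := ⟨M - 2, by omega⟩
  have e0 : s + 2 - 1 = s + 1 := by omega
  rw [e0] at h1
  have h3 := box_place hq E (s + 1) _ n G hE h1 hG hGd hG2
  obtain ⟨δ, hδ⟩ : ∃ δ, q = E + δ := ⟨q - E, by omega⟩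
  have hδ1 : 1 ≤ δ := by omega
  have hqE : q - E = δ := by omega
  rw [hqE] at h3
  have h4 := phi_eq E δ (s + 1) G hδ
  obtain ⟨c, hc⟩ : ∃ c, c = G / q ^ (s + 2) := ⟨_, rfl⟩
  have e1 : s + 1 + 1 = s + 2 := rfl
  rw [e1, ← hc] at h4
  rw [← hc]
  obtain ⟨X, hX⟩ : ∃ X, X = q ^ s := ⟨_, rfl⟩
  have hX0 : 0 < X := by rw [hX]; positivity
  have hX1 : q ^ (s + 1) = q * X := by rw [pow_succ, hX, mul_comm]
  have hX2 : q ^ (s + 2) = q * (q * X) := by rw [pow_succ, hX1, mul_comm]
  have hQ0 : 0 < q ^ (s + 2) := by positivity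
  have hc1 : 1 ≤ c := by rw [hc, Nat.one_le_div_iff hQ0]; exact hG1
  have hcq : c < q := by
    rw [hc, Nat.div_lt_iff_lt_mul hQ0]
    calc G < q ^ (s + 2 + 1) := hG2
      _ = q * q ^ (s + 2) := by rw [pow_succ, mul_comm]
  have hth : theta q E (s + 2) c = (c - 1) * (q * X) + (E - c) * X := by
    unfold theta
    rw [if_neg (by omega), e0, hX1, hX]
    rfl
  -- the remainder of G
  have hGdec := Nat.div_add_mod G (q ^ (s + 2))
  rw [← hc] at hGdec
  obtain ⟨G1, hG1def⟩ : ∃ G1, G1 = G % q ^ (s + 2) := ⟨_, rfl⟩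
  have hG1lt : G1 < q ^ (s + 2) := by rw [hG1def]; exact Nat.mod_lt _ hQ0
  rw [← hG1def] at hGdec
  have hdsG : ds q G = c + ds q G1 := by
    rw [← hGdec, mul_comm, ds_cat hq _ _ _ hG1lt, ds_lt hq hcq]
  obtain ⟨e, he⟩ : ∃ e, E = c + 1 + e := ⟨E - 1 - c, by omega⟩
  have hG1le : G1 ≤ e * (q * X) := by
    rw [← hX1]
    exact le_of_ds hq hG1lt (by omega)
  have hΓ : q ^ 2 * Γ ≤ G := le_of_D_le hGd (by rw [hG]; exact h2)
  -- final inequality
  obtain ⟨c0, hc0⟩ : ∃ c0, c = c0 + 1 := ⟨c - 1, by omega⟩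
  obtain ⟨d0, hd0⟩ : ∃ d0, δ = d0 + 1 := ⟨δ - 1, by omega⟩
  have hkey : δ * Γ + ((c - 1) * (q * X) + (E - c) * X) ≤ c * δ * (q * X) := by
    have hc' : c - 1 = c0 := by omega
    have hE' : E - c = e + 1 := by omega
    rw [hc', hE']
    -- q Γ ≤ c q X + e X
    have h5 : q * (q * Γ) ≤ q * (c * (q * X) + e * X) := by
      calc q * (q * Γ) = q ^ 2 * Γ := by ring
        _ ≤ G := hΓ
        _ = q ^ (s + 2) * c + G1 := hGdec.symm
        _ ≤ q ^ (s + 2) * c + e * (q * X) := by omega
        _ = q * (c * (q * X) + e * X) := by rw [hX2]; ring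
    have h6 : q * Γ ≤ c * (q * X) + e * X := Nat.le_of_mul_le_mul_left h5 hq0
    have h7 : q * (δ * Γ + (c0 * (q * X) + (e + 1) * X)) ≤ q * (c * δ * (q * X)) := by
      calc q * (δ * Γ + (c0 * (q * X) + (e + 1) * X))
          = δ * (q * Γ) + q * (c0 * (q * X) + (e + 1) * X) := by ring
        _ ≤ δ * (c * (q * X) + e * X) + q * (c0 * (q * X) + (e + 1) * X) := by gcongr
        _ ≤ q * (c * δ * (q * X)) := by
            have hq' : q = c0 + 1 + 1 + e + (d0 + 1) := by omega
            rw [hc0, hd0]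
            have h8 : q * ((c0 + 1) * (d0 + 1) * (q * X)) =
                (d0 + 1) * ((c0 + 1) * (q * X) + e * X) + q * (c0 * (q * X) + (e + 1) * X) +
                (q * (c0 + 1) * d0 * (c0 + 2 + e + d0) + (d0 + 1) * (c0 + 3 + d0)) * X := by
              rw [hq']; ring
            rw [h8]
            exact Nat.le_add_right _ _
    exact Nat.le_of_mul_le_mul_left h7 hq0
  rw [hth]
  rw [hX1] at h4
  omega

theorem D_le_cnt_E (q E s x : ℕ) (hE : 1 ≤ E) (hEq : E ≤ q) (hs : s < E) (hx : x ≤ q ^ 2) :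
    D q s x ≤ cnt (ext id E) 0 s x := by
  rcases Nat.lt_or_ge q 2 with hq | hq
  · have hq1 : q = 1 := by omega
    have hE1 : E = 1 := by omega
    subst hq1
    subst hE1
    have hx1 : x ≤ 1 := by simpa using hx
    interval_cases x
    · simp [D, cnt]
    · unfold D cnt
      simp [Nat.count_succ, ds_zero, ext]
  · unfold D cnt
    refine count_le_of_map (psi q E) (fun z hz hp => ?_) (fun z hz hp => ?_)
      (fun z1 z2 h12 hz2 hp1 hp2 => ?_)
    · have h1 := phi_weight hq E 0 z (by rw [zero_add]; omega) (by omega)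
      have h2 : phi q E 0 z = psi q E z := by
        unfold phi
        simp [Nat.mod_one]
      rw [h2] at h1
      have h3 : W E q 0 (psi q E z) = ext id E (psi q E z) := rfl
      rw [← h3, h1.1]
      exact hp
    · refine lt_of_le_of_lt ?_ hz
      unfold psi
      have e1 := Nat.div_add_mod z q
      have e2 : z / q * E ≤ z / q * q := Nat.mul_le_mul_left _ hEq
      have e3 : z / q * q = q * (z / q) := mul_comm _ _
      omega
    · have h1 := phi_weight hq E 0 z1 (by rw [zero_add]; omega) (by omega)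
      refine psi_lt h12 ?_
      simpa using h1.2

end N2
end BDG
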