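import Mathlib

/-!
# The pendulum potential `V(u) = cos (2 π u)` has a minimal foliation of every slope
-/

open MeasureTheory Set Filter Topology
open scoped ContDiff

namespace Pool.Agent.helper94.Pendulum

/-- the potential -/
noncomputable def V (u : ℝ) : ℝ := Real.cos (2 * Real.pi * u)

/-- the slope field of energy `1 + δ²/2` -/
noncomputable def g (δ : ℝ) (u : ℝ) : ℝ := √(δ ^ 2 + 4 * Real.sin (Real.pi * u) ^ 2)

lemma g_cont (δ : ℝ) : Continuous (g δ) := by
  unfold g; fun_prop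

lemma g_sq (δ u : ℝ) : g δ u ^ 2 = 2 * ((1 + δ ^ 2 / 2) - V u) := by
  unfold g V
  rw [Real.sq_sqrt (by positivity), mul_assoc, Real.cos_two_mul']
  have := Real.sin_sq_add_cos_sq (Real.pi * u)
  linear_combination 2 * this

/-- Calibration: solutions of `W' = g (W)` give minimal solutions `W (e · x)`. -/
lemma minimal_of_field {n : ℕ} {G0 : ℝ → ℝ} (hg : Continuous G0) {E : ℝ}
    (hE : ∀ s, G0 s ^ 2 = 2 * (E - V s)) {e : Fin n → ℝ} (he : ∑ i, e i ^ 2 = 1)
    {W : ℝ → ℝ} (hW : ContDiff ℝ ∞ W) (hW' : ∀ t, HasDerivAt W (G0 (W t)) t)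
    {φ : (Fin n → ℝ) → ℝ} (hφ : ContDiff ℝ ∞ φ) (hφc : HasCompactSupport φ) {R : ℝ}
    (hR : tsupport φ ⊆ Metric.ball (0 : Fin n → ℝ) R) :
    ∫ x in Metric.ball (0 : Fin n → ℝ) R,
        ((1 / 2 : ℝ) * ∑ i : Fin n,
          (fderiv ℝ (fun x : Fin n → ℝ => W (∑ i, e i * x i)) x (Pi.single i (1 : ℝ))) ^ 2 -
            V (W (∑ i, e i * x i))) ≤
    ∫ x in Metric.ball (0 : Fin n → ℝ) R,
        ((1 / 2 : ℝ) * ∑ i : Fin n,
          (fderiv ℝ (fun y => W (∑ i, e i * y i) + φ y) x (Pi.single i (1 : ℝ))) ^ 2 -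
            V (W (∑ i, e i * x i) + φ x)) := by
  classical
  -- the functions
  set ℓ : (Fin n → ℝ) →L[ℝ] ℝ := ∑ i, e i • ContinuousLinearMap.proj i with hℓ
  have hℓx : ∀ x, ℓ x = ∑ i, e i * x i := by
    intro x
    simp [hℓ]
  set u : (Fin n → ℝ) → ℝ := fun x => W (∑ i, e i * x i) with hu
  have huℓ : u = fun x => W (ℓ x) := by
    funext x; rw [hu, hℓx]
  have hus : ContDiff ℝ ∞ u := by
    rw [huℓ]; exact hW.comp ℓ.contDiff
  set w : (Fin n → ℝ) → ℝ := fun y => u y + φ y with hw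
  have hws : ContDiff ℝ ∞ w := hus.add hφ
  have hud : ∀ x, HasFDerivAt u (G0 (u x) • ℓ) x := by
    intro x
    rw [huℓ]
    exact (hW' (ℓ x)).comp_hasFDerivAt x ℓ.hasFDerivAt
  have hwd : ∀ x, HasFDerivAt w (fderiv ℝ w x) x := fun x =>
    ((hws.differentiable (by simp)) x).hasFDerivAt
  -- primitive of the field
  set G : ℝ → ℝ := fun s => ∫ r in (0 : ℝ)..s, G0 r with hG
  have hGd : ∀ s, HasDerivAt G (G0 s) s := fun s =>
    intervalIntegral.integral_hasDerivAt_right (hg.intervalIntegrable _ _)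
      hg.stronglyMeasurable.stronglyMeasurableAtFilter hg.continuousAt
  set H : (Fin n → ℝ) → ℝ := fun x => G (w x) - G (u x) with hH
  have hHd : ∀ x, HasFDerivAt H (G0 (w x) • fderiv ℝ w x - G0 (u x) • (G0 (u x) • ℓ)) x := by
    intro x
    exact ((hGd (w x)).comp_hasFDerivAt x (hwd x)).sub ((hGd (u x)).comp_hasFDerivAt x (hud x))
  have hHd' : ∀ x, fderiv ℝ H x = G0 (w x) • fderiv ℝ w x - G0 (u x) • (G0 (u x) • ℓ) :=
    fun x => (hHd x).fderiv
  have hHsupp : Function.support H ⊆ tsupport φ := by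
    intro x hx
    by_contra h
    apply hx
    have : φ x = 0 := image_eq_zero_of_notMem_tsupport h
    simp [hH, hw, this]
  have hHc : HasCompactSupport H :=
    HasCompactSupport.of_support_subset_isCompact hφc hHsupp
  have hHt : tsupport H ⊆ tsupport φ := closure_minimal hHsupp (isClosed_tsupport φ)
  have hHcont : Continuous H := continuous_iff_continuousAt.2 fun x => (hHd x).continuousAt
  have hfw : Continuous (fderiv ℝ w) := hws.continuous_fderiv (by simp)
  have hHdc : Continuous (fun x => fderiv ℝ H x e) := by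
    have : (fun x => fderiv ℝ H x e) = fun x => G0 (w x) * fderiv ℝ w x e -
        G0 (u x) * (G0 (u x) * ℓ e) := by
      funext x; rw [hHd']; simp
    rw [this]
    have h1 : Continuous (fun x => fderiv ℝ w x e) := hfw.clm_apply continuous_const
    have h2 := hws.continuous
    have h3 := hus.continuous
    fun_prop
  have hHds : HasCompactSupport (fun x => fderiv ℝ H x e) :=
    (hHc.fderiv (𝕜 := ℝ)).comp_left (g := fun L : (Fin n → ℝ) →L[ℝ] ℝ => L e) (by simp)
  have hint0 : ∫ x, fderiv ℝ H x e = 0 := by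
    have h1 : ContDiff ℝ 1 H := by
      rw [contDiff_one_iff_fderiv]
      refine ⟨fun x => (hHd x).differentiableAt, ?_⟩
      have : fderiv ℝ H = fun x => G0 (w x) • fderiv ℝ w x - G0 (u x) • (G0 (u x) • ℓ) :=
        funext hHd'
      rw [this]
      have h2 := hws.continuous
      have h3 := hus.continuous
      fun_prop
    have := integral_mul_fderiv_eq_neg_fderiv_mul_of_integrable (μ := (volume : Measure (Fin n → ℝ)))
      (f := fun _ : Fin n → ℝ => (1 : ℝ)) (g := H) (v := e)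
      (by simp) (by simpa using hHdc.integrable_of_hasCompactSupport hHds)
      (by simpa using hHcont.integrable_of_hasCompactSupport hHc)
      (fun x _ => differentiableAt_const _) (fun x _ => (hHd x).differentiableAt)
    simpa using this
  have hint1 : ∫ x in Metric.ball (0 : Fin n → ℝ) R, fderiv ℝ H x e = 0 := by
    rw [← hint0]
    refine setIntegral_eq_integral_of_forall_compl_eq_zero fun x hx => ?_
    have hx' : x ∉ tsupport H := fun h => hx (hR (hHt h))
    have : x ∉ tsupport (fderiv ℝ H) := fun h => hx' (tsupport_fderiv_subset ℝ h)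
    rw [image_eq_zero_of_notMem_tsupport this]
    rfl
  -- integrability on the ball
  have hball : ∀ f : (Fin n → ℝ) → ℝ, Continuous f →
      IntegrableOn f (Metric.ball (0 : Fin n → ℝ) R) := fun f hf =>
    (hf.continuousOn.integrableOn_compact (isCompact_closedBall (0 : Fin n → ℝ) R)).mono_set
      Metric.ball_subset_closedBall
  have hVc : Continuous V := by unfold V; fun_prop
  have hLu : Continuous (fun x => (1 / 2 : ℝ) * ∑ i : Fin n,
      (fderiv ℝ u x (Pi.single i (1 : ℝ))) ^ 2 - V (u x)) := by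
    have h1 : Continuous (fderiv ℝ u) := hus.continuous_fderiv (by simp)
    have h3 := hus.continuous
    fun_prop
  have hLw : Continuous (fun x => (1 / 2 : ℝ) * ∑ i : Fin n,
      (fderiv ℝ w x (Pi.single i (1 : ℝ))) ^ 2 - V (w x)) := by
    have h3 := hws.continuous
    fun_prop
  have key : ∀ x, fderiv ℝ H x e ≤ ((1 / 2 : ℝ) * ∑ i : Fin n,
      (fderiv ℝ w x (Pi.single i (1 : ℝ))) ^ 2 - V (w x)) - ((1 / 2 : ℝ) * ∑ i : Fin n,
      (fderiv ℝ u x (Pi.single i (1 : ℝ))) ^ 2 - V (u x)) := by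
    intro x
    have e1 : ℓ e = 1 := by rw [hℓx]; simpa [sq] using he
    have e2 : ∀ i, fderiv ℝ u x (Pi.single i (1 : ℝ)) = G0 (u x) * e i := by
      intro i
      rw [(hud x).fderiv]
      simp [hℓ, Pi.single_apply]
    have e3 : fderiv ℝ w x e = ∑ i, e i * fderiv ℝ w x (Pi.single i (1 : ℝ)) := by
      conv_lhs => rw [← Finset.univ_sum_single e, map_sum]
      refine Finset.sum_congr rfl fun i _ => ?_
      have : (Pi.single i (e i) : Fin n → ℝ) = e i • Pi.single i (1 : ℝ) := by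
        rw [← Pi.single_smul]; simp
      rw [this, map_smul, smul_eq_mul]
    have e4 : fderiv ℝ H x e = G0 (w x) * (∑ i, e i * fderiv ℝ w x (Pi.single i (1 : ℝ))) -
        G0 (u x) ^ 2 := by
      rw [hHd']
      simp [e1, e3, sq]
    rw [e4]
    have e5 : ∑ i, (fderiv ℝ u x (Pi.single i (1 : ℝ))) ^ 2 = G0 (u x) ^ 2 := by
      simp_rw [e2, mul_pow]
      rw [← Finset.mul_sum, he, mul_one]
    rw [e5]
    have e6 : 0 ≤ ∑ i, (fderiv ℝ w x (Pi.single i (1 : ℝ)) - G0 (w x) * e i) ^ 2 :=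
      Finset.sum_nonneg fun i _ => sq_nonneg _
    have e7 : ∑ i, (fderiv ℝ w x (Pi.single i (1 : ℝ)) - G0 (w x) * e i) ^ 2 =
        ∑ i, (fderiv ℝ w x (Pi.single i (1 : ℝ))) ^ 2 -
        2 * G0 (w x) * (∑ i, e i * fderiv ℝ w x (Pi.single i (1 : ℝ))) +
        G0 (w x) ^ 2 * ∑ i, e i ^ 2 := by
      rw [Finset.mul_sum, Finset.mul_sum, ← Finset.sum_sub_distrib, ← Finset.sum_add_distrib]
      refine Finset.sum_congr rfl fun i _ => ?_
      ring
    rw [he] at e7
    have e8 := hE (u x)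
    have e9 := hE (w x)
    nlinarith
  have hfin : 0 ≤ ∫ x in Metric.ball (0 : Fin n → ℝ) R, (((1 / 2 : ℝ) * ∑ i : Fin n,
      (fderiv ℝ w x (Pi.single i (1 : ℝ))) ^ 2 - V (w x)) - ((1 / 2 : ℝ) * ∑ i : Fin n,
      (fderiv ℝ u x (Pi.single i (1 : ℝ))) ^ 2 - V (u x))) := by
    rw [← hint1]
    exact setIntegral_mono (hball _ hHdc) (hball _ (hLw.sub hLu)) key
  rw [integral_sub (hball _ hLw) (hball _ hLu)] at hfin
  linarith

/-- A family of solutions of the pendulum equation on the line, foliating the plane, with slope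
`s`. -/
structure Fam (G0 : ℝ → ℝ) (s : ℝ) (F : Set (ℝ → ℝ)) : Prop where
  smooth : ∀ W ∈ F, ContDiff ℝ ∞ W
  deriv : ∀ W ∈ F, ∀ t, HasDerivAt W (G0 (W t)) t
  bdd : ∀ W ∈ F, ∃ C, ∀ t, |W t - s * t| ≤ C
  shift : ∀ W ∈ F, ∀ a : ℝ, ∀ l : ℤ, (fun t => W (t + a) + l) ∈ F
  uniq : ∀ t y, ∃! W, W ∈ F ∧ W t = y

/-! ### slope zero: equilibria and heteroclinics -/

/-- the ascending heteroclinic from `0` to `1` -/
noncomputable def het (t : ℝ) : ℝ := 2 / Real.pi * Real.arctan (Real.exp (2 * Real.pi * t))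

lemma het_smooth : ContDiff ℝ ∞ het := by
  unfold het
  exact contDiff_const.mul (Real.contDiff_arctan.comp (Real.contDiff_exp.comp (by fun_prop)))

lemma het_pos (t : ℝ) : 0 < het t := by
  unfold het
  have := Real.arctan_pos.2 (Real.exp_pos (2 * Real.pi * t))
  positivity

lemma het_lt_one (t : ℝ) : het t < 1 := by
  unfold het
  have h := Real.arctan_lt_pi_div_two (Real.exp (2 * Real.pi * t))
  have hpi := Real.pi_pos
  rw [div_mul_eq_mul_div, div_lt_one hpi]
  linarith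

lemma g_add_int (δ u : ℝ) (l : ℤ) : g δ (u + l) = g δ u := by
  unfold g
  have h : Real.sin (Real.pi * (u + l)) ^ 2 = Real.sin (Real.pi * u) ^ 2 := by
    have h1 : Real.pi * (u + l) = Real.pi * u + l * Real.pi := by ring
    rw [h1, Real.sin_add_int_mul_pi, mul_pow]
    have h2 : ((-1 : ℝ) ^ l) ^ 2 = 1 := by
      rw [← zpow_natCast, ← zpow_mul, mul_comm, zpow_mul]
      simp
    rw [h2, one_mul]
  rw [h]

lemma het_deriv (t : ℝ) : HasDerivAt het (g 0 (het t)) t := by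
  have hpi := Real.pi_pos
  set y := Real.exp (2 * Real.pi * t) with hy
  have hy0 : 0 < y := Real.exp_pos _
  have h1 : HasDerivAt (fun t : ℝ => Real.exp (2 * Real.pi * t)) (y * (2 * Real.pi)) t := by
    have := ((hasDerivAt_id' t).const_mul (2 * Real.pi)).exp
    simpa using this
  have h2 : HasDerivAt het (2 / Real.pi * (1 / (1 + y ^ 2) * (y * (2 * Real.pi)))) t :=
    (h1.arctan).const_mul (2 / Real.pi)
  refine h2.congr_deriv ?_
  have h3 : Real.pi * het t = 2 * Real.arctan y := by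
    unfold het
    field_simp
    rw [hy]
    ring_nf
  unfold g
  rw [h3, Real.sin_two_mul, Real.sin_arctan, Real.cos_arctan]
  have h4 : (0 : ℝ) < 1 + y ^ 2 := by positivity
  have h5 : (0 : ℝ) ^ 2 + 4 * (2 * (y / √(1 + y ^ 2)) * (1 / √(1 + y ^ 2))) ^ 2 =
      (4 * y / (1 + y ^ 2)) ^ 2 := by
    have h6 : √(1 + y ^ 2) ^ 2 = 1 + y ^ 2 := Real.sq_sqrt h4.le
    have h7 : √(1 + y ^ 2) ≠ 0 := (Real.sqrt_pos.2 h4).ne'
    have h8 : 2 * (y / √(1 + y ^ 2)) * (1 / √(1 + y ^ 2)) = 2 * y / √(1 + y ^ 2) ^ 2 := by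
      field_simp
    rw [h8, h6]
    field_simp
    ring
  rw [h5, Real.sqrt_sq (by positivity)]
  field_simp
  ring

lemma het_injective : Function.Injective het := by
  intro a b h
  unfold het at h
  have hpi := Real.pi_pos
  have h1 : Real.arctan (Real.exp (2 * Real.pi * a)) = Real.arctan (Real.exp (2 * Real.pi * b)) :=
    mul_left_cancel₀ (by positivity) h
  have h2 := Real.exp_injective (Real.arctan_injective h1)
  exact mul_left_cancel₀ (by positivity) h2

lemma het_surj {y : ℝ} (h0 : 0 < y) (h1 : y < 1) : ∃ t, het t = y := by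
  have hpi := Real.pi_pos
  have ha : 0 < Real.pi / 2 * y := by positivity
  have hb : Real.pi / 2 * y < Real.pi / 2 := by nlinarith
  have ht : 0 < Real.tan (Real.pi / 2 * y) := Real.tan_pos_of_pos_of_lt_pi_div_two ha hb
  refine ⟨Real.log (Real.tan (Real.pi / 2 * y)) / (2 * Real.pi), ?_⟩
  unfold het
  have h2 : 2 * Real.pi * (Real.log (Real.tan (Real.pi / 2 * y)) / (2 * Real.pi)) =
      Real.log (Real.tan (Real.pi / 2 * y)) := by field_simp
  rw [h2, Real.exp_log ht, Real.arctan_tan (by linarith) hb]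
  field_simp

/-- the family of slope `0` -/
def F0 : Set (ℝ → ℝ) :=
  {W | ∃ l : ℤ, W = fun _ => (l : ℝ)} ∪ {W | ∃ (c : ℝ) (l : ℤ), W = fun t => het (t + c) + l}

lemma fam_zero : Fam (g 0) 0 F0 where
  smooth := by
    rintro W (⟨l, rfl⟩ | ⟨c, l, rfl⟩)
    · exact contDiff_const
    · exact (het_smooth.comp (contDiff_id.add contDiff_const)).add contDiff_const
  deriv := by
    rintro W (⟨l, rfl⟩ | ⟨c, l, rfl⟩) t
    · have : g 0 (l : ℝ) = 0 := by
        have := g_add_int 0 0 l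
        rw [zero_add] at this
        rw [this]
        simp [g]
      rw [this]
      exact hasDerivAt_const t _
    · rw [g_add_int]
      have := (het_deriv (t + c)).comp_add_const t c
      exact this.add_const _
  bdd := by
    rintro W (⟨l, rfl⟩ | ⟨c, l, rfl⟩)
    · exact ⟨|(l : ℝ)|, fun t => by simp⟩
    · refine ⟨1 + |(l : ℝ)|, fun t => ?_⟩
      simp only [zero_mul, sub_zero]
      refine (abs_add_le _ _).trans ?_
      have h1 := het_pos (t + c)
      have h2 := het_lt_one (t + c)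
      rw [abs_of_pos h1]
      linarith
  shift := by
    rintro W (⟨l, rfl⟩ | ⟨c, l, rfl⟩) a k
    · left
      exact ⟨l + k, by push_cast; rfl⟩
    · right
      refine ⟨c + a, l + k, ?_⟩
      funext t
      push_cast
      rw [show t + a + c = t + (c + a) by ring]
      ring
  uniq := by
    intro t y
    by_cases hy : ∃ m : ℤ, (m : ℝ) = y
    · obtain ⟨m, rfl⟩ := hy
      refine ⟨fun _ => (m : ℝ), ⟨Or.inl ⟨m, rfl⟩, rfl⟩, ?_⟩
      rintro W ⟨(⟨l, rfl⟩ | ⟨c, l, rfl⟩), hW⟩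
      · simp only at hW
        rw [hW]
      · exfalso
        simp only at hW
        have h1 := het_pos (t + c)
        have h2 := het_lt_one (t + c)
        have h3 : het (t + c) = ((m - l : ℤ) : ℝ) := by push_cast; linarith
        rw [h3] at h1 h2
        have h4 : (0 : ℤ) < m - l := by exact_mod_cast h1
        have h5 : m - l < 1 := by exact_mod_cast h2
        omega
    · have hfr : 0 < Int.fract y := by
        refine lt_of_le_of_ne (Int.fract_nonneg y) fun h => hy ⟨⌊y⌋, ?_⟩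
        have := Int.floor_add_fract y
        rw [← h] at this
        linarith
      obtain ⟨r, hr⟩ := het_surj hfr (Int.fract_lt_one y)
      refine ⟨fun s => het (s + (r - t)) + (⌊y⌋ : ℤ), ⟨Or.inr ⟨r - t, ⌊y⌋, rfl⟩, ?_⟩, ?_⟩
      · simp only
        rw [show t + (r - t) = r by ring, hr]
        have := Int.floor_add_fract y
        linarith
      · rintro W ⟨(⟨l, rfl⟩ | ⟨c, l, rfl⟩), hW⟩
        · exact absurd ⟨l, hW⟩ hy
        · simp only at hW
          have h1 := het_pos (t + c)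
          have h2 := het_lt_one (t + c)
          have h3 : ⌊y⌋ = l := by
            rw [Int.floor_eq_iff]
            constructor <;> linarith
          have h4 : het (t + c) = het r := by
            rw [hr, ← Int.self_sub_floor, h3]
            linarith
          have h5 := het_injective h4
          rw [h3, show r - t = c by linarith]

/-! ### positive slopes: rotating solutions -/

lemma g_pos {δ : ℝ} (hδ : 0 < δ) (u : ℝ) : 0 < g δ u := by
  unfold g
  exact Real.sqrt_pos.2 (by positivity)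

lemma le_g {δ : ℝ} (hδ : 0 < δ) (u : ℝ) : δ ≤ g δ u := by
  unfold g
  refine Real.le_sqrt_of_sq_le ?_
  have := sq_nonneg (Real.sin (Real.pi * u))
  linarith

lemma g_le {δ : ℝ} (hδ : 0 < δ) (u : ℝ) : g δ u ≤ δ + 2 := by
  unfold g
  rw [Real.sqrt_le_left (by positivity)]
  have := Real.sin_sq_le_one (Real.pi * u)
  nlinarith

lemma g_le' {δ : ℝ} (hδ : 0 < δ) {u : ℝ} (hu : 0 ≤ u) : g δ u ≤ δ + 2 * Real.pi * u := by
  unfold g
  have hpi := Real.pi_pos
  rw [Real.sqrt_le_left (by positivity)]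
  have h : |Real.sin (Real.pi * u)| ≤ |Real.pi * u| := Real.abs_sin_le_abs
  have h2 : Real.sin (Real.pi * u) ^ 2 ≤ (Real.pi * u) ^ 2 := sq_le_sq.2 h
  have h3 : 0 ≤ δ * (Real.pi * u) := by positivity
  nlinarith

/-- the period -/
noncomputable def T (δ : ℝ) : ℝ := ∫ v in (0 : ℝ)..1, (g δ v)⁻¹

lemma g_inv_cont {δ : ℝ} (hδ : 0 < δ) : Continuous (fun v => (g δ v)⁻¹) :=
  (g_cont δ).inv₀ fun v => (g_pos hδ v).ne'

lemma T_le {δ : ℝ} (hδ : 0 < δ) : T δ ≤ δ⁻¹ := by
  have h : ∫ v in (0 : ℝ)..1, (g δ v)⁻¹ ≤ ∫ v in (0 : ℝ)..1, δ⁻¹ := by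
    refine intervalIntegral.integral_mono_on zero_le_one
      ((g_inv_cont hδ).intervalIntegrable _ _) intervalIntegrable_const fun v _ => ?_
    exact inv_anti₀ hδ (le_g hδ v)
  unfold T
  simpa using h

lemma le_T {δ : ℝ} (hδ : 0 < δ) : Real.log (δ⁻¹) / (2 * Real.pi) ≤ T δ := by
  have hpi := Real.pi_pos
  have h0 : ∀ v ∈ Set.uIcc (0 : ℝ) 1, 0 < δ + 2 * Real.pi * v := by
    intro v hv
    rw [Set.uIcc_of_le zero_le_one] at hv
    have := hv.1
    positivity
  have h : ∫ v in (0 : ℝ)..1, (δ + 2 * Real.pi * v)⁻¹ ≤ ∫ v in (0 : ℝ)..1, (g δ v)⁻¹ := by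
    refine intervalIntegral.integral_mono_on zero_le_one ?_
      ((g_inv_cont hδ).intervalIntegrable _ _) fun v hv => ?_
    · refine ContinuousOn.intervalIntegrable ?_
      refine ContinuousOn.inv₀ (by fun_prop) fun v hv => (h0 v hv).ne'
    · exact inv_anti₀ (g_pos hδ v) (g_le' hδ hv.1)
  have h1 : ∫ v in (0 : ℝ)..1, (δ + 2 * Real.pi * v)⁻¹ =
      Real.log (δ + 2 * Real.pi * 1) / (2 * Real.pi) -
        Real.log (δ + 2 * Real.pi * 0) / (2 * Real.pi) := by
    refine intervalIntegral.integral_eq_sub_of_hasDerivAt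
      (f := fun v => Real.log (δ + 2 * Real.pi * v) / (2 * Real.pi)) (fun v hv => ?_) ?_
    · have h2 : HasDerivAt (fun v : ℝ => δ + 2 * Real.pi * v) (2 * Real.pi) v := by
        have := ((hasDerivAt_id' v).const_mul (2 * Real.pi)).const_add δ
        simpa using this
      have h3 := (h2.log (h0 v hv).ne').div_const (2 * Real.pi)
      refine h3.congr_deriv ?_
      have := (h0 v hv).ne'
      field_simp
    · refine ContinuousOn.intervalIntegrable ?_
      refine ContinuousOn.inv₀ (by fun_prop) fun v hv => (h0 v hv).ne'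
  rw [h1] at h
  unfold T
  refine le_trans ?_ h
  rw [← sub_div]
  refine div_le_div_of_nonneg_right ?_ (by positivity)
  rw [mul_zero, add_zero, Real.log_inv, mul_one]
  have h4 : (0 : ℝ) ≤ Real.log (δ + 2 * Real.pi) := by
    refine Real.log_nonneg ?_
    have := Real.pi_gt_three
    linarith
  linarith

lemma T_exp_cont : Continuous fun l : ℝ => T (Real.exp l) := by
  unfold T
  refine intervalIntegral.continuous_parametric_intervalIntegral_of_continuous' ?_ 0 1
  have : Continuous fun p : ℝ × ℝ => (g (Real.exp p.1) p.2)⁻¹ := by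
    refine Continuous.inv₀ ?_ fun p => (g_pos (Real.exp_pos _) _).ne'
    unfold g
    fun_prop
  exact this

lemma exists_T {s : ℝ} (hs : 0 < s) : ∃ δ : ℝ, 0 < δ ∧ T δ = s⁻¹ := by
  have hpi := Real.pi_pos
  have h1 : T (Real.exp (Real.log s)) ≤ s⁻¹ := by
    rw [Real.exp_log hs]
    exact T_le hs
  have h2 : s⁻¹ ≤ T (Real.exp (-(2 * Real.pi * s⁻¹))) := by
    refine le_trans (le_of_eq ?_) (le_T (Real.exp_pos _))
    rw [Real.log_inv, Real.log_exp]
    field_simp
  obtain ⟨l, hl⟩ := mem_range_of_exists_le_of_exists_ge T_exp_cont ⟨_, h1⟩ ⟨_, h2⟩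
  exact ⟨Real.exp l, Real.exp_pos l, hl⟩

/-- the time map -/
noncomputable def Th (δ : ℝ) (u : ℝ) : ℝ := ∫ v in (0 : ℝ)..u, (g δ v)⁻¹

lemma Th_deriv {δ : ℝ} (hδ : 0 < δ) (u : ℝ) : HasDerivAt (Th δ) (g δ u)⁻¹ u :=
  intervalIntegral.integral_hasDerivAt_right ((g_inv_cont hδ).intervalIntegrable _ _)
    (g_inv_cont hδ).stronglyMeasurable.stronglyMeasurableAtFilter (g_inv_cont hδ).continuousAt

lemma g_inv_smooth {δ : ℝ} (hδ : 0 < δ) : ContDiff ℝ ∞ (fun v => (g δ v)⁻¹) := by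
  refine ContDiff.inv ?_ fun v => (g_pos hδ v).ne'
  unfold g
  refine ContDiff.sqrt (by fun_prop) fun v => ?_
  have : 0 < δ ^ 2 := by positivity
  positivity

lemma Th_smooth {δ : ℝ} (hδ : 0 < δ) : ContDiff ℝ ∞ (Th δ) := by
  rw [contDiff_infty_iff_deriv]
  refine ⟨fun u => (Th_deriv hδ u).differentiableAt, ?_⟩
  have : deriv (Th δ) = fun v => (g δ v)⁻¹ := funext fun u => (Th_deriv hδ u).deriv
  rw [this]
  exact g_inv_smooth hδ

lemma Th_strictMono {δ : ℝ} (hδ : 0 < δ) : StrictMono (Th δ) :=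
  strictMono_of_hasDerivAt_pos (fun u => Th_deriv hδ u) fun u => inv_pos.2 (g_pos hδ u)

lemma Th_zero (δ : ℝ) : Th δ 0 = 0 := by simp [Th]

lemma Th_add_one {δ : ℝ} (hδ : 0 < δ) (u : ℝ) : Th δ (u + 1) = Th δ u + T δ := by
  have hi : ∀ a b, IntervalIntegrable (fun v => (g δ v)⁻¹) volume a b := fun a b =>
    (g_inv_cont hδ).intervalIntegrable _ _
  have hper : Function.Periodic (fun v => (g δ v)⁻¹) 1 := by
    intro v
    have := g_add_int δ v 1
    simp only [Int.cast_one] at this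
    simp only [this]
  unfold Th T
  rw [← intervalIntegral.integral_add_adjacent_intervals (hi 0 u) (hi u (u + 1)),
    hper.intervalIntegral_add_eq u 0, zero_add]

lemma Th_add_nat {δ : ℝ} (hδ : 0 < δ) (u : ℝ) (m : ℕ) : Th δ (u + m) = Th δ u + m * T δ := by
  induction m with
  | zero => simp
  | succ m ih =>
    rw [Nat.cast_succ, ← add_assoc, Th_add_one hδ, ih]
    ring

lemma Th_add_int {δ : ℝ} (hδ : 0 < δ) (u : ℝ) (m : ℤ) : Th δ (u + m) = Th δ u + m * T δ := by
  obtain ⟨k, rfl | rfl⟩ := m.eq_nat_or_neg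
  · exact_mod_cast Th_add_nat hδ u k
  · have := Th_add_nat hδ (u + ((-(k : ℤ) : ℤ) : ℝ)) k
    push_cast at this ⊢
    rw [show u + -(k : ℝ) + k = u by ring] at this
    rw [this]
    ring

lemma T_pos {δ : ℝ} (hδ : 0 < δ) : 0 < T δ := by
  have := Th_strictMono hδ (zero_lt_one)
  rw [Th_zero] at this
  exact this

lemma Th_surj {δ : ℝ} (hδ : 0 < δ) : Function.Surjective (Th δ) := by
  have hc : Continuous (Th δ) := (Th_smooth hδ).continuous
  intro y
  have hT := T_pos hδ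
  obtain ⟨a, ha⟩ : ∃ a : ℤ, (a : ℝ) * T δ ≤ y := by
    refine ⟨⌊y / T δ⌋, ?_⟩
    have := Int.floor_le (y / T δ)
    rwa [le_div_iff₀ hT] at this
  obtain ⟨b, hb⟩ : ∃ b : ℤ, y ≤ (b : ℝ) * T δ := by
    refine ⟨⌈y / T δ⌉, ?_⟩
    have := Int.le_ceil (y / T δ)
    rwa [div_le_iff₀ hT] at this
  have h1 : Th δ (a : ℝ) ≤ y := by
    have := Th_add_int hδ 0 a
    rw [zero_add, Th_zero, zero_add] at this
    rw [this]; exact ha
  have h2 : y ≤ Th δ (b : ℝ) := by
    have := Th_add_int hδ 0 b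
    rw [zero_add, Th_zero, zero_add] at this
    rw [this]; exact hb
  exact mem_range_of_exists_le_of_exists_ge hc ⟨_, h1⟩ ⟨_, h2⟩

/-- the time map as a homeomorphism -/
noncomputable def ThH {δ : ℝ} (hδ : 0 < δ) : ℝ ≃ₜ ℝ :=
  ((Th_strictMono hδ).orderIsoOfSurjective _ (Th_surj hδ)).toHomeomorph

lemma ThH_apply {δ : ℝ} (hδ : 0 < δ) (u : ℝ) : ThH hδ u = Th δ u := rfl

/-- the rotating solution -/
noncomputable def rot {δ : ℝ} (hδ : 0 < δ) (t : ℝ) : ℝ := (ThH hδ).symm t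

lemma Th_rot {δ : ℝ} (hδ : 0 < δ) (t : ℝ) : Th δ (rot hδ t) = t := by
  rw [← ThH_apply hδ]
  exact (ThH hδ).apply_symm_apply t

lemma rot_Th {δ : ℝ} (hδ : 0 < δ) (u : ℝ) : rot hδ (Th δ u) = u := by
  rw [← ThH_apply hδ]
  exact (ThH hδ).symm_apply_apply u

lemma rot_smooth {δ : ℝ} (hδ : 0 < δ) : ContDiff ℝ ∞ (rot hδ) :=
  (ThH hδ).contDiff_symm_deriv (fun u => (inv_pos.2 (g_pos hδ u)).ne') (fun u => Th_deriv hδ u)
    (Th_smooth hδ)

lemma rot_deriv {δ : ℝ} (hδ : 0 < δ) (t : ℝ) : HasDerivAt (rot hδ) (g δ (rot hδ t)) t := by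
  have h := HasDerivAt.of_local_left_inverse (f := Th δ) (g := rot hδ) (a := t)
    (f' := (g δ (rot hδ t))⁻¹) (rot_smooth hδ).continuous.continuousAt (Th_deriv hδ _)
    (inv_pos.2 (g_pos hδ _)).ne' (Eventually.of_forall fun y => Th_rot hδ y)
  simpa using h

lemma rot_add {δ : ℝ} (hδ : 0 < δ) (t : ℝ) (l : ℤ) : rot hδ (t + l * T δ) = rot hδ t + l := by
  have h : t + l * T δ = Th δ (rot hδ t + l) := by
    rw [Th_add_int hδ, Th_rot]
  rw [h, rot_Th]

lemma rot_bdd {δ : ℝ} (hδ : 0 < δ) (t : ℝ) : |rot hδ t - (T δ)⁻¹ * t| ≤ 1 := by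
  have hT := T_pos hδ
  set u := rot hδ t with hu
  have ht : t = Th δ u := (Th_rot hδ t).symm
  have h1 : Th δ u = Th δ (Int.fract u) + ⌊u⌋ * T δ := by
    rw [← Th_add_int hδ, Int.fract_add_floor]
  have h2 : 0 ≤ Th δ (Int.fract u) := by
    have := (Th_strictMono hδ).monotone (Int.fract_nonneg u)
    rwa [Th_zero] at this
  have h3 : Th δ (Int.fract u) ≤ T δ := (Th_strictMono hδ).monotone (Int.fract_lt_one u).le
  have h4 : u - (T δ)⁻¹ * t = Int.fract u - (T δ)⁻¹ * Th δ (Int.fract u) := by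
    rw [ht, h1, mul_add]
    have h5 : (T δ)⁻¹ * (⌊u⌋ * T δ) = ⌊u⌋ := by field_simp
    rw [h5, ← Int.self_sub_floor u]
    ring
  have h6 : (T δ)⁻¹ * Th δ (Int.fract u) ≤ 1 := by
    rw [inv_mul_le_iff₀ hT, mul_one]
    exact h3
  have h7 : 0 ≤ (T δ)⁻¹ * Th δ (Int.fract u) := by positivity
  rw [h4, abs_le]
  have h8 := Int.fract_nonneg u
  have h9 := (Int.fract_lt_one u).le
  constructor <;> linarith

lemma fam_pos {δ : ℝ} (hδ : 0 < δ) :
    Fam (g δ) (T δ)⁻¹ {W | ∃ c : ℝ, W = fun t => rot hδ (t + c)} where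
  smooth := by
    rintro W ⟨c, rfl⟩
    exact (rot_smooth hδ).comp (contDiff_id.add contDiff_const)
  deriv := by
    rintro W ⟨c, rfl⟩ t
    exact (rot_deriv hδ (t + c)).comp_add_const t c
  bdd := by
    rintro W ⟨c, rfl⟩
    refine ⟨1 + |(T δ)⁻¹ * c|, fun t => ?_⟩
    have h := rot_bdd hδ (t + c)
    have h2 : rot hδ (t + c) - (T δ)⁻¹ * t = (rot hδ (t + c) - (T δ)⁻¹ * (t + c)) +
        (T δ)⁻¹ * c := by ring
    simp only
    rw [h2]
    exact (abs_add_le _ _).trans (by linarith)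
  shift := by
    rintro W ⟨c, rfl⟩ a l
    refine ⟨a + c + l * T δ, ?_⟩
    funext t
    rw [← rot_add hδ, show t + a + c + l * T δ = t + (a + c + l * T δ) by ring]
  uniq := by
    intro t y
    refine ⟨fun s => rot hδ (s + (Th δ y - t)), ⟨⟨_, rfl⟩, ?_⟩, ?_⟩
    · simp only
      rw [show t + (Th δ y - t) = Th δ y by ring, rot_Th]
    · rintro W ⟨⟨c, rfl⟩, hW⟩
      simp only at hW
      have : t + c = Th δ y := by
        rw [← hW, Th_rot]
      rw [show c = Th δ y - t by linarith]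

theorem exists_fam {s : ℝ} (hs : 0 ≤ s) : ∃ (δ : ℝ) (F : Set (ℝ → ℝ)), Fam (g δ) s F := by
  rcases hs.eq_or_lt with rfl | hs
  · exact ⟨0, F0, fam_zero⟩
  · obtain ⟨δ, hδ, hT⟩ := exists_T hs
    refine ⟨δ, {W | ∃ c : ℝ, W = fun t => rot hδ (t + c)}, ?_⟩
    have := fam_pos hδ
    rw [hT, inv_inv] at this
    exact this

/-- For every `n ≥ 1` and every slope `α` there is a minimal foliation of slope `α` for the
potential `cos (2 π u)`. -/
theorem exists_minimal_foliation {n : ℕ} (hn : 1 ≤ n) (α : Fin n → ℝ) :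
    ∃ F : Set ((Fin n → ℝ) → ℝ),
      (∀ u ∈ F, ContDiff ℝ (⊤ : ℕ∞) u ∧
        (∀ φ : (Fin n → ℝ) → ℝ, ContDiff ℝ (⊤ : ℕ∞) φ → HasCompactSupport φ →
          ∀ R : ℝ, tsupport φ ⊆ Metric.ball (0 : Fin n → ℝ) R →
            ∫ x in Metric.ball (0 : Fin n → ℝ) R,
                ((1 / 2 : ℝ) * ∑ i : Fin n, (fderiv ℝ u x (Pi.single i (1 : ℝ))) ^ 2 - V (u x)) ≤
            ∫ x in Metric.ball (0 : Fin n → ℝ) R,
                ((1 / 2 : ℝ) * ∑ i : Fin n,
                    (fderiv ℝ (fun y => u y + φ y) x (Pi.single i (1 : ℝ))) ^ 2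
                  - V (u x + φ x))) ∧
        (∃ C : ℝ, ∀ x : Fin n → ℝ, |u x - ∑ i : Fin n, α i * x i| ≤ C)) ∧
      (∀ u ∈ F, ∀ k : Fin n → ℤ, ∀ l : ℤ,
        (fun x : Fin n → ℝ => u (x + fun i => (k i : ℝ)) + (l : ℝ)) ∈ F) ∧
      (∀ x : Fin n → ℝ, ∀ y : ℝ, ∃! u : (Fin n → ℝ) → ℝ, u ∈ F ∧ u x = y) := by
  classical
  -- the direction and the modulus of the slope
  obtain ⟨s, e, hs, he, hα⟩ : ∃ (s : ℝ) (e : Fin n → ℝ), 0 ≤ s ∧ ∑ i, e i ^ 2 = 1 ∧
      ∀ i, α i = s * e i := by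
    by_cases h : ∑ i, α i ^ 2 = 0
    · refine ⟨0, Pi.single ⟨0, hn⟩ 1, le_rfl, ?_, ?_⟩
      · rw [Finset.sum_eq_single ⟨0, hn⟩]
        · simp
        · intro b _ hb
          simp [Pi.single_eq_of_ne hb]
        · intro h; exact absurd (Finset.mem_univ _) h
      · intro i
        have := (Finset.sum_eq_zero_iff_of_nonneg (fun i _ => sq_nonneg (α i))).1 h i
          (Finset.mem_univ i)
        rw [zero_mul]
        exact pow_eq_zero_iff (two_ne_zero) |>.1 this
    · have hpos : 0 < ∑ i, α i ^ 2 :=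
        lt_of_le_of_ne (Finset.sum_nonneg fun i _ => sq_nonneg _) (Ne.symm h)
      refine ⟨√(∑ i, α i ^ 2), fun i => α i / √(∑ i, α i ^ 2), Real.sqrt_nonneg _, ?_, ?_⟩
      · simp_rw [div_pow]
        rw [← Finset.sum_div, Real.sq_sqrt hpos.le, div_self h]
      · intro i
        have : √(∑ i, α i ^ 2) ≠ 0 := (Real.sqrt_pos.2 hpos).ne'
        field_simp
  obtain ⟨δ, F1, hF⟩ := exists_fam hs
  have hlin : ∀ x : Fin n → ℝ, ∑ i, α i * x i = s * ∑ i, e i * x i := by
    intro x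
    rw [Finset.mul_sum]
    refine Finset.sum_congr rfl fun i _ => ?_
    rw [hα i]; ring
  refine ⟨{u | ∃ W ∈ F1, u = fun x => W (∑ i, e i * x i)}, ?_, ?_, ?_⟩
  · rintro u ⟨W, hW, rfl⟩
    refine ⟨?_, ?_, ?_⟩
    · exact (hF.smooth W hW).comp (by fun_prop)
    · intro φ hφ hφc R hR
      exact minimal_of_field (g_cont δ) (E := 1 + δ ^ 2 / 2) (g_sq δ) he (hF.smooth W hW)
        (hF.deriv W hW) hφ hφc hR
    · obtain ⟨C, hC⟩ := hF.bdd W hW
      refine ⟨C, fun x => ?_⟩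
      rw [hlin]
      exact hC _
  · rintro u ⟨W, hW, rfl⟩ k l
    refine ⟨_, hF.shift W hW (∑ i, e i * k i) l, ?_⟩
    funext x
    simp only [Pi.add_apply, mul_add, Finset.sum_add_distrib]
  · intro x y
    obtain ⟨W, ⟨hW, hWy⟩, huniq⟩ := hF.uniq (∑ i, e i * x i) y
    refine ⟨fun x => W (∑ i, e i * x i), ⟨⟨W, hW, rfl⟩, hWy⟩, ?_⟩
    rintro u ⟨⟨W', hW', rfl⟩, hy⟩
    have := huniq W' ⟨hW', hy⟩
    rw [this]

end Pool.Agent.helper94.Pendulum
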