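import Pool.Agent.helper95.GMC.Defs

/-!
Module C: existence of the layered (cone) Gaussian field, through an isonormal process.
-/

open MeasureTheory ProbabilityTheory Filter Topology Set
open scoped ENNReal NNReal RealInnerProductSpace

namespace Pool.Agent.helper95.GMC

namespace Iso

/-- `L²` Lipschitz bound of characteristic integrals -/
lemma charInt_lip {Ω : Type*} [MeasurableSpace Ω] {P : Measure Ω} [IsProbabilityMeasure P]
    (t : ℝ) (f g : Lp ℝ 2 P) :
    ‖(∫ ω, Complex.exp (t * (f ω : ℂ) * Complex.I) ∂P) -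
      ∫ ω, Complex.exp (t * (g ω : ℂ) * Complex.I) ∂P‖ ≤ |t| * ‖f - g‖ := by
  have hfm : AEStronglyMeasurable f P := Lp.aestronglyMeasurable f
  have hgm : AEStronglyMeasurable g P := Lp.aestronglyMeasurable g
  have hint : ∀ h : Lp ℝ 2 P, Integrable (fun ω => Complex.exp (t * (h ω : ℂ) * Complex.I)) P := by
    intro h
    have hm : AEStronglyMeasurable h P := Lp.aestronglyMeasurable h
    refine Integrable.of_bound (C := 1) ?_ ?_
    · refine (Complex.continuous_exp.comp_aestronglyMeasurable ?_)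
      refine AEStronglyMeasurable.mul_const ?_ _
      refine AEStronglyMeasurable.const_mul ?_ _
      exact Complex.continuous_ofReal.comp_aestronglyMeasurable hm
    · refine ae_of_all _ fun ω => ?_
      have : (t * (h ω : ℂ) * Complex.I) = ((t * h ω : ℝ) : ℂ) * Complex.I := by push_cast; ring
      rw [this, Complex.norm_exp_ofReal_mul_I]
  rw [← integral_sub (hint f) (hint g)]
  have hpt : ∀ x y : ℝ, ‖Complex.exp (t * (x : ℂ) * Complex.I) -
      Complex.exp (t * (y : ℂ) * Complex.I)‖ ≤ |t| * |x - y| := by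
    intro x y
    have h1 : Complex.exp (t * (x : ℂ) * Complex.I) - Complex.exp (t * (y : ℂ) * Complex.I) =
        Complex.exp (((t * y : ℝ) : ℂ) * Complex.I) *
          (Complex.exp (Complex.I * ((t * (x - y) : ℝ) : ℂ)) - 1) := by
      rw [mul_sub, mul_one, ← Complex.exp_add]
      congr 1
      · congr 1
        push_cast; ring
      · congr 1
        push_cast; ring
    rw [h1, norm_mul, Complex.norm_exp_ofReal_mul_I, one_mul]
    refine (Real.norm_exp_I_mul_ofReal_sub_one_le).trans ?_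
    rw [Real.norm_eq_abs, abs_mul]
  calc ‖∫ ω, (Complex.exp (t * (f ω : ℂ) * Complex.I) -
        Complex.exp (t * (g ω : ℂ) * Complex.I)) ∂P‖
      ≤ ∫ ω, ‖Complex.exp (t * (f ω : ℂ) * Complex.I) -
        Complex.exp (t * (g ω : ℂ) * Complex.I)‖ ∂P := norm_integral_le_integral_norm _
    _ ≤ ∫ ω, |t| * ‖(f - g : Lp ℝ 2 P) ω‖ ∂P := by
        refine integral_mono_ae ((hint f).sub (hint g)).norm ?_ ?_
        · refine Integrable.const_mul ?_ _
          exact ((Lp.memLp (f - g)).integrable (by norm_num)).norm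
        · filter_upwards [Lp.coeFn_sub f g] with ω hω
          rw [hω]
          simpa using hpt (f ω) (g ω)
    _ = |t| * ∫ ω, ‖(f - g : Lp ℝ 2 P) ω‖ ∂P := integral_const_mul _ _
    _ ≤ |t| * ‖f - g‖ := by
        refine mul_le_mul_of_nonneg_left ?_ (abs_nonneg _)
        have h2 : MemLp (f - g : Lp ℝ 2 P) 2 P := Lp.memLp (f - g)
        have h1 : MemLp (f - g : Lp ℝ 2 P) 1 P := h2.mono_exponent (by norm_num)
        have h3 : eLpNorm (f - g : Lp ℝ 2 P) 1 P ≤ eLpNorm (f - g : Lp ℝ 2 P) 2 P :=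
          eLpNorm_le_eLpNorm_of_exponent_le (by norm_num) h2.1
        rw [Lp.norm_def]
        have h4 : ∫ ω, ‖(f - g : Lp ℝ 2 P) ω‖ ∂P = (eLpNorm (f - g : Lp ℝ 2 P) 1 P).toReal := by
          rw [integral_norm_eq_lintegral_enorm h2.1, eLpNorm_one_eq_lintegral_enorm]
        rw [h4]
        exact ENNReal.toReal_mono h2.2.ne h3

/-- a.e. representation of finite linear combinations in `Lp` -/
lemma coeFn_sum_smul {Ω : Type*} [MeasurableSpace Ω] {P : Measure Ω} {ι : Type*}
    (s : Finset ι) (c : ι → ℝ) (f : ι → Lp ℝ 2 P) :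
    ((∑ i ∈ s, c i • f i : Lp ℝ 2 P) : Ω → ℝ) =ᵐ[P] fun ω => ∑ i ∈ s, c i * f i ω := by
  classical
  induction s using Finset.induction_on with
  | empty =>
    simp only [Finset.sum_empty]
    exact Lp.coeFn_zero _ _ _
  | insert a s ha ih =>
    rw [Finset.sum_insert ha]
    filter_upwards [Lp.coeFn_add (c a • f a) (∑ i ∈ s, c i • f i), ih, Lp.coeFn_smul (c a) (f a)]
      with ω h1 h2 h3
    rw [h1, Pi.add_apply, h2, h3, Finset.sum_insert ha, Pi.smul_apply, smul_eq_mul]

/-- the standard Gaussian coordinates -/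
noncomputable def GP (w : Type) : Measure (w → ℝ) := Measure.infinitePi (fun _ => gaussianReal 0 1)

instance (w : Type) : IsProbabilityMeasure (GP w) := by
  unfold GP; infer_instance

lemma map_eval_GP {w : Type} (i : w) : (GP w).map (fun ω : w → ℝ => ω i) = gaussianReal 0 1 :=
  Measure.infinitePi_map_eval _ i

lemma memLp_eval {w : Type} (i : w) : MemLp (fun ω : w → ℝ => ω i) 2 (GP w) := by
  have h : MemLp (id : ℝ → ℝ) 2 ((GP w).map (fun ω : w → ℝ => ω i)) := by
    rw [map_eval_GP]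
    exact memLp_id_gaussianReal 2
  exact h.comp_of_map (measurable_pi_apply i).aemeasurable

lemma hasGaussianLaw_eval {w : Type} (i : w) :
    HasGaussianLaw (fun ω : w → ℝ => ω i) (GP w) := by
  constructor
  rw [map_eval_GP]
  infer_instance

lemma iIndep_eval {w : Type} : iIndepFun (fun (i : w) (ω : w → ℝ) => ω i) (GP w) :=
  iIndepFun_infinitePi (X := fun _ x => x) (fun _ => measurable_id)

/-- coordinates as elements of `L²` -/
noncomputable def xi {w : Type} (i : w) : Lp ℝ 2 (GP w) := (memLp_eval i).toLp _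

lemma coeFn_xi {w : Type} (i : w) : (xi i : (w → ℝ) → ℝ) =ᵐ[GP w] fun ω => ω i :=
  (memLp_eval i).coeFn_toLp

lemma integral_eval {w : Type} (i : w) : ∫ ω, ω i ∂(GP w) = 0 := by
  have h : ∫ x, x ∂((GP w).map (fun ω : w → ℝ => ω i)) = ∫ ω, ω i ∂(GP w) := by
    rw [integral_map (measurable_pi_apply i).aemeasurable (by fun_prop)]
  rw [← h, map_eval_GP, integral_id_gaussianReal]

lemma orthonormal_xi {w : Type} : Orthonormal ℝ (xi : w → Lp ℝ 2 (GP w)) := by
  classical
  rw [orthonormal_iff_ite]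
  intro i j
  have h0 : ⟪xi i, xi j⟫ = ∫ ω, ω i * ω j ∂(GP w) := by
    rw [L2.inner_def]
    refine integral_congr_ae ?_
    filter_upwards [coeFn_xi i, coeFn_xi j] with ω h1 h2
    rw [h1, h2]
    simp [mul_comm]
  rw [h0]
  split_ifs with hij
  · subst hij
    have h := variance_id_gaussianReal (μ := 0) (v := 1)
    rw [← map_eval_GP i, variance_map aemeasurable_id (measurable_pi_apply i).aemeasurable] at h
    rw [variance_eq_integral (measurable_pi_apply i).aemeasurable] at h
    simp only [Function.comp_def, id, integral_eval, sub_zero] at h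
    simpa [sq] using h
  · have h := (iIndep_eval (w := w)).indepFun hij
    have h2 := h.integral_mul_eq_mul_integral (measurable_pi_apply i).aestronglyMeasurable
      (measurable_pi_apply j).aestronglyMeasurable
    simp only [Pi.mul_apply] at h2
    rw [h2]
    simp [integral_eval]

/-- a finite combination of coordinates is Gaussian -/
lemma hasGaussianLaw_sum {w : Type} (s : Finset w) (c : w → ℝ) :
    HasGaussianLaw (fun ω : w → ℝ => ∑ i ∈ s, c i * ω i) (GP w) := by
  classical
  have h1 : iIndepFun (fun (i : s) (ω : w → ℝ) => ω i) (GP w) :=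
    (iIndep_eval (w := w)).precomp Subtype.val_injective
  have h2 := iIndepFun.hasGaussianLaw (X := fun (i : s) (ω : w → ℝ) => ω i)
    (fun i : s => hasGaussianLaw_eval (i : w)) h1
  have h3 := h2.map (∑ i : s, (c i) • (ContinuousLinearMap.proj i : (s → ℝ) →L[ℝ] ℝ))
  refine h3.congr (ae_of_all _ fun ω => ?_)
  simp only [Function.comp_apply, FunLike.coe_sum, Finset.sum_apply,
    FunLike.coe_smul, Pi.smul_apply, ContinuousLinearMap.proj_apply, smul_eq_mul]
  rw [← Finset.sum_coe_sort s (fun i => c i * ω i)]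

lemma norm_sq_eq {Ω : Type*} [MeasurableSpace Ω] {P : Measure Ω} (f : Lp ℝ 2 P) :
    ‖f‖ ^ 2 = ∫ ω, f ω ^ 2 ∂P := by
  rw [← real_inner_self_eq_norm_sq, L2.inner_def]
  refine integral_congr_ae (ae_of_all _ fun ω => ?_)
  simp [sq]

lemma charInt_of_gauss {Ω : Type*} [MeasurableSpace Ω] {P : Measure Ω} [IsProbabilityMeasure P]
    (f : Lp ℝ 2 P) (hf : HasGaussianLaw f P) (hm : ∫ ω, f ω ∂P = 0) (t : ℝ) :
    ∫ ω, Complex.exp (t * (f ω : ℂ) * Complex.I) ∂P =
      Complex.exp (-(((‖f‖ ^ 2 * t ^ 2 / 2 : ℝ)) : ℂ)) := by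
  have hfm : AEMeasurable f P := hf.aemeasurable
  have h1 : ∫ ω, Complex.exp (t * (f ω : ℂ) * Complex.I) ∂P = charFun (P.map f) t := by
    rw [charFun_apply_real, integral_map hfm (by fun_prop)]
  have hv : Var[f; P] = ‖f‖ ^ 2 := by
    rw [variance_eq_integral hfm, norm_sq_eq]
    rw [hm]
    simp
  rw [h1, hf.map_eq_gaussianReal, charFun_gaussianReal, hm, hv]
  congr 1
  rw [Real.coe_toNNReal _ (by positivity)]
  push_cast
  ring

/-- isonormal Gaussian process over a real Hilbert space -/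
theorem exists_isonormal (H : Type) [NormedAddCommGroup H] [InnerProductSpace ℝ H]
    [CompleteSpace H] : ∃ (w : Type) (T : H →ₗᵢ[ℝ] Lp ℝ 2 (GP w)),
      ∀ h, (GP w).map (T h) = gaussianReal 0 (‖h‖₊ ^ 2) := by
  classical
  obtain ⟨w, b, -⟩ := exists_hilbertBasis ℝ H
  set V := (orthonormal_xi (w := w)).orthogonalFamily with hV
  set T : H →ₗᵢ[ℝ] Lp ℝ 2 (GP w) := V.linearIsometry.comp b.repr.toLinearIsometry with hT
  have hTb : ∀ i, T (b i) = xi i := by
    intro i
    simp only [hT, LinearIsometry.coe_comp, Function.comp_apply,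
      LinearIsometryEquiv.coe_toLinearIsometry]
    rw [b.repr_self]
    rw [V.linearIsometry_apply_single]
    simp
  have hspan : ∀ h ∈ Submodule.span ℝ (Set.range b), ∀ t : ℝ,
      ∫ ω, Complex.exp (t * (T h ω : ℂ) * Complex.I) ∂(GP w) =
        Complex.exp (-(((‖T h‖ ^ 2 * t ^ 2 / 2 : ℝ)) : ℂ)) := by
    intro h hh t
    obtain ⟨c, rfl⟩ := Finsupp.mem_span_range_iff_exists_finsupp.1 hh
    have h1 : T (c.sum fun i a => a • b i) = ∑ i ∈ c.support, c i • xi i := by
      rw [Finsupp.sum, map_sum]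
      refine Finset.sum_congr rfl fun i _ => ?_
      rw [map_smul, hTb]
    have h2 : (T (c.sum fun i a => a • b i) : (w → ℝ) → ℝ) =ᵐ[GP w]
        fun ω => ∑ i ∈ c.support, c i * ω i := by
      rw [h1]
      have h3 := coeFn_sum_smul (P := GP w) c.support c xi
      have h4 : ∀ᵐ ω ∂(GP w), ∀ i ∈ c.support, (xi i : (w → ℝ) → ℝ) ω = ω i := by
        rw [Finset.eventually_all]
        intro i _
        exact coeFn_xi i
      filter_upwards [h3, h4] with ω h5 h6
      rw [h5]
      exact Finset.sum_congr rfl fun i hi => by rw [h6 i hi]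
    refine charInt_of_gauss _ ((hasGaussianLaw_sum c.support c).congr h2.symm) ?_ t
    rw [integral_congr_ae h2, integral_finsetSum]
    · refine Finset.sum_eq_zero fun i _ => ?_
      rw [integral_const_mul, integral_eval, mul_zero]
    · intro i _
      exact ((memLp_eval i).integrable (by norm_num)).const_mul _
  have hall : ∀ (h : H) (t : ℝ), ∫ ω, Complex.exp (t * (T h ω : ℂ) * Complex.I) ∂(GP w) =
        Complex.exp (-(((‖T h‖ ^ 2 * t ^ 2 / 2 : ℝ)) : ℂ)) := by
    intro h t
    have hc1 : Continuous fun f : Lp ℝ 2 (GP w) =>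
        ∫ ω, Complex.exp (t * (f ω : ℂ) * Complex.I) ∂(GP w) := by
      refine LipschitzWith.continuous (K := ⟨|t|, abs_nonneg t⟩) ?_
      refine LipschitzWith.of_dist_le_mul fun f g => ?_
      rw [dist_eq_norm, dist_eq_norm]
      exact charInt_lip t f g
    have hcl : IsClosed {h : H | ∫ ω, Complex.exp (t * (T h ω : ℂ) * Complex.I) ∂(GP w) =
        Complex.exp (-(((‖T h‖ ^ 2 * t ^ 2 / 2 : ℝ)) : ℂ))} := by
      refine isClosed_eq ?_ ?_
      · exact hc1.comp T.continuous
      · have := T.continuous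
        fun_prop
    have hd : Dense (Submodule.span ℝ (Set.range b) : Set H) := by
      exact Submodule.dense_iff_topologicalClosure_eq_top.2 b.dense_span
    have hmem : h ∈ closure (Submodule.span ℝ (Set.range b) : Set H) := hd h
    exact closure_minimal (fun x hx => hspan x hx t) hcl hmem
  refine ⟨w, T, fun h => ?_⟩
  have hm : AEMeasurable (T h) (GP w) := (Lp.aestronglyMeasurable (T h)).aemeasurable
  refine Measure.ext_of_charFun ?_
  ext t
  rw [charFun_apply_real, integral_map hm (by fun_prop), hall h t, charFun_gaussianReal]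
  congr 1
  rw [T.norm_map]
  push_cast
  simp

/-- Gaussian process extracted from an isonormal process -/
lemma isGaussianProcess_iso {w H : Type} [NormedAddCommGroup H] [InnerProductSpace ℝ H]
    (T : H →ₗᵢ[ℝ] Lp ℝ 2 (GP w)) (hT : ∀ h, (GP w).map (T h) = gaussianReal 0 (‖h‖₊ ^ 2))
    {ι : Type*} (h : ι → H) :
    IsGaussianProcess (fun (i : ι) (ω : w → ℝ) => (T (h i) : (w → ℝ) → ℝ) ω) (GP w) := by
  classical
  refine ⟨fun I => ⟨isGaussian_of_map_eq_gaussianReal fun L => ?_⟩⟩
  set F : (w → ℝ) → (I → ℝ) := fun ω => I.restrict (fun i => (T (h i) : (w → ℝ) → ℝ) ω) with hF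
  have hFm : Measurable F := by
    refine measurable_pi_lambda _ fun i => ?_
    exact (Lp.stronglyMeasurable (T (h i))).measurable
  refine ⟨0, ‖∑ i : I, L (Pi.single i 1) • h i‖₊ ^ 2, ?_⟩
  rw [Measure.map_map (by fun_prop) hFm, ← hT]
  refine Measure.map_congr ?_
  have h1 : T (∑ i : I, L (Pi.single i 1) • h i) = ∑ i : I, L (Pi.single i 1) • T (h i) := by
    rw [map_sum]
    refine Finset.sum_congr rfl fun i _ => ?_
    rw [map_smul]
  rw [h1]
  filter_upwards [coeFn_sum_smul (P := GP w) Finset.univ (fun i : I => L (Pi.single i 1))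
    (fun i : I => T (h i))] with ω h2
  rw [h2]
  have h3 : F ω = ∑ i : I, (F ω i) • (Pi.single i (1 : ℝ) : I → ℝ) := by
    ext j
    simp [Finset.sum_apply, Pi.single_apply]
  rw [Function.comp_apply, h3, map_sum]
  refine Finset.sum_congr rfl fun i _ => ?_
  rw [map_smul, smul_eq_mul, mul_comm]
  rfl

lemma integral_iso {w H : Type} [NormedAddCommGroup H] [InnerProductSpace ℝ H]
    (T : H →ₗᵢ[ℝ] Lp ℝ 2 (GP w)) (hT : ∀ h, (GP w).map (T h) = gaussianReal 0 (‖h‖₊ ^ 2))
    (h : H) : ∫ ω, T h ω ∂(GP w) = 0 := by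
  have hm : AEMeasurable (T h) (GP w) := (Lp.aestronglyMeasurable (T h)).aemeasurable
  have h1 : ∫ x, x ∂((GP w).map (T h)) = ∫ ω, T h ω ∂(GP w) := by
    rw [integral_map hm (by fun_prop)]
  rw [← h1, hT, integral_id_gaussianReal]

lemma cov_iso {w H : Type} [NormedAddCommGroup H] [InnerProductSpace ℝ H]
    (T : H →ₗᵢ[ℝ] Lp ℝ 2 (GP w)) (hT : ∀ h, (GP w).map (T h) = gaussianReal 0 (‖h‖₊ ^ 2))
    (h g : H) : cov[T h, T g; GP w] = ⟪h, g⟫ := by
  rw [covariance_eq_sub (Lp.memLp (T h)) (Lp.memLp (T g)), integral_iso T hT h,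
    integral_iso T hT g, ← T.inner_map_map h g, L2.inner_def]
  simp only [mul_zero, sub_zero]
  refine integral_congr_ae (ae_of_all _ fun ω => ?_)
  simp [mul_comm]

end Iso

namespace Cone

/-- left end of the range of scales of layer `k` -/
noncomputable def lo : ℕ → ℝ
  | 0 => 0
  | (k + 1) => 2 ^ k

/-- the cone of layer `k` at `x` -/
def cone (k : ℕ) (x : ℝ) : Set (ℝ × ℝ) :=
  {p | p.1 ∈ Ioc (lo k) (2 ^ k) ∧ p.2 ∈ Icc x (x + (max p.1 1)⁻¹)}

lemma measurableSet_cone (k : ℕ) (x : ℝ) : MeasurableSet (cone k x) := by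
  have h1 : MeasurableSet {p : ℝ × ℝ | p.1 ∈ Ioc (lo k) (2 ^ k)} :=
    measurable_fst measurableSet_Ioc
  have h2 : MeasurableSet {p : ℝ × ℝ | x ≤ p.2} := measurableSet_le (by fun_prop) (by fun_prop)
  have h3 : MeasurableSet {p : ℝ × ℝ | p.2 ≤ x + (max p.1 1)⁻¹} :=
    measurableSet_le (by fun_prop) (by fun_prop)
  have h : cone k x = {p : ℝ × ℝ | p.1 ∈ Ioc (lo k) (2 ^ k)} ∩
      ({p : ℝ × ℝ | x ≤ p.2} ∩ {p : ℝ × ℝ | p.2 ≤ x + (max p.1 1)⁻¹}) := by
    ext p
    simp only [cone, mem_ofPred_eq, mem_inter_iff, mem_Icc]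
  rw [h]
  exact h1.inter (h2.inter h3)

lemma volume_cone_inter (k : ℕ) (x y : ℝ) :
    volume (cone k x ∩ cone k y) =
      ∫⁻ u in Ioc (lo k) (2 ^ k), ENNReal.ofReal ((max u 1)⁻¹ - |x - y|) := by
  rw [Measure.volume_eq_prod,
    Measure.prod_apply ((measurableSet_cone k x).inter (measurableSet_cone k y)),
    ← lintegral_indicator measurableSet_Ioc]
  refine lintegral_congr fun u => ?_
  by_cases hu : u ∈ Ioc (lo k) (2 ^ k)
  · rw [indicator_of_mem hu]
    have : Prod.mk u ⁻¹' (cone k x ∩ cone k y) =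
        Icc (max x y) (min (x + (max u 1)⁻¹) (y + (max u 1)⁻¹)) := by
      ext v
      simp only [cone, mem_preimage, mem_inter_iff, mem_ofPred_eq, mem_Icc, max_le_iff, le_min_iff]
      tauto
    rw [this, Real.volume_Icc]
    congr 1
    rcases le_total x y with hxy | hxy
    · rw [max_eq_right hxy, min_eq_left (by linarith), abs_of_nonpos (by linarith)]
      ring
    · rw [max_eq_left hxy, min_eq_right (by linarith), abs_of_nonneg (by linarith)]
      ring
  · rw [indicator_of_notMem hu]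
    have : Prod.mk u ⁻¹' (cone k x ∩ cone k y) = ∅ := by
      ext v
      simp only [cone, mem_preimage, mem_inter_iff, mem_ofPred_eq, mem_empty_iff_false, iff_false]
      tauto
    rw [this, measure_empty]

lemma cone_inter_ne {i j : ℕ} (hij : i ≠ j) (x y : ℝ) : cone i x ∩ cone j y = ∅ := by
  have key : ∀ {i j : ℕ}, i < j → (2 : ℝ) ^ i ≤ lo j := by
    intro i j hij
    obtain ⟨m, rfl⟩ : ∃ m, j = m + 1 := ⟨j - 1, by omega⟩
    exact pow_le_pow_right₀ (by norm_num) (by omega)
  ext p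
  simp only [cone, mem_inter_iff, mem_ofPred_eq, mem_Ioc, mem_empty_iff_false, iff_false]
  rintro ⟨⟨⟨h1, h2⟩, -⟩, ⟨⟨h3, h4⟩, -⟩⟩
  rcases lt_or_gt_of_ne hij with h | h
  · have := key h
    linarith
  · have := key h
    linarith

/-- real integral form -/
lemma real_cone_inter (k : ℕ) (x y : ℝ) :
    (volume : Measure (ℝ × ℝ)).real (cone k x ∩ cone k y) =
      ∫ u in (lo k)..(2 ^ k), max ((max u 1)⁻¹ - |x - y|) 0 := by
  have hlo : lo k ≤ 2 ^ k := by
    cases k with
    | zero => simp [lo]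
    | succ k => exact pow_le_pow_right₀ (by norm_num) (by omega)
  rw [intervalIntegral.integral_of_le hlo, integral_eq_lintegral_of_nonneg_ae]
  · rw [Measure.real, volume_cone_inter]
    congr 1
    refine lintegral_congr fun u => ?_
    rw [ENNReal.ofReal_max, ENNReal.ofReal_zero, max_eq_left zero_le]
  · exact ae_of_all _ fun u => le_max_right _ _
  · fun_prop

lemma intervalIntegrable_inv_sub {a b z : ℝ} (ha : 0 < a) (hab : a ≤ b) :
    IntervalIntegrable (fun u : ℝ => u⁻¹) volume a b ∧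
      IntervalIntegrable (fun _ : ℝ => z) volume a b := by
  refine ⟨?_, intervalIntegrable_const⟩
  refine intervalIntegral.intervalIntegrable_inv (fun u hu => ?_) continuousOn_id
  rw [uIcc_of_le hab] at hu
  exact (ha.trans_le hu.1).ne'

lemma intervalIntegrable_max {a b z : ℝ} (ha : 0 < a) (hab : a ≤ b) :
    IntervalIntegrable (fun u : ℝ => max (u⁻¹ - z) 0) volume a b := by
  refine ContinuousOn.intervalIntegrable ?_
  refine ContinuousOn.sup ?_ continuousOn_const
  refine ContinuousOn.sub (continuousOn_inv₀.mono fun u hu => ?_) continuousOn_const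
  rw [uIcc_of_le hab] at hu
  exact (ha.trans_le hu.1).ne'

lemma int_case1 {a b z : ℝ} (ha : 0 < a) (hab : a ≤ b) (hz : b * z ≤ 1) :
    ∫ u in a..b, max (u⁻¹ - z) 0 = Real.log (b / a) - z * (b - a) := by
  have hb : 0 < b := ha.trans_le hab
  have h1 : ∫ u in a..b, max (u⁻¹ - z) 0 = ∫ u in a..b, (u⁻¹ - z) := by
    refine intervalIntegral.integral_congr fun u hu => ?_
    rw [uIcc_of_le hab] at hu
    have hu0 : 0 < u := ha.trans_le hu.1
    refine max_eq_left ?_
    have h2 : z ≤ b⁻¹ := by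
      rw [← one_div, le_div_iff₀ hb]
      linarith
    have h3 : b⁻¹ ≤ u⁻¹ := inv_anti₀ hu0 hu.2
    linarith
  rw [h1, intervalIntegral.integral_sub (intervalIntegrable_inv_sub (z := z) ha hab).1
    (intervalIntegrable_inv_sub ha hab).2, integral_inv_of_pos ha hb,
    intervalIntegral.integral_const, smul_eq_mul]
  ring

lemma int_case3 {a b z : ℝ} (ha : 0 < a) (hab : a ≤ b) (hz : 1 ≤ a * z) :
    ∫ u in a..b, max (u⁻¹ - z) 0 = 0 := by
  have h1 : ∫ u in a..b, max (u⁻¹ - z) 0 = ∫ u in a..b, (0 : ℝ) := by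
    refine intervalIntegral.integral_congr fun u hu => ?_
    rw [uIcc_of_le hab] at hu
    have hu0 : 0 < u := ha.trans_le hu.1
    refine max_eq_right ?_
    have h2 : a⁻¹ ≤ z := by
      rw [← one_div, div_le_iff₀ ha]
      linarith
    have h3 : u⁻¹ ≤ a⁻¹ := inv_anti₀ ha hu.1
    linarith
  rw [h1, intervalIntegral.integral_zero]

lemma int_case2 {a b z : ℝ} (ha : 0 < a) (hz0 : 0 < z) (haz : a * z ≤ 1)
    (hbz : 1 ≤ b * z) :
    ∫ u in a..b, max (u⁻¹ - z) 0 = - Real.log z - Real.log a - 1 + a * z := by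
  have h1 : a ≤ z⁻¹ := by
    rw [← one_div, le_div_iff₀ hz0]
    exact haz
  have h2 : z⁻¹ ≤ b := by
    rw [← one_div, div_le_iff₀ hz0]
    exact hbz
  have hz1 : z⁻¹ * z = 1 := inv_mul_cancel₀ hz0.ne'
  rw [← intervalIntegral.integral_add_adjacent_intervals (intervalIntegrable_max ha h1)
    (intervalIntegrable_max (inv_pos.2 hz0) h2), int_case1 ha h1 hz1.le,
    int_case3 (inv_pos.2 hz0) h2 hz1.ge, Real.log_div (inv_pos.2 hz0).ne' ha.ne', Real.log_inv]
  have : z * (z⁻¹ - a) = 1 - a * z := by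
    rw [mul_sub, mul_inv_cancel₀ hz0.ne']
    ring
  rw [this]
  ring

lemma real_cone_inter_eq (k : ℕ) (x y : ℝ) :
    (volume : Measure (ℝ × ℝ)).real (cone k x ∩ cone k y) = kap k (x - y) := by
  rw [real_cone_inter]
  set z := |x - y| with hz
  have hz0 : 0 ≤ z := abs_nonneg _
  cases k with
  | zero =>
    have h1 : ∫ u in (lo 0)..(2 ^ 0), max ((max u 1)⁻¹ - z) 0 = max (1 - z) 0 := by
      have h2 : ∫ u in (lo 0)..(2 ^ 0), max ((max u 1)⁻¹ - z) 0 =
          ∫ u in (0 : ℝ)..1, max (1 - z) 0 := by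
        simp only [lo, pow_zero]
        refine intervalIntegral.integral_congr fun u hu => ?_
        rw [uIcc_of_le zero_le_one] at hu
        simp only [max_eq_right hu.2, inv_one]
      rw [h2, intervalIntegral.integral_const]
      simp
    rw [h1]
    simp only [kap, K, ← hz, pow_zero, inv_one, CharP.cast_eq_zero, zero_mul, add_zero, one_mul]
    split_ifs with h3
    · exact max_eq_left (by linarith)
    · exact max_eq_right (by linarith)
  | succ k =>
    have hp : (0 : ℝ) < 2 ^ k := by positivity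
    have hp1 : (1 : ℝ) ≤ 2 ^ k := one_le_pow₀ (by norm_num)
    have hle : (2 : ℝ) ^ k ≤ 2 ^ (k + 1) := pow_le_pow_right₀ (by norm_num) (by omega)
    have hp' : (0 : ℝ) < 2 ^ (k + 1) := by positivity
    have h1 : ∫ u in (lo (k + 1))..(2 ^ (k + 1)), max ((max u 1)⁻¹ - z) 0 =
        ∫ u in (2 ^ k : ℝ)..(2 ^ (k + 1)), max (u⁻¹ - z) 0 := by
      simp only [lo]
      refine intervalIntegral.integral_congr fun u hu => ?_
      rw [uIcc_of_le hle] at hu
      simp only [max_eq_left (hp1.trans hu.1)]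
    rw [h1]
    simp only [kap, K, ← hz]
    by_cases hA : z ≤ (2 ^ (k + 1))⁻¹
    · have hB : z ≤ (2 ^ k)⁻¹ := hA.trans (inv_anti₀ hp hle)
      have hA' : 2 ^ (k + 1) * z ≤ 1 := by
        have := mul_le_mul_of_nonneg_left hA hp'.le
        rwa [mul_inv_cancel₀ hp'.ne'] at this
      rw [if_pos hA, if_pos hB, int_case1 hp hle hA']
      have : (2 : ℝ) ^ (k + 1) / 2 ^ k = 2 := by
        rw [pow_succ]
        field_simp
      rw [this]
      push_cast
      ring
    · rw [if_neg hA]
      have hA1 : (2 ^ (k + 1))⁻¹ < z := not_le.1 hA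
      have hzpos : 0 < z := (inv_pos.2 hp').trans hA1
      have hA' : 1 ≤ 2 ^ (k + 1) * z := by
        have := mul_le_mul_of_nonneg_left hA1.le hp'.le
        rwa [mul_inv_cancel₀ hp'.ne'] at this
      by_cases hB : z ≤ (2 ^ k)⁻¹
      · have hB' : 2 ^ k * z ≤ 1 := by
          have := mul_le_mul_of_nonneg_left hB hp.le
          rwa [mul_inv_cancel₀ hp.ne'] at this
        have hz1 : z ≤ 1 := hB.trans (inv_le_one_of_one_le₀ hp1)
        rw [if_pos hB, if_pos hz1, int_case2 hp hzpos hB' hA', Real.log_pow]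
        ring
      · rw [if_neg hB]
        have hB1 : (2 ^ k)⁻¹ < z := not_le.1 hB
        have hB' : 1 ≤ 2 ^ k * z := by
          have := mul_le_mul_of_nonneg_left hB1.le hp.le
          rwa [mul_inv_cancel₀ hp.ne'] at this
        rw [int_case3 hp hle hB', sub_self]

lemma volume_cone_ne_top (k : ℕ) (x : ℝ) : volume (cone k x) ≠ ∞ := by
  have hsub : cone k x ⊆ Icc (lo k) (2 ^ k) ×ˢ Icc x (x + 1) := by
    rintro p ⟨h1, h2⟩
    refine ⟨⟨h1.1.le, h1.2⟩, ⟨h2.1, h2.2.trans ?_⟩⟩
    have : (max p.1 1)⁻¹ ≤ 1 := inv_le_one_of_one_le₀ (le_max_right _ _)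
    linarith
  refine ((measure_mono hsub).trans_lt ?_).ne
  exact (isCompact_Icc.prod isCompact_Icc).measure_lt_top

end Cone

theorem exists_coneField : ∃ (Ω : Type) (_ : MeasurableSpace Ω) (P : Measure Ω)
    (Z : ℕ → ℝ → Ω → ℝ), IsProbabilityMeasure P ∧ ConeField P Z := by
  obtain ⟨w, T, hT⟩ := Iso.exists_isonormal (Lp ℝ 2 (volume : Measure (ℝ × ℝ)))
  set h : ℕ × ℝ → Lp ℝ 2 (volume : Measure (ℝ × ℝ)) := fun p =>
    indicatorConstLp 2 (Cone.measurableSet_cone p.1 p.2) (Cone.volume_cone_ne_top p.1 p.2) (1 : ℝ)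
    with hh
  refine ⟨w → ℝ, inferInstance, Iso.GP w, fun i x => (T (h (i, x)) : (w → ℝ) → ℝ),
    inferInstance, ?_⟩
  refine ⟨fun i x => (Lp.stronglyMeasurable (T (h (i, x)))).measurable, ?_, ?_, ?_⟩
  · exact Iso.isGaussianProcess_iso T hT h
  · intro i x
    exact Iso.integral_iso T hT _
  · intro i j x y
    rw [Iso.cov_iso T hT, hh, L2.real_inner_indicatorConstLp_one_indicatorConstLp_one
      (Cone.measurableSet_cone i x) (Cone.measurableSet_cone j y)
      (Cone.volume_cone_ne_top i x) (Cone.volume_cone_ne_top j y)]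
    split_ifs with hij
    · subst hij
      exact Cone.real_cone_inter_eq i x y
    · rw [Cone.cone_inter_ne hij, measureReal_empty]

end Pool.Agent.helper95.GMC
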