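import Mathlib

/-!
Modules L, S, F for MP_d68443_pr: Lindeberg bound for characteristic functions, Fubini for
squares, Lévy continuity theorem without a given limit.
-/

open MeasureTheory ProbabilityTheory Filter Topology Set
open scoped ENNReal NNReal

namespace Pool.Agent.helper95.GMC

/-! ## Module S -/

theorem sq_integral_swap {Ω : Type*} [MeasurableSpace Ω] (P : Measure Ω)
    [IsProbabilityMeasure P] (ν : Measure ℝ) [IsFiniteMeasure ν] (Φ : ℝ → Ω → ℝ)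
    (hΦ : Measurable fun q : ℝ × Ω => Φ q.1 q.2)
    (hint : Integrable (fun q : ℝ × Ω => Φ q.1 q.2 ^ 2) (ν.prod P)) :
    Integrable (fun ω => (∫ x, Φ x ω ∂ν) ^ 2) P ∧
    Integrable (fun q : ℝ × ℝ => ∫ ω, Φ q.1 ω * Φ q.2 ω ∂P) (ν.prod ν) ∧
    ∫ ω, (∫ x, Φ x ω ∂ν) ^ 2 ∂P = ∫ q : ℝ × ℝ, (∫ ω, Φ q.1 ω * Φ q.2 ω ∂P) ∂(ν.prod ν) := by
  -- the triple function
  set G : (ℝ × ℝ) × Ω → ℝ := fun r => Φ r.1.1 r.2 * Φ r.1.2 r.2 with hG
  have hGm : Measurable G := by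
    refine Measurable.mul ?_ ?_
    · exact hΦ.comp (measurable_fst.fst.prodMk measurable_snd)
    · exact hΦ.comp (measurable_fst.snd.prodMk measurable_snd)
  have h1 : Integrable (fun r : (ℝ × ℝ) × Ω => Φ r.1.1 r.2 ^ 2) ((ν.prod ν).prod P) := by
    have hm : Measurable (fun r : (ℝ × ℝ) × Ω => Φ r.1.1 r.2 ^ 2) :=
      (hΦ.comp (measurable_fst.fst.prodMk measurable_snd)).pow_const 2
    refine ⟨hm.aestronglyMeasurable, ?_⟩
    have hlt := hint.2
    rw [HasFiniteIntegral] at hlt ⊢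
    rw [lintegral_prod _ (by fun_prop)] at hlt
    rw [lintegral_prod _ (by fun_prop), lintegral_prod _ (by
      exact (Measurable.lintegral_prod_right' (f := fun r : (ℝ × ℝ) × Ω => ‖Φ r.1.1 r.2 ^ 2‖ₑ)
        (by fun_prop)).aemeasurable)]
    simp only [lintegral_const]
    rw [lintegral_mul_const']
    · exact ENNReal.mul_lt_top hlt (measure_lt_top _ _)
    · exact measure_ne_top _ _
  have h2 : Integrable (fun r : (ℝ × ℝ) × Ω => Φ r.1.2 r.2 ^ 2) ((ν.prod ν).prod P) := by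
    have hm : Measurable (fun r : (ℝ × ℝ) × Ω => Φ r.1.2 r.2 ^ 2) :=
      (hΦ.comp (measurable_fst.snd.prodMk measurable_snd)).pow_const 2
    refine ⟨hm.aestronglyMeasurable, ?_⟩
    have hlt := hint.2
    rw [HasFiniteIntegral] at hlt ⊢
    rw [lintegral_prod _ (by fun_prop)] at hlt
    rw [lintegral_prod _ (by fun_prop), lintegral_prod _ (by
      exact (Measurable.lintegral_prod_right' (f := fun r : (ℝ × ℝ) × Ω => ‖Φ r.1.2 r.2 ^ 2‖ₑ)
        (by fun_prop)).aemeasurable)]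
    simp only [lintegral_const]
    exact ENNReal.mul_lt_top hlt (measure_lt_top _ _)
  have hGi : Integrable G ((ν.prod ν).prod P) := by
    refine (h1.add h2).mono' hGm.aestronglyMeasurable (ae_of_all _ fun r => ?_)
    simp only [hG, Pi.add_apply, Real.norm_eq_abs, abs_mul]
    nlinarith [sq_nonneg (|Φ r.1.1 r.2| - |Φ r.1.2 r.2|), sq_abs (Φ r.1.1 r.2),
      sq_abs (Φ r.1.2 r.2), abs_nonneg (Φ r.1.1 r.2), abs_nonneg (Φ r.1.2 r.2)]
  have hsq : ∀ ω, (∫ x, Φ x ω ∂ν) ^ 2 = ∫ q : ℝ × ℝ, Φ q.1 ω * Φ q.2 ω ∂(ν.prod ν) := by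
    intro ω
    rw [integral_prod_mul (fun x => Φ x ω) (fun x => Φ x ω), sq]
  refine ⟨?_, hGi.integral_prod_left, ?_⟩
  · simp_rw [hsq]
    exact hGi.integral_prod_right
  · simp_rw [hsq]
    exact integral_integral_swap (f := fun ω (q : ℝ × ℝ) => Φ q.1 ω * Φ q.2 ω) hGi.swap

/-! ## Module F -/

theorem exists_law_of_tendsto_charFun (μs : ℕ → ProbabilityMeasure ℂ) (f : ℂ → ℂ)
    (hf : ContinuousAt f 0)
    (h : ∀ t, Tendsto (fun n => charFun (μs n : Measure ℂ) t) atTop (𝓝 (f t))) :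
    ∃ ν : ProbabilityMeasure ℂ, (∀ t, charFun (ν : Measure ℂ) t = f t) ∧
      Tendsto μs atTop (𝓝 ν) := by
  have h_tight : IsTightMeasureSet {(μs n : Measure ℂ) | n} :=
    isTightMeasureSet_of_tendsto_charFun hf h
  have h_compact : IsCompact (closure {μs n | n}) :=
    isCompact_closure_of_isTightMeasureSet (by simpa using h_tight)
  obtain ⟨ν, -, hν : MapClusterPt ν atTop μs⟩ := h_compact.exists_mapClusterPt
    (f := atTop) (u := μs) (by
      refine tendsto_principal.2 (Eventually.of_forall fun n => ?_)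
      exact subset_closure ⟨n, rfl⟩)
  obtain ⟨U, hU, hU2⟩ := mapClusterPt_iff_ultrafilter.1 hν
  have hchar : ∀ t, charFun (ν : Measure ℂ) t = f t := by
    intro t
    have h1 : Tendsto (fun n => charFun (μs n : Measure ℂ) t) U (𝓝 (f t)) := (h t).mono_left hU
    have h2 : Tendsto (fun n => charFun (μs n : Measure ℂ) t) U (𝓝 (charFun (ν : Measure ℂ) t)) := by
      rw [ProbabilityMeasure.tendsto_iff_forall_integral_rclike_tendsto ℂ] at hU2
      simp_rw [charFun_eq_integral_innerProbChar]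
      exact hU2 (BoundedContinuousFunction.innerProbChar t)
    exact tendsto_nhds_unique h2 h1
  refine ⟨ν, hchar, ?_⟩
  refine ProbabilityMeasure.tendsto_of_tendsto_charFun fun t => ?_
  rw [hchar t]
  exact h t

/-! ## Module L -/

namespace Lind

lemma sin_ge {x : ℝ} (hx : 0 ≤ x) : x - x ^ 3 / 6 ≤ Real.sin x := by
  have hmono : MonotoneOn (fun x : ℝ => Real.sin x - x + x ^ 3 / 6) (Ici 0) := by
    refine monotoneOn_of_deriv_nonneg (convex_Ici 0) (by fun_prop) (by fun_prop) fun y hy => ?_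
    have hd : HasDerivAt (fun x : ℝ => Real.sin x - x + x ^ 3 / 6)
        (Real.cos y - 1 + (3 * y ^ 2) / 6) y := by
      have h1 := (((Real.hasDerivAt_sin y).fun_sub (hasDerivAt_id' y)).fun_add
        ((hasDerivAt_pow 3 y).div_const 6))
      refine h1.congr_deriv ?_
      norm_num
    rw [hd.deriv]
    have := Real.one_sub_sq_div_two_le_cos (x := y)
    linarith
  have := hmono (mem_Ici.2 le_rfl) (mem_Ici.2 hx) hx
  simp at this
  linarith

lemma cos_le' {x : ℝ} (hx : 0 ≤ x) : Real.cos x ≤ 1 - x ^ 2 / 2 + x ^ 4 / 24 := by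
  have hmono : MonotoneOn (fun x : ℝ => 1 - x ^ 2 / 2 + x ^ 4 / 24 - Real.cos x) (Ici 0) := by
    refine monotoneOn_of_deriv_nonneg (convex_Ici 0) (by fun_prop) (by fun_prop) fun y hy => ?_
    have hd : HasDerivAt (fun x : ℝ => 1 - x ^ 2 / 2 + x ^ 4 / 24 - Real.cos x)
        (- (2 * y) / 2 + (4 * y ^ 3) / 24 + Real.sin y) y := by
      have := ((((hasDerivAt_const y (1 : ℝ)).sub ((hasDerivAt_pow 2 y).div_const 2)).add
        ((hasDerivAt_pow 4 y).div_const 24))).sub (Real.hasDerivAt_cos y)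
      simp at this
      refine this.congr_deriv ?_
      ring
    rw [hd.deriv]
    have := sin_ge (x := y) (by simpa using (interior_subset hy))
    linarith
  have := hmono (mem_Ici.2 le_rfl) (mem_Ici.2 hx) hx
  simp at this
  linarith

lemma cos_err (x : ℝ) : |Real.cos x - 1 + x ^ 2 / 2| ≤ |x| ^ 3 / 4 := by
  have h0 : Real.cos x = Real.cos |x| := (Real.cos_abs x).symm
  have hx2 : x ^ 2 = |x| ^ 2 := (sq_abs x).symm
  rw [h0, hx2]
  set y := |x|
  have hy : 0 ≤ y := abs_nonneg x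
  have h1 := Real.one_sub_sq_div_two_le_cos (x := y)
  rw [abs_of_nonneg (by linarith)]
  rcases le_total y 6 with h | h
  · have h2 := cos_le' hy
    have h3 : y ^ 4 / 24 ≤ y ^ 3 / 4 := by
      have : y ^ 4 = y ^ 3 * y := by ring
      rw [this]
      have h4 : 0 ≤ y ^ 3 := by positivity
      nlinarith
    linarith
  · have h2 := Real.cos_le_one y
    have h3 : y ^ 2 / 2 ≤ y ^ 3 / 4 := by
      have : y ^ 3 = y ^ 2 * y := by ring
      rw [this]
      have h4 : 0 ≤ y ^ 2 := by positivity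
      nlinarith
    linarith

lemma sin_err (x : ℝ) : |Real.sin x - x| ≤ |x| ^ 3 / 6 := by
  rcases le_total 0 x with h | h
  · have h1 := sin_ge h
    have h2 := Real.sin_le h
    rw [abs_of_nonneg h, abs_le]
    constructor <;> linarith
  · have h1 := sin_ge (x := -x) (by linarith)
    have h2 := Real.sin_le (x := -x) (by linarith)
    rw [Real.sin_neg] at h1 h2
    rw [abs_of_nonpos h, abs_le]
    constructor <;> linarith

/-- Taylor bound for `exp (i x)` -/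
lemma exp_err (x : ℝ) : ‖Complex.exp (Complex.I * (x : ℂ)) -
    (1 + Complex.I * x - ((x ^ 2 / 2 : ℝ) : ℂ))‖ ≤ 5 / 12 * |x| ^ 3 := by
  have h : Complex.exp (Complex.I * (x : ℂ)) - (1 + Complex.I * x - ((x ^ 2 / 2 : ℝ) : ℂ)) =
      ((Real.cos x - 1 + x ^ 2 / 2 : ℝ) : ℂ) + ((Real.sin x - x : ℝ) : ℂ) * Complex.I := by
    rw [mul_comm, Complex.exp_mul_I]
    push_cast
    ring
  rw [h]
  refine (norm_add_le _ _).trans ?_
  rw [norm_mul, Complex.norm_I, mul_one, Complex.norm_real, Complex.norm_real, Real.norm_eq_abs,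
    Real.norm_eq_abs]
  have h1 := cos_err x
  have h2 := sin_err x
  linarith

lemma gauss_err {s : ℝ} (hs : 0 ≤ s) : |Real.exp (-(s ^ 2 / 2)) - (1 - s ^ 2 / 2)| ≤ s ^ 3 / 2 := by
  set a := s ^ 2 / 2 with ha
  have ha0 : 0 ≤ a := by positivity
  have h1 : 1 - a ≤ Real.exp (-a) := by
    have := Real.add_one_le_exp (-a)
    linarith
  rw [abs_of_nonneg (by linarith)]
  rcases le_total s 4 with h | h
  · have h2 : Real.exp (-a) ≤ 1 - a + a ^ 2 / 2 := by
      have h3 := Real.quadratic_le_exp_of_nonneg ha0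
      rw [Real.exp_neg]
      have h4 : 0 < 1 + a + a ^ 2 / 2 := by positivity
      rw [inv_le_comm₀ (Real.exp_pos a) (by nlinarith [sq_nonneg (a - 1)])]
      refine le_trans ?_ h3
      rw [← one_div, div_le_iff₀ (by nlinarith [sq_nonneg (a - 1)])]
      have : (1 + a + a ^ 2 / 2) * (1 - a + a ^ 2 / 2) = 1 + a ^ 4 / 4 := by ring
      rw [this]
      have : 0 ≤ a ^ 4 := by positivity
      linarith
    have h5 : a ^ 2 / 2 ≤ s ^ 3 / 2 := by
      rw [ha]
      have : (s ^ 2 / 2) ^ 2 / 2 = s ^ 3 * s / 8 := by ring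
      rw [this]
      have : 0 ≤ s ^ 3 := by positivity
      nlinarith
    linarith
  · have h2 : Real.exp (-a) ≤ 1 := Real.exp_le_one_iff.2 (by linarith)
    have h5 : a ≤ s ^ 3 / 2 := by
      rw [ha]
      have : s ^ 3 = s ^ 2 * s := by ring
      rw [this]
      have : 0 ≤ s ^ 2 := by positivity
      nlinarith
    linarith

variable {Ω : Type*} [MeasurableSpace Ω] {P : Measure Ω} [IsProbabilityMeasure P]

lemma integrable_of_three {r : Ω → ℝ} (hm : Measurable r) (h3 : Integrable (fun ω => |r ω| ^ 3) P) :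
    Integrable r P ∧ Integrable (fun ω => r ω ^ 2) P := by
  constructor
  · refine (h3.add (integrable_const (1 : ℝ))).mono' hm.aestronglyMeasurable
      (ae_of_all _ fun ω => ?_)
    simp only [Pi.add_apply, Real.norm_eq_abs]
    have h : 0 ≤ |r ω| := abs_nonneg _
    rcases le_total |r ω| 1 with h1 | h1
    · have : 0 ≤ |r ω| ^ 3 := by positivity
      linarith
    · have : |r ω| ≤ |r ω| ^ 3 := le_self_pow₀ h1 (by norm_num)
      linarith
  · refine (h3.add (integrable_const (1 : ℝ))).mono' (hm.pow_const 2).aestronglyMeasurable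
      (ae_of_all _ fun ω => ?_)
    simp only [Pi.add_apply, Real.norm_eq_abs, abs_pow]
    have h : 0 ≤ |r ω| := abs_nonneg _
    rcases le_total |r ω| 1 with h1 | h1
    · have h2 : |r ω| ^ 2 ≤ 1 := pow_le_one₀ h h1
      have : 0 ≤ |r ω| ^ 3 := by positivity
      linarith
    · have : |r ω| ^ 2 ≤ |r ω| ^ 3 := pow_le_pow_right₀ h1 (by norm_num)
      linarith

lemma lyapunov {r : Ω → ℝ} (hm : Measurable r) (h3 : Integrable (fun ω => |r ω| ^ 3) P) :
    √(∫ ω, r ω ^ 2 ∂P) ^ 3 ≤ ∫ ω, |r ω| ^ 3 ∂P := by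
  set v := ∫ ω, r ω ^ 2 ∂P with hv
  have hv0 : 0 ≤ v := integral_nonneg fun ω => sq_nonneg _
  set σ := √v with hσ
  have hσ0 : 0 ≤ σ := Real.sqrt_nonneg _
  have hσ2 : σ ^ 2 = v := Real.sq_sqrt hv0
  have hi := integrable_of_three hm h3
  have key : ∫ ω, 3 * σ * r ω ^ 2 ∂P ≤ ∫ ω, (2 * |r ω| ^ 3 + σ ^ 3) ∂P := by
    refine integral_mono (hi.2.const_mul _) ((h3.const_mul 2).add (integrable_const _))
      fun ω => ?_
    have h : 0 ≤ |r ω| := abs_nonneg _
    have h2 : 2 * |r ω| ^ 3 + σ ^ 3 - 3 * σ * |r ω| ^ 2 = (|r ω| - σ) ^ 2 * (2 * |r ω| + σ) := by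
      ring
    have h4 : 0 ≤ (|r ω| - σ) ^ 2 * (2 * |r ω| + σ) := by positivity
    show 3 * σ * r ω ^ 2 ≤ 2 * |r ω| ^ 3 + σ ^ 3
    rw [← sq_abs (r ω)]
    linarith
  rw [integral_const_mul, integral_add (h3.const_mul 2) (integrable_const _),
    integral_const_mul, integral_const, smul_eq_mul, probReal_univ, one_mul, ← hv, ← hσ2] at key
  nlinarith

/-- one variable -/
lemma one_var {r : Ω → ℝ} (hm : Measurable r) (h3 : Integrable (fun ω => |r ω| ^ 3) P)
    (h0 : ∫ ω, r ω ∂P = 0) (τ : ℝ) :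
    ‖(∫ ω, Complex.exp (Complex.I * ((τ * r ω : ℝ) : ℂ)) ∂P) -
      ((Real.exp (-(τ ^ 2 / 2 * ∫ ω, r ω ^ 2 ∂P)) : ℝ) : ℂ)‖ ≤ |τ| ^ 3 * ∫ ω, |r ω| ^ 3 ∂P := by
  set v := ∫ ω, r ω ^ 2 ∂P with hv
  have hv0 : 0 ≤ v := integral_nonneg fun ω => sq_nonneg _
  have hi := integrable_of_three hm h3
  have hexp : Integrable (fun ω => Complex.exp (Complex.I * ((τ * r ω : ℝ) : ℂ))) P := by
    refine Integrable.of_bound (C := 1) ?_ (ae_of_all _ fun ω => ?_)
    · have : Measurable (fun ω => Complex.exp (Complex.I * ((τ * r ω : ℝ) : ℂ))) := by fun_prop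
      exact this.aestronglyMeasurable
    · rw [mul_comm, Complex.norm_exp_ofReal_mul_I]
  have hpoly : Integrable (fun ω => (1 + Complex.I * ((τ * r ω : ℝ) : ℂ) -
      (((τ * r ω) ^ 2 / 2 : ℝ) : ℂ))) P := by
    refine ((integrable_const (1 : ℂ)).add ?_).sub ?_
    · exact ((hi.1.const_mul τ).ofReal).const_mul _
    · have : Integrable (fun ω => (τ * r ω) ^ 2 / 2) P := by
        have h4 := hi.2.const_mul (τ ^ 2 / 2)
        refine h4.congr (ae_of_all _ fun ω => ?_)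
        show τ ^ 2 / 2 * r ω ^ 2 = (τ * r ω) ^ 2 / 2
        ring
      exact this.ofReal
  have hpolyint : ∫ ω, (1 + Complex.I * ((τ * r ω : ℝ) : ℂ) -
      (((τ * r ω) ^ 2 / 2 : ℝ) : ℂ)) ∂P = ((1 - τ ^ 2 / 2 * v : ℝ) : ℂ) := by
    have e1 : Integrable (fun ω => Complex.I * ((τ * r ω : ℝ) : ℂ)) P :=
      ((hi.1.const_mul τ).ofReal).const_mul _
    have e2 : Integrable (fun ω => (((τ * r ω) ^ 2 / 2 : ℝ) : ℂ)) P := by
      have h4 := hi.2.const_mul (τ ^ 2 / 2)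
      have : Integrable (fun ω => (τ * r ω) ^ 2 / 2) P := by
        refine h4.congr (ae_of_all _ fun ω => ?_)
        show τ ^ 2 / 2 * r ω ^ 2 = (τ * r ω) ^ 2 / 2
        ring
      exact this.ofReal
    have e3 : Integrable (fun ω => (1 : ℂ) + Complex.I * ((τ * r ω : ℝ) : ℂ)) P :=
      (integrable_const (1 : ℂ)).add e1
    have e4 : ∫ ω, ((τ * r ω : ℝ) : ℂ) ∂P = ((∫ ω, τ * r ω ∂P : ℝ) : ℂ) := integral_complex_ofReal
    have e5 : ∫ ω, (((τ * r ω) ^ 2 / 2 : ℝ) : ℂ) ∂P = ((∫ ω, (τ * r ω) ^ 2 / 2 ∂P : ℝ) : ℂ) :=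
      integral_complex_ofReal
    rw [integral_sub e3 e2, integral_add (integrable_const _) e1, integral_const_mul,
      e4, e5, integral_const_mul, h0]
    have h5 : ∫ ω, (τ * r ω) ^ 2 / 2 ∂P = τ ^ 2 / 2 * v := by
      rw [hv, ← integral_const_mul]
      refine integral_congr_ae (ae_of_all _ fun ω => ?_)
      show (τ * r ω) ^ 2 / 2 = τ ^ 2 / 2 * r ω ^ 2
      ring
    rw [h5]
    simp
  have hA : ‖(∫ ω, Complex.exp (Complex.I * ((τ * r ω : ℝ) : ℂ)) ∂P) -
      ((1 - τ ^ 2 / 2 * v : ℝ) : ℂ)‖ ≤ 5 / 12 * |τ| ^ 3 * ∫ ω, |r ω| ^ 3 ∂P := by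
    rw [← hpolyint, ← integral_sub hexp hpoly]
    refine (norm_integral_le_integral_norm _).trans ?_
    rw [← integral_const_mul]
    refine integral_mono (hexp.sub hpoly).norm (h3.const_mul _) fun ω => ?_
    have := exp_err (τ * r ω)
    rw [abs_mul, mul_pow |τ|] at this
    show _ ≤ 5 / 12 * |τ| ^ 3 * |r ω| ^ 3
    rw [mul_assoc]
    exact this
  set s := |τ| * √v with hs
  have hs0 : 0 ≤ s := by positivity
  have hs2 : s ^ 2 / 2 = τ ^ 2 / 2 * v := by
    rw [hs, mul_pow, Real.sq_sqrt hv0, sq_abs]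
    ring
  have hs3 : s ^ 3 ≤ |τ| ^ 3 * ∫ ω, |r ω| ^ 3 ∂P := by
    rw [hs, mul_pow]
    exact mul_le_mul_of_nonneg_left (lyapunov hm h3) (by positivity)
  have hB : ‖((Real.exp (-(τ ^ 2 / 2 * v)) : ℝ) : ℂ) - ((1 - τ ^ 2 / 2 * v : ℝ) : ℂ)‖ ≤
      1 / 2 * (|τ| ^ 3 * ∫ ω, |r ω| ^ 3 ∂P) := by
    rw [← Complex.ofReal_sub, Complex.norm_real, Real.norm_eq_abs, ← hs2]
    have := gauss_err hs0
    linarith
  have hpos : 0 ≤ |τ| ^ 3 * ∫ ω, |r ω| ^ 3 ∂P :=
    mul_nonneg (by positivity) (integral_nonneg fun ω => by positivity)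
  calc ‖(∫ ω, Complex.exp (Complex.I * ((τ * r ω : ℝ) : ℂ)) ∂P) -
        ((Real.exp (-(τ ^ 2 / 2 * v)) : ℝ) : ℂ)‖
      = ‖((∫ ω, Complex.exp (Complex.I * ((τ * r ω : ℝ) : ℂ)) ∂P) -
        ((1 - τ ^ 2 / 2 * v : ℝ) : ℂ)) -
        (((Real.exp (-(τ ^ 2 / 2 * v)) : ℝ) : ℂ) - ((1 - τ ^ 2 / 2 * v : ℝ) : ℂ))‖ := by
        congr 1; ring
    _ ≤ _ := norm_sub_le _ _
    _ ≤ 5 / 12 * |τ| ^ 3 * (∫ ω, |r ω| ^ 3 ∂P) + 1 / 2 * (|τ| ^ 3 * ∫ ω, |r ω| ^ 3 ∂P) :=
        add_le_add hA hB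
    _ ≤ |τ| ^ 3 * ∫ ω, |r ω| ^ 3 ∂P := by nlinarith

end Lind

theorem charfun_sum_indep {Ω : Type*} [MeasurableSpace Ω] {P : Measure Ω}
    [IsProbabilityMeasure P] (N : ℕ) (r : ℕ → Ω → ℝ) (hm : ∀ j < N, Measurable (r j))
    (hind : ∀ j < N, IndepFun (fun ω => ∑ i ∈ Finset.range j, r i ω) (r j) P)
    (h3 : ∀ j < N, Integrable (fun ω => |r j ω| ^ 3) P)
    (h0 : ∀ j < N, ∫ ω, r j ω ∂P = 0) (τ : ℝ) :
    ‖(∫ ω, Complex.exp (Complex.I * ((τ * ∑ j ∈ Finset.range N, r j ω : ℝ) : ℂ)) ∂P) -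
        ((Real.exp (-(τ ^ 2 / 2 * ∑ j ∈ Finset.range N, ∫ ω, r j ω ^ 2 ∂P)) : ℝ) : ℂ)‖ ≤
      |τ| ^ 3 * ∑ j ∈ Finset.range N, ∫ ω, |r j ω| ^ 3 ∂P := by
  induction N with
  | zero => simp
  | succ N ih =>
    have ih' := ih (fun j hj => hm j (by omega)) (fun j hj => hind j (by omega))
      (fun j hj => h3 j (by omega)) (fun j hj => h0 j (by omega))
    have hN : N < N + 1 := Nat.lt_succ_self N
    have hSm : Measurable (fun ω => ∑ i ∈ Finset.range N, r i ω) :=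
      Finset.measurable_sum _ fun i hi => hm i (by have := Finset.mem_range.1 hi; omega)
    have hone := Lind.one_var (hm N hN) (h3 N hN) (h0 N hN) τ
    have hprod : (∫ ω, Complex.exp (Complex.I *
          ((τ * ∑ j ∈ Finset.range (N + 1), r j ω : ℝ) : ℂ)) ∂P) =
        (∫ ω, Complex.exp (Complex.I * ((τ * ∑ j ∈ Finset.range N, r j ω : ℝ) : ℂ)) ∂P) *
          ∫ ω, Complex.exp (Complex.I * ((τ * r N ω : ℝ) : ℂ)) ∂P := by
      have hcm : Measurable (fun x : ℝ => Complex.exp (Complex.I * ((τ * x : ℝ) : ℂ))) := by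
        fun_prop
      have h1 := ((hind N hN).comp hcm hcm).integral_mul_eq_mul_integral
        (hcm.comp hSm).aestronglyMeasurable (hcm.comp (hm N hN)).aestronglyMeasurable
      simp only [Function.comp_def] at h1
      rw [← h1]
      refine integral_congr_ae (ae_of_all _ fun ω => ?_)
      simp only [Pi.mul_apply]
      rw [← Complex.exp_add, Finset.sum_range_succ]
      congr 1
      push_cast
      ring
    rw [hprod, Finset.sum_range_succ, Finset.sum_range_succ, mul_add, neg_add, Real.exp_add,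
      Complex.ofReal_mul]
    set a := ∫ ω, Complex.exp (Complex.I * ((τ * ∑ j ∈ Finset.range N, r j ω : ℝ) : ℂ)) ∂P
    set b := ∫ ω, Complex.exp (Complex.I * ((τ * r N ω : ℝ) : ℂ)) ∂P
    set a' := ((Real.exp (-(τ ^ 2 / 2 * ∑ j ∈ Finset.range N, ∫ ω, r j ω ^ 2 ∂P)) : ℝ) : ℂ)
    set b' := ((Real.exp (-(τ ^ 2 / 2 * ∫ ω, r N ω ^ 2 ∂P)) : ℝ) : ℂ)
    have hb : ‖b‖ ≤ 1 := by
      refine (norm_integral_le_integral_norm _).trans ?_
      have : ∀ ω, ‖Complex.exp (Complex.I * ((τ * r N ω : ℝ) : ℂ))‖ = 1 := fun ω => by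
        rw [mul_comm, Complex.norm_exp_ofReal_mul_I]
      simp only [this, integral_const, smul_eq_mul, mul_one, probReal_univ, le_refl]
    have ha' : ‖a'‖ ≤ 1 := by
      simp only [a']
      rw [Complex.norm_real, Real.norm_eq_abs, abs_of_pos (Real.exp_pos _)]
      refine Real.exp_le_one_iff.2 ?_
      have : 0 ≤ ∑ j ∈ Finset.range N, ∫ ω, r j ω ^ 2 ∂P :=
        Finset.sum_nonneg fun j _ => integral_nonneg fun ω => sq_nonneg _
      have : 0 ≤ τ ^ 2 / 2 * ∑ j ∈ Finset.range N, ∫ ω, r j ω ^ 2 ∂P := by positivity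
      linarith
    calc ‖a * b - a' * b'‖ = ‖(a - a') * b + a' * (b - b')‖ := by congr 1; ring
      _ ≤ ‖(a - a') * b‖ + ‖a' * (b - b')‖ := norm_add_le _ _
      _ ≤ ‖a - a'‖ * 1 + 1 * ‖b - b'‖ := by
          rw [norm_mul, norm_mul]
          gcongr
      _ ≤ _ := by
          rw [mul_one, one_mul, mul_add]
          exact add_le_add ih' hone

end Pool.Agent.helper95.GMC
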