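import Pool.Agent.helper94.GMCReg
import Pool.Agent.helper94.GMCLSF
import Pool.Agent.helper9.GMCCompareMain
import Pool.Agent.helper9.ConeField
import Pool.Agent.helper95.GMC.Mid

/-!
Module Z: from the layered field to general regularisations.
-/

open MeasureTheory ProbabilityTheory Filter Topology Set
open scoped ENNReal NNReal

namespace Pool.Agent.helper95.GMC

/-- the law of the layered field on path space exists -/
lemma exists_cone : ∃ μ : Measure Path, Cone μ := by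
  obtain ⟨Ω, mΩ, P, Z, hP, hZ⟩ := exists_coneField
  set T : Ω → Path := fun ω p => Z p.1 p.2 ω with hTdef
  have hT : Measurable T := measurable_pi_lambda _ fun p => hZ.meas p.1 p.2
  have hev : ∀ p : ℕ × ℝ, Measurable (fun z : Path => z p) := fun p => measurable_pi_apply p
  refine ⟨P.map T, ⟨fun I => ?_⟩, fun p => ?_, fun p q => ?_⟩
  · constructor
    have h1 := (hZ.gauss.hasGaussianLaw I).isGaussian_map
    have hR : Measurable (fun z : Path => I.restrict (fun x => z x)) :=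
      measurable_pi_lambda _ fun i => hev _
    rw [Measure.map_map hR hT]
    exact h1
  · rw [integral_map hT.aemeasurable (hev p).aestronglyMeasurable]
    exact hZ.mean p.1 p.2
  · rw [covariance_map_fun (hev p).aestronglyMeasurable (hev q).aestronglyMeasurable
      hT.aemeasurable]
    exact hZ.cov p.1 q.1 p.2 q.2

/-- the field with layers `0..J` -/
noncomputable def XJ (J : ℕ) (x : ℝ) (z : Path) : ℝ := ∑ i ∈ Finset.range (J + 1), Y i x z

lemma XJ_eq (J : ℕ) (x : ℝ) (z : Path) : XJ J x z = Y 0 x z + SY 0 J x z := by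
  unfold XJ SY
  rw [Finset.sum_range_succ']
  simp only [zero_add]
  ring

lemma mm_eq_XJ (J : ℕ) (x : ℝ) (z : Path) :
    mm J x z = Real.exp (gam * XJ J x z - gam ^ 2 / 2 * K J (x - x)) := by
  unfold mm
  rw [XJ_eq, sub_self, K_zero, gam_sq]
  congr 1
  ring

lemma measurable_XJ (J : ℕ) : Measurable (fun q : ℝ × Path => XJ J q.1 q.2) := by
  unfold XJ
  exact Finset.measurable_sum _ fun j _ => measurable_Y _

namespace Cone

variable {μ : Measure Path}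

lemma memLp_Y (h : Cone μ) (i : ℕ) (x : ℝ) : MemLp (Y i x) 2 μ :=
  (h.gaussY.hasGaussianLaw_eval (i, x)).memLp_two

lemma gauss_XJ (h : Cone μ) (J : ℕ) :
    IsGaussianProcess (fun x : Set.Icc (0 : ℝ) 1 => XJ J x) μ := by
  classical
  refine h.gaussY.of_isGaussianProcess fun x => ?_
  refine ⟨(Finset.range (J + 1)).image (fun i => (i, (x : ℝ))),
    ∑ i, ContinuousLinearMap.proj i, fun z => ?_⟩
  rw [sum_apply]
  simp only [ContinuousLinearMap.proj_apply, Finset.restrict]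
  rw [Finset.sum_coe_sort ((Finset.range (J + 1)).image (fun i => (i, (x : ℝ))))
    (fun p : ℕ × ℝ => Y p.1 p.2 z), Finset.sum_image]
  · rfl
  · intro a _ b _ hab
    simpa using hab

lemma mean_XJ (h : Cone μ) (J : ℕ) (x : ℝ) : ∫ z, XJ J x z ∂μ = 0 := by
  have := h.isProb
  unfold XJ
  rw [integral_finsetSum]
  · exact Finset.sum_eq_zero fun i _ => h.meanY i x
  · exact fun i _ => (h.memLp_Y i x).integrable one_le_two

lemma cov_XJ (h : Cone μ) (J : ℕ) (x y : ℝ) : cov[XJ J x, XJ J y; μ] = K J (x - y) := by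
  have := h.isProb
  have e1 : XJ J x = fun z => ∑ i ∈ Finset.range (J + 1), Y i x z := rfl
  have e2 : XJ J y = fun z => ∑ i ∈ Finset.range (J + 1), Y i y z := rfl
  rw [e1, e2, covariance_fun_sum_fun_sum' (fun i _ => h.memLp_Y i x) (fun i _ => h.memLp_Y i y),
    ← sum_kap]
  refine Finset.sum_congr rfl fun i hi => ?_
  simp_rw [h.covY]
  rw [Finset.sum_ite_eq, if_pos hi]

end Cone

/-- polar form of the Fourier functional -/
lemma re_eq_CC (n J : ℕ) (z : ℂ) (w : Path)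
    (hw : IntegrableOn (fun x => mm J x w) (Set.Icc (0 : ℝ) 1)) :
    (starRingEnd ℂ z * ∫ x in (0 : ℝ)..1, Complex.exp (-(2 * Real.pi * n * x * Complex.I)) *
      Complex.exp (gam * XJ J x w - gam ^ 2 / 2 * K J (x - x))).re = ‖z‖ * CC n (Complex.arg z) J w := by
  have e1 : ∀ x : ℝ, Complex.exp (gam * XJ J x w - gam ^ 2 / 2 * K J (x - x)) = (mm J x w : ℂ) := by
    intro x
    rw [mm_eq_XJ]
    push_cast
    rfl
  simp_rw [e1]
  rw [← intervalIntegral.integral_const_mul]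
  have hre : ∀ x : ℝ, (starRingEnd ℂ z * (Complex.exp (-(2 * Real.pi * n * x * Complex.I)) *
      (mm J x w : ℂ))).re = ‖z‖ * (cs n (Complex.arg z) x * mm J x w) := by
    intro x
    have h1 : starRingEnd ℂ z = ‖z‖ * Complex.exp (-(Complex.arg z * Complex.I)) := by
      conv_lhs => rw [← Complex.norm_mul_exp_arg_mul_I z]
      rw [map_mul, Complex.conj_ofReal, ← Complex.exp_conj, map_mul, Complex.conj_ofReal,
        Complex.conj_I]
      congr 2
      ring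
    have h2 : starRingEnd ℂ z * (Complex.exp (-(2 * Real.pi * n * x * Complex.I)) *
        (mm J x w : ℂ)) = ((‖z‖ * mm J x w : ℝ) : ℂ) *
          Complex.exp (((-(2 * Real.pi * n * x + Complex.arg z) : ℝ) : ℂ) * Complex.I) := by
      have h3 : Complex.exp (((-(2 * Real.pi * n * x + Complex.arg z) : ℝ) : ℂ) * Complex.I) =
          Complex.exp (-(Complex.arg z * Complex.I)) *
            Complex.exp (-(2 * Real.pi * n * x * Complex.I)) := by
        rw [← Complex.exp_add]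
        congr 1
        push_cast
        ring
      rw [h1, h3]
      push_cast
      ring
    rw [h2, Complex.re_ofReal_mul, Complex.exp_ofReal_mul_I_re, Real.cos_neg]
    unfold cs
    ring
  have hint : IntervalIntegrable (fun x : ℝ => starRingEnd ℂ z *
      (Complex.exp (-(2 * Real.pi * n * x * Complex.I)) * (mm J x w : ℂ))) volume 0 1 := by
    rw [intervalIntegrable_iff_integrableOn_Icc_of_le zero_le_one]
    have h1 : IntegrableOn (fun x => (mm J x w : ℂ)) (Set.Icc (0 : ℝ) 1) := hw.ofReal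
    have h2 : IntegrableOn (fun x : ℝ => Complex.exp (-(2 * Real.pi * n * x * Complex.I)) *
        (mm J x w : ℂ)) (Set.Icc (0 : ℝ) 1) := by
      refine h1.bdd_mul (c := 1) ?_ (ae_of_all _ fun x => ?_)
      · have : Continuous (fun x : ℝ => Complex.exp (-(2 * Real.pi * n * x * Complex.I))) := by
          fun_prop
        exact this.aestronglyMeasurable
      · have h3 : -(2 * Real.pi * n * x * Complex.I) = ((-(2 * Real.pi * n * x) : ℝ) : ℂ) *
            Complex.I := by push_cast; ring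
        rw [h3, Complex.norm_exp_ofReal_mul_I]
    exact h2.const_mul _
  rw [← Complex.reCLM_apply, ← ContinuousLinearMap.intervalIntegral_comp_comm _ hint]
  simp_rw [Complex.reCLM_apply, hre]
  rw [intervalIntegral.integral_const_mul]
  rfl

/-- the chaos integral of a field -/
noncomputable def MX {Ω : Type*} (X : ℝ → Ω → ℝ) (C : ℝ → ℝ → ℝ) (n : ℕ) (ω : Ω) : ℂ :=
  ∫ x in (0 : ℝ)..1, Complex.exp (-(2 * Real.pi * n * x * Complex.I)) *
    (Real.exp (1 / √2 * X x ω - (1 / √2) ^ 2 / 2 * C x x) : ℂ)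

lemma one_div_sqrt_two : (1 : ℝ) / √2 = gam := by
  unfold gam
  rw [div_eq_div_iff (by positivity) (by norm_num)]
  rw [one_mul, Real.mul_self_sqrt (by norm_num)]

lemma norm_e (n : ℕ) (x : ℝ) : ‖Complex.exp (-(2 * Real.pi * n * x * Complex.I))‖ = 1 := by
  have h3 : -(2 * Real.pi * n * x * Complex.I) = ((-(2 * Real.pi * n * x) : ℝ) : ℂ) *
      Complex.I := by push_cast; ring
  rw [h3, Complex.norm_exp_ofReal_mul_I]

lemma measurable_MX {Ω : Type*} [MeasurableSpace Ω] {X : ℝ → Ω → ℝ} {C : ℝ → ℝ → ℝ}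
    (hX : Measurable (fun q : ℝ × Ω => X q.1 q.2)) (hC : Measurable (fun q : ℝ × ℝ => C q.1 q.2))
    (n : ℕ) : Measurable (MX X C n) := by
  have h1 : Measurable (fun q : Ω × ℝ => Complex.exp (-(2 * Real.pi * n * q.2 * Complex.I)) *
      (Real.exp (1 / √2 * X q.2 q.1 - (1 / √2) ^ 2 / 2 * C q.2 q.2) : ℂ)) := by
    refine Measurable.mul ?_ (Complex.measurable_ofReal.comp (Real.measurable_exp.comp ?_))
    · have : Continuous (fun x : ℝ => Complex.exp (-(2 * Real.pi * n * x * Complex.I))) := by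
        fun_prop
      exact this.measurable.comp measurable_snd
    · refine Measurable.sub (Measurable.const_mul ?_ _) (Measurable.const_mul ?_ _)
      · exact hX.comp (measurable_snd.prodMk measurable_fst)
      · exact hC.comp (measurable_snd.prodMk measurable_snd)
  have h2 := h1.stronglyMeasurable.integral_prod_right' (ν := volume.restrict (Set.Ioc (0 : ℝ) 1))
  have h3 : MX X C n = fun ω => ∫ x in Set.Ioc (0 : ℝ) 1,
      Complex.exp (-(2 * Real.pi * n * x * Complex.I)) *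
        (Real.exp (1 / √2 * X x ω - (1 / √2) ^ 2 / 2 * C x x) : ℂ) := by
    funext ω
    unfold MX
    rw [intervalIntegral.integral_of_le zero_le_one]
  rw [h3]
  exact h2.measurable

lemma compare_one {Ω : Type*} [MeasurableSpace Ω] (P : Measure Ω) [IsProbabilityMeasure P]
    {μ : Measure Path} (h : Cone μ) (X : ℝ → Ω → ℝ) (C : ℝ → ℝ → ℝ)
    (hXm : Measurable (fun q : ℝ × Ω => X q.1 q.2))
    (hX : IsGaussianProcess (fun x : Set.Icc (0 : ℝ) 1 => X x) P)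
    (h0 : ∀ x ∈ Set.Icc (0 : ℝ) 1, ∫ ω, X x ω ∂P = 0)
    (hC : ∀ x ∈ Set.Icc (0 : ℝ) 1, ∀ y ∈ Set.Icc (0 : ℝ) 1, cov[X x, X y; P] = C x y)
    (B : ℝ) (hB : ∀ x ∈ Set.Icc (0 : ℝ) 1, C x x ≤ B) (n J : ℕ) (z : ℂ) :
    ENNReal.ofReal ‖(∫ ω, Complex.exp (Complex.I * ((starRingEnd ℂ z * MX X C n ω).re : ℝ)) ∂P) -
      ∫ w, Complex.exp (Complex.I * ((‖z‖ * CC n (Complex.arg z) J w : ℝ) : ℂ)) ∂μ‖ ≤
    ENNReal.ofReal (‖z‖ ^ 2 * gam ^ 2) * ∫⁻ x in Set.Icc (0 : ℝ) 1, ∫⁻ y in Set.Icc (0 : ℝ) 1,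
      ENNReal.ofReal (|C x y - K J (x - y)| * Real.exp (gam ^ 2 * max (C x y) (K J (x - y)))) := by
  have := h.isProb
  have hc : Continuous (fun x : ℝ => Complex.exp (-(2 * Real.pi * n * x * Complex.I))) := by
    fun_prop
  have key := charfun_compare P μ X (XJ J) hXm (measurable_XJ J) hX (h.gauss_XJ J) h0
    (fun x _ => h.mean_XJ J x) C (fun x y => K J (x - y)) hC (fun x _ y _ => h.cov_XJ J x y)
    (max B (1 + J * Real.log 2)) (fun x hx => (hB x hx).trans (le_max_left _ _))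
    (fun x _ => (K_le_K_zero _ _).trans (le_max_right _ _))
    (fun x => Complex.exp (-(2 * Real.pi * n * x * Complex.I))) hc.measurable
    (fun x => (norm_e n x).le) gam z
  refine le_trans (le_of_eq ?_) key
  have e1 : ∀ ω, MX X C n ω = ∫ x in (0 : ℝ)..1,
      Complex.exp (-(2 * Real.pi * n * x * Complex.I)) *
        Complex.exp (gam * X x ω - gam ^ 2 / 2 * C x x) := by
    intro ω
    unfold MX
    rw [one_div_sqrt_two]
    refine intervalIntegral.integral_congr fun x _ => ?_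
    push_cast
    rfl
  have e2 : ∫ w, Complex.exp (Complex.I * ((‖z‖ * CC n (Complex.arg z) J w : ℝ) : ℂ)) ∂μ =
      ∫ w, Complex.exp (Complex.I * ((starRingEnd ℂ z *
        ∫ x in (0 : ℝ)..1, Complex.exp (-(2 * Real.pi * n * x * Complex.I)) *
          Complex.exp (gam * XJ J x w - gam ^ 2 / 2 * K J (x - x))).re : ℝ)) ∂μ := by
    refine integral_congr_ae ?_
    filter_upwards [h.ae_int J] with w hw
    rw [re_eq_CC n J z w hw]
  rw [e2]
  simp_rw [e1]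

lemma norm_exp_I (x : ℝ) : ‖Complex.exp (Complex.I * (x : ℂ))‖ = 1 := by
  rw [mul_comm, Complex.norm_exp_ofReal_mul_I]

/-- convergence of the characteristic functions for a general regularisation -/
lemma charfun_limit {μ : Measure Path} (h : Cone μ) {φ : ℝ → ℂ}
    (hφ : ∀ (θ t ε : ℝ), 0 < ε → ∃ n0 : ℕ, ∀ n ≥ n0, ∃ J0 : ℕ, ∀ J ≥ J0,
      ‖(∫ z, Complex.exp (Complex.I *
        ((t * ((n : ℝ) * Real.log n) ^ (1 / 4 : ℝ) * CC n θ J z : ℝ) : ℂ)) ∂μ) - φ t‖ ≤ ε)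
    {Ω : Type*} [MeasurableSpace Ω] (P : Measure Ω) [IsProbabilityMeasure P]
    (C : ℕ → ℝ → ℝ → ℝ) (hC : IsRegularisation C) (X : ℕ → ℝ → Ω → ℝ)
    (hXm : ∀ m, Measurable (fun q : ℝ × Ω => X m q.1 q.2))
    (hXg : ∀ m, IsGaussianProcess (fun x : Set.Icc (0 : ℝ) 1 => X m x) P)
    (hX0 : ∀ m, ∀ x ∈ Set.Icc (0 : ℝ) 1, ∫ ω, X m x ω ∂P = 0)
    (hXc : ∀ m, ∀ x ∈ Set.Icc (0 : ℝ) 1, ∀ y ∈ Set.Icc (0 : ℝ) 1, cov[X m x, X m y; P] = C m x y)
    (c : ℕ → Ω → ℂ)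
    (hc : ∀ n : ℕ, ∀ᵐ ω ∂P, Tendsto (fun m => MX (X m) (C m) n ω) atTop (𝓝 (c n ω))) (z : ℂ) :
    Tendsto (fun n : ℕ => ∫ ω, Complex.exp (Complex.I * ((starRingEnd ℂ z *
      ((((Real.log n) ^ (1 / 4 : ℝ) * (n : ℝ) ^ (1 / 4 : ℝ) : ℝ) : ℂ) * c n ω)).re : ℝ)) ∂P)
      atTop (𝓝 (φ ‖z‖)) := by
  rw [Metric.tendsto_atTop]
  intro ε hε
  obtain ⟨n0, hn0⟩ := hφ (Complex.arg z) ‖z‖ (ε / 2) (by positivity)
  refine ⟨max n0 2, fun n hn => ?_⟩
  have hn1 : n0 ≤ n := (le_max_left _ _).trans hn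
  have hn2 : 2 ≤ n := (le_max_right _ _).trans hn
  have hn2' : (2 : ℝ) ≤ n := by exact_mod_cast hn2
  have hlog : 0 < Real.log n := Real.log_pos (by linarith)
  obtain ⟨J0, hJ0⟩ := hn0 n hn1
  set s : ℝ := (Real.log n) ^ (1 / 4 : ℝ) * (n : ℝ) ^ (1 / 4 : ℝ) with hs
  have hs0 : 0 < s := by positivity
  have hs1 : ((n : ℝ) * Real.log n) ^ (1 / 4 : ℝ) = s := by
    rw [Real.mul_rpow (by positivity) hlog.le, hs]; ring
  set z' : ℂ := (s : ℂ) * z with hz'
  have hz'n : ‖z'‖ = ‖z‖ * s := by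
    rw [hz', norm_mul, Complex.norm_real, Real.norm_eq_abs, abs_of_pos hs0]; ring
  have hz'a : Complex.arg z' = Complex.arg z := Complex.arg_real_mul z hs0
  set δ : ℝ := ε / 4 / (‖z'‖ ^ 2 * gam ^ 2 + 1) with hδ
  have hδ0 : 0 < δ := by positivity
  obtain ⟨N, hN⟩ := compare_tendsto hC hδ0
  set J := max J0 N with hJ
  set EJ : ℂ := ∫ w, Complex.exp (Complex.I * ((‖z'‖ * CC n (Complex.arg z') J w : ℝ) : ℂ)) ∂μ
    with hEJ
  have h1 : ∀ m ≥ N, ‖(∫ ω, Complex.exp (Complex.I *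
      ((starRingEnd ℂ z' * MX (X m) (C m) n ω).re : ℝ)) ∂P) - EJ‖ ≤ ε / 4 := by
    intro m hm
    obtain ⟨B, hB⟩ := hC.diag m
    have h2 := compare_one P h (X m) (C m) (hXm m) (hXg m) (hX0 m) (hXc m) B hB n J z'
    have h3 := hN m hm J (le_max_right _ _)
    have h4 : ENNReal.ofReal ‖(∫ ω, Complex.exp (Complex.I *
      ((starRingEnd ℂ z' * MX (X m) (C m) n ω).re : ℝ)) ∂P) - EJ‖ ≤
        ENNReal.ofReal (‖z'‖ ^ 2 * gam ^ 2 * δ) := by
      rw [ENNReal.ofReal_mul (by positivity)]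
      exact h2.trans (mul_le_mul_right h3 _)
    rw [ENNReal.ofReal_le_ofReal_iff (by positivity)] at h4
    refine h4.trans ?_
    have h5 : ‖z'‖ ^ 2 * gam ^ 2 * δ ≤ (‖z'‖ ^ 2 * gam ^ 2 + 1) * δ := by nlinarith
    have h6 : (‖z'‖ ^ 2 * gam ^ 2 + 1) * δ = ε / 4 := by
      rw [hδ]; field_simp
    linarith
  have h2 : Tendsto (fun m => ∫ ω, Complex.exp (Complex.I *
      ((starRingEnd ℂ z' * MX (X m) (C m) n ω).re : ℝ)) ∂P) atTop
      (𝓝 (∫ ω, Complex.exp (Complex.I * ((starRingEnd ℂ z' * c n ω).re : ℝ)) ∂P)) := by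
    refine tendsto_integral_of_dominated_convergence (fun _ => (1 : ℝ)) (fun m => ?_)
      (integrable_const 1) (fun m => ?_) ?_
    · have h3 := measurable_MX (hXm m) (hC.meas m) n
      have h4 : Measurable (fun ω => Complex.exp (Complex.I *
          ((starRingEnd ℂ z' * MX (X m) (C m) n ω).re : ℝ))) := by
        refine Complex.measurable_exp.comp (Measurable.const_mul ?_ _)
        exact Complex.measurable_ofReal.comp (Complex.measurable_re.comp (h3.const_mul _))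
      exact h4.aestronglyMeasurable
    · exact ae_of_all _ fun ω => (norm_exp_I _).le
    · filter_upwards [hc n] with ω hω
      have h3 : Continuous (fun y : ℂ => Complex.exp (Complex.I *
          ((starRingEnd ℂ z' * y).re : ℝ))) := by fun_prop
      exact (h3.tendsto _).comp hω
  have h3 : ‖(∫ ω, Complex.exp (Complex.I * ((starRingEnd ℂ z' * c n ω).re : ℝ)) ∂P) - EJ‖ ≤
      ε / 4 := by
    refine le_of_tendsto ((h2.sub_const EJ).norm) ?_
    filter_upwards [eventually_ge_atTop N] with m hm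
    exact h1 m hm
  have h4 : ‖EJ - φ ‖z‖‖ ≤ ε / 2 := by
    have h5 := hJ0 J (le_max_left _ _)
    rw [hs1] at h5
    rw [hEJ, hz'n, hz'a]
    exact h5
  have h5 : ∀ ω, starRingEnd ℂ z * ((s : ℂ) * c n ω) = starRingEnd ℂ z' * c n ω := by
    intro ω
    rw [hz', map_mul, Complex.conj_ofReal]
    ring
  simp_rw [h5]
  rw [dist_eq_norm]
  calc ‖(∫ ω, Complex.exp (Complex.I * ((starRingEnd ℂ z' * c n ω).re : ℝ)) ∂P) - φ ‖z‖‖
      = ‖((∫ ω, Complex.exp (Complex.I * ((starRingEnd ℂ z' * c n ω).re : ℝ)) ∂P) - EJ) +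
        (EJ - φ ‖z‖)‖ := by congr 1; ring
    _ ≤ ε / 4 + ε / 2 := (norm_add_le _ _).trans (add_le_add h3 h4)
    _ < ε := by linarith

lemma CC_add_pi (n : ℕ) (θ : ℝ) (J : ℕ) (z : Path) : CC n (θ + Real.pi) J z = -CC n θ J z := by
  unfold CC
  rw [← intervalIntegral.integral_neg]
  refine intervalIntegral.integral_congr fun x _ => ?_
  have h1 : cs n (θ + Real.pi) x = -cs n θ x := by
    unfold cs
    rw [← add_assoc, Real.cos_add_pi]
  rw [h1]
  ring

lemma phi_even {μ : Measure Path} {φ : ℝ → ℂ}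
    (hφ : ∀ (θ t ε : ℝ), 0 < ε → ∃ n0 : ℕ, ∀ n ≥ n0, ∃ J0 : ℕ, ∀ J ≥ J0,
      ‖(∫ z, Complex.exp (Complex.I *
        ((t * ((n : ℝ) * Real.log n) ^ (1 / 4 : ℝ) * CC n θ J z : ℝ) : ℂ)) ∂μ) - φ t‖ ≤ ε)
    (t : ℝ) : φ (-t) = φ t := by
  by_contra hne
  have hpos : 0 < ‖φ (-t) - φ t‖ := norm_pos_iff.2 (sub_ne_zero.2 hne)
  set ε := ‖φ (-t) - φ t‖ / 3 with hε
  obtain ⟨n1, h1⟩ := hφ 0 (-t) ε (by positivity)
  obtain ⟨n2, h2⟩ := hφ (0 + Real.pi) t ε (by positivity)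
  obtain ⟨J1, h3⟩ := h1 (max n1 n2) (le_max_left _ _)
  obtain ⟨J2, h4⟩ := h2 (max n1 n2) (le_max_right _ _)
  have h5 := h3 (max J1 J2) (le_max_left _ _)
  have h6 := h4 (max J1 J2) (le_max_right _ _)
  simp_rw [CC_add_pi] at h6
  have e : ∀ a b : ℝ, -t * a * b = t * a * -b := fun a b => by ring
  simp_rw [e] at h5
  rw [← norm_neg] at h5
  have h7 := norm_add_le _ _ |>.trans (add_le_add h5 h6)
  have h8 : ∀ a b c : ℂ, -(a - b) + (a - c) = b - c := fun a b c => by ring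
  rw [h8] at h7
  linarith

lemma law_tendsto {μ : Measure Path} (h : Cone μ) {φ : ℝ → ℂ}
    (hφ : ∀ (θ t ε : ℝ), 0 < ε → ∃ n0 : ℕ, ∀ n ≥ n0, ∃ J0 : ℕ, ∀ J ≥ J0,
      ‖(∫ z, Complex.exp (Complex.I *
        ((t * ((n : ℝ) * Real.log n) ^ (1 / 4 : ℝ) * CC n θ J z : ℝ) : ℂ)) ∂μ) - φ t‖ ≤ ε)
    {Ω : Type*} [MeasurableSpace Ω] (P : Measure Ω) [IsProbabilityMeasure P]
    (C : ℕ → ℝ → ℝ → ℝ) (hC : IsRegularisation C) (X : ℕ → ℝ → Ω → ℝ)
    (hXm : ∀ m, Measurable (fun q : ℝ × Ω => X m q.1 q.2))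
    (hXg : ∀ m, IsGaussianProcess (fun x : Set.Icc (0 : ℝ) 1 => X m x) P)
    (hX0 : ∀ m, ∀ x ∈ Set.Icc (0 : ℝ) 1, ∫ ω, X m x ω ∂P = 0)
    (hXc : ∀ m, ∀ x ∈ Set.Icc (0 : ℝ) 1, ∀ y ∈ Set.Icc (0 : ℝ) 1, cov[X m x, X m y; P] = C m x y)
    (c : ℕ → Ω → ℂ)
    (hc : ∀ n : ℕ, ∀ᵐ ω ∂P, Tendsto (fun m => MX (X m) (C m) n ω) atTop (𝓝 (c n ω))) :
    (∀ n : ℕ, AEMeasurable (fun ω =>
      (((Real.log n) ^ (1 / 4 : ℝ) * (n : ℝ) ^ (1 / 4 : ℝ) : ℝ) : ℂ) * c n ω) P) ∧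
    ∃ L : ℕ → ProbabilityMeasure ℂ, (∀ n : ℕ, (L n : Measure ℂ) = P.map (fun ω =>
      (((Real.log n) ^ (1 / 4 : ℝ) * (n : ℝ) ^ (1 / 4 : ℝ) : ℝ) : ℂ) * c n ω)) ∧
      ∀ z, Tendsto (fun n => charFun (L n : Measure ℂ) z) atTop (𝓝 (φ ‖z‖)) := by
  have hcm : ∀ n, AEMeasurable (c n) P := fun n =>
    aemeasurable_of_tendsto_metrizable_ae atTop
      (fun m => (measurable_MX (hXm m) (hC.meas m) n).aemeasurable) (hc n)
  have hsm : ∀ n : ℕ, AEMeasurable (fun ω =>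
      (((Real.log n) ^ (1 / 4 : ℝ) * (n : ℝ) ^ (1 / 4 : ℝ) : ℝ) : ℂ) * c n ω) P :=
    fun n => (hcm n).const_mul _
  refine ⟨hsm, fun n => ⟨P.map (fun ω =>
      (((Real.log n) ^ (1 / 4 : ℝ) * (n : ℝ) ^ (1 / 4 : ℝ) : ℝ) : ℂ) * c n ω),
      Measure.isProbabilityMeasure_map (hsm n)⟩, fun n => rfl, fun z => ?_⟩
  have h1 := charfun_limit h hφ P C hC X hXm hXg hX0 hXc c hc z
  refine h1.congr fun n => ?_
  rw [charFun_apply]
  show _ = ∫ x, Complex.exp (inner ℝ x z * Complex.I) ∂(P.map (fun ω =>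
      (((Real.log n) ^ (1 / 4 : ℝ) * (n : ℝ) ^ (1 / 4 : ℝ) : ℝ) : ℂ) * c n ω))
  have hcont : Continuous (fun x : ℂ => Complex.exp (inner ℝ x z * Complex.I)) := by fun_prop
  rw [integral_map (hsm n) hcont.aestronglyMeasurable]
  refine integral_congr_ae (ae_of_all _ fun ω => ?_)
  simp only
  rw [Complex.inner, mul_comm Complex.I]
  congr 3
  rw [← Complex.conj_re, map_mul, Complex.conj_conj]

/-- the final theorem, from convergence for the layered field -/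
theorem final_of_cone {μ : Measure Path} (h : Cone μ) {φ : ℝ → ℂ} (hφc : ContinuousAt φ 0)
    (hφ1 : ∃ t, φ t ≠ 1)
    (hφ : ∀ (θ t ε : ℝ), 0 < ε → ∃ n0 : ℕ, ∀ n ≥ n0, ∃ J0 : ℕ, ∀ J ≥ J0,
      ‖(∫ z, Complex.exp (Complex.I *
        ((t * ((n : ℝ) * Real.log n) ^ (1 / 4 : ℝ) * CC n θ J z : ℝ) : ℂ)) ∂μ) - φ t‖ ≤ ε) :
    ∃ ν : Measure ℝ, IsProbabilityMeasure ν ∧ ν ≠ Measure.dirac 0 ∧
    ∀ {Ω : Type*} [MeasurableSpace Ω] (P : Measure Ω) [IsProbabilityMeasure P]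
      (C : ℕ → ℝ → ℝ → ℝ) (_ : IsRegularisation C) (X : ℕ → ℝ → Ω → ℝ)
      (_ : ∀ m, Measurable (fun q : ℝ × Ω => X m q.1 q.2))
      (_ : ∀ m, IsGaussianProcess (fun x : Set.Icc (0 : ℝ) 1 => X m x) P)
      (_ : ∀ m, ∀ x ∈ Set.Icc (0 : ℝ) 1, ∫ ω, X m x ω ∂P = 0)
      (_ : ∀ m, ∀ x ∈ Set.Icc (0 : ℝ) 1, ∀ y ∈ Set.Icc (0 : ℝ) 1, cov[X m x, X m y; P] = C m x y)
      (c : ℕ → Ω → ℂ)
      (_ : ∀ n : ℕ, ∀ᵐ ω ∂P, Tendsto (fun m => ∫ x in (0 : ℝ)..1,
        Complex.exp (-(2 * Real.pi * n * x * Complex.I)) *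
          (Real.exp (1 / √2 * X m x ω - (1 / √2) ^ 2 / 2 * C m x x) : ℂ)) atTop (𝓝 (c n ω)))
      (g : BoundedContinuousFunction ℝ ℝ),
      Tendsto (fun n : ℕ => ∫ ω, g ((Real.log n) ^ (1 / 4 : ℝ) * (n : ℝ) ^ (1 / 4 : ℝ) * ‖c n ω‖) ∂P)
        atTop (𝓝 (∫ r, g r ∂ν)) := by
  by_cases H : ∃ ν : ProbabilityMeasure ℂ, ∀ z, charFun (ν : Measure ℂ) z = φ ‖z‖
  · obtain ⟨ν, hν⟩ := H
    have hnm : AEMeasurable (fun z : ℂ => ‖z‖) (ν : Measure ℂ) :=
      continuous_norm.measurable.aemeasurable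
    refine ⟨(ν : Measure ℂ).map (fun z => ‖z‖), Measure.isProbabilityMeasure_map hnm, ?_, ?_⟩
    · intro hd
      obtain ⟨t, ht⟩ := hφ1
      have h1 : φ |t| ≠ 1 := by
        rcases abs_choice t with h2 | h2
        · rw [h2]; exact ht
        · rw [h2, phi_even hφ]; exact ht
      apply h1
      have h2 : ∀ᵐ x ∂(ν : Measure ℂ), x = 0 := by
        have h3 : ∀ᵐ r ∂((ν : Measure ℂ).map (fun z => ‖z‖)), r = 0 := by
          rw [hd]
          exact (ae_dirac_iff (measurableSet_singleton (0 : ℝ))).2 rfl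
        filter_upwards [ae_of_ae_map hnm h3] with x hx
        exact norm_eq_zero.1 hx
      have h3 := hν ((|t| : ℝ) : ℂ)
      rw [Complex.norm_real, Real.norm_eq_abs, abs_abs] at h3
      rw [← h3, charFun_apply]
      have h4 : ∫ x, Complex.exp (inner ℝ x ((|t| : ℝ) : ℂ) * Complex.I) ∂(ν : Measure ℂ) =
          ∫ x, (1 : ℂ) ∂(ν : Measure ℂ) := by
        refine integral_congr_ae ?_
        filter_upwards [h2] with x hx
        rw [hx, inner_zero_left]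
        simp
      rw [h4]
      simp
    · intro Ω _ P _ C hC X hXm hXg hX0 hXc c hc g
      obtain ⟨hsm, L, hL1, hL2⟩ := law_tendsto h hφ P C hC X hXm hXg hX0 hXc c hc
      have h1 : Tendsto L atTop (𝓝 ν) := by
        refine ProbabilityMeasure.tendsto_of_tendsto_charFun fun z => ?_
        rw [hν z]
        exact hL2 z
      have h2 := (ProbabilityMeasure.tendsto_iff_forall_integral_tendsto.1 h1)
        (g.compContinuous ⟨fun z : ℂ => ‖z‖, continuous_norm⟩)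
      have h3 : ∫ r, g r ∂((ν : Measure ℂ).map (fun z => ‖z‖)) =
          ∫ z, (g.compContinuous ⟨fun z : ℂ => ‖z‖, continuous_norm⟩) z ∂(ν : Measure ℂ) := by
        rw [integral_map hnm g.continuous.aestronglyMeasurable]
        rfl
      rw [h3]
      refine h2.congr fun n => ?_
      rw [hL1 n, integral_map (hsm n)
        (g.compContinuous ⟨fun z : ℂ => ‖z‖, continuous_norm⟩).continuous.aestronglyMeasurable]
      refine integral_congr_ae (ae_of_all _ fun ω => ?_)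
      have hs : 0 ≤ (Real.log n) ^ (1 / 4 : ℝ) * (n : ℝ) ^ (1 / 4 : ℝ) :=
        mul_nonneg (Real.rpow_nonneg (Real.log_natCast_nonneg n) _)
          (Real.rpow_nonneg (Nat.cast_nonneg n) _)
      show g ‖(((Real.log n) ^ (1 / 4 : ℝ) * (n : ℝ) ^ (1 / 4 : ℝ) : ℝ) : ℂ) * c n ω‖ = _
      rw [norm_mul, Complex.norm_real, Real.norm_eq_abs, abs_of_nonneg hs]
  · refine ⟨Measure.dirac 1, inferInstance, ?_, ?_⟩
    · intro hd
      have h1 : (Measure.dirac (1 : ℝ) : Measure ℝ) {0} = (Measure.dirac (0 : ℝ) : Measure ℝ) {0} := by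
        rw [hd]
      simp at h1
    · intro Ω _ P _ C hC X hXm hXg hX0 hXc c hc g
      exfalso
      obtain ⟨hsm, L, hL1, hL2⟩ := law_tendsto h hφ P C hC X hXm hXg hX0 hXc c hc
      have hcont : ContinuousAt (fun z : ℂ => φ ‖z‖) 0 := by
        have h1 : ContinuousAt φ ‖(0 : ℂ)‖ := by rw [norm_zero]; exact hφc
        exact ContinuousAt.comp (f := fun z : ℂ => ‖z‖) (g := φ) h1 continuous_norm.continuousAt
      obtain ⟨ν, hν, -⟩ := exists_law_of_tendsto_charFun L (fun z => φ ‖z‖) hcont hL2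
      exact H ⟨ν, hν⟩

end Pool.Agent.helper95.GMC
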