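import Pool.Agent.helper95.GMC.Dens
import Pool.Agent.helper95.GMC.Setting

/-!
Module R: regularisations of the log-correlated kernel; mollifications are admissible.
-/

open MeasureTheory ProbabilityTheory Filter Topology Set
open scoped ENNReal NNReal

namespace Pool.Agent.helper95.GMC

/-- an admissible family of covariances on `[0,1]`, approximating `log (1/|x-y|)` -/
structure IsRegularisation (C : ℕ → ℝ → ℝ → ℝ) : Prop where
  meas : ∀ m, Measurable (fun q : ℝ × ℝ => C m q.1 q.2)
  diag : ∀ m, ∃ B : ℝ, ∀ x ∈ Set.Icc (0 : ℝ) 1, C m x x ≤ B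
  bound : ∃ A : ℝ, ∀ m, ∀ x ∈ Set.Icc (0 : ℝ) 1, ∀ y ∈ Set.Icc (0 : ℝ) 1, x ≠ y →
    |C m x y| ≤ Real.log (1 / |x - y|) + A
  lim : ∀ x ∈ Set.Icc (0 : ℝ) 1, ∀ y ∈ Set.Icc (0 : ℝ) 1, x ≠ y →
    Tendsto (fun m => C m x y) atTop (𝓝 (Real.log (1 / |x - y|)))

/-! ### The dominating function -/

lemma integrableOn_abs_rpow {r : ℝ} (h : -1 < r) :
    IntegrableOn (fun u : ℝ => |u| ^ r) (Set.Icc (-1) 1) := by
  have h1 : IntervalIntegrable (fun u : ℝ => u ^ r) volume 0 1 :=
    intervalIntegral.intervalIntegrable_rpow' h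
  have h2 : IntegrableOn (fun u : ℝ => |u| ^ r) (Set.Icc 0 1) := by
    rw [intervalIntegrable_iff_integrableOn_Icc_of_le zero_le_one] at h1
    refine h1.congr_fun (fun u hu => ?_) measurableSet_Icc
    simp only
    rw [abs_of_nonneg hu.1]
  have h3 : IntegrableOn (fun u : ℝ => |u| ^ r) (Set.Icc (-1) 0) := by
    have h4 := h2.comp_neg
    have h5 : (-(Set.Icc (0 : ℝ) 1)) = Set.Icc (-1) 0 := by
      ext u
      simp only [Set.mem_neg, Set.mem_Icc]
      constructor
      · rintro ⟨h6, h7⟩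
        constructor <;> linarith
      · rintro ⟨h6, h7⟩
        constructor <;> linarith
    rw [h5] at h4
    simpa only [abs_neg] using h4
  have h6 := h3.union h2
  refine h6.mono_set fun u hu => ?_
  rcases le_total u 0 with h7 | h7
  · exact Or.inl ⟨hu.1, h7⟩
  · exact Or.inr ⟨h7, hu.2⟩

lemma lintegral_dom_lt_top (c : ℝ) :
    ∫⁻ x in Set.Icc (0 : ℝ) 1, ∫⁻ y in Set.Icc (0 : ℝ) 1,
      ENNReal.ofReal (c * |x - y| ^ (-(3 / 4) : ℝ)) < ∞ := by
  set f : ℝ → ℝ≥0∞ := fun u => ENNReal.ofReal (c * |u| ^ (-(3 / 4) : ℝ)) with hf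
  have h1 : ∫⁻ u in Set.Icc (-1 : ℝ) 1, f u < ∞ := by
    have h2 := (integrableOn_abs_rpow (r := -(3 / 4)) (by norm_num)).const_mul c
    exact h2.lintegral_lt_top
  have h2 : ∀ x ∈ Set.Icc (0 : ℝ) 1, ∫⁻ y in Set.Icc (0 : ℝ) 1, f (x - y) ≤
      ∫⁻ u in Set.Icc (-1 : ℝ) 1, f u := by
    intro x hx
    rw [← lintegral_indicator measurableSet_Icc, ← lintegral_indicator measurableSet_Icc,
      ← lintegral_sub_left_eq_self ((Set.Icc (-1 : ℝ) 1).indicator f) x]
    refine lintegral_mono fun y => ?_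
    by_cases hy : y ∈ Set.Icc (0 : ℝ) 1
    · rw [Set.indicator_of_mem hy, Set.indicator_of_mem]
      constructor
      · linarith [hx.1, hy.2]
      · linarith [hx.2, hy.1]
    · rw [Set.indicator_of_notMem hy]
      exact bot_le
  calc ∫⁻ x in Set.Icc (0 : ℝ) 1, ∫⁻ y in Set.Icc (0 : ℝ) 1, f (x - y)
      ≤ ∫⁻ x in Set.Icc (0 : ℝ) 1, ∫⁻ u in Set.Icc (-1 : ℝ) 1, f u :=
        setLIntegral_mono measurable_const h2
    _ < ∞ := by
        rw [setLIntegral_const, Real.volume_Icc]
        exact ENNReal.mul_lt_top h1 ENNReal.ofReal_lt_top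

lemma dom_le {c k L A : ℝ} (hA : 0 ≤ A) (hL : 0 ≤ L) (hc : |c| ≤ L + A) (hk0 : 0 ≤ k)
    (hk : k ≤ L) :
    |c - k| * Real.exp (1 / 2 * max c k) ≤
      ((8 + A) * Real.exp (A / 2)) * Real.exp (3 / 4 * L) := by
  have h1 : |c - k| ≤ 2 * L + A := by
    have h := abs_sub c k
    rw [abs_of_nonneg hk0] at h
    linarith
  have h2 : max c k ≤ L + A := max_le ((le_abs_self c).trans hc) (by linarith)
  have h3 : 2 * L + A ≤ (8 + A) * Real.exp (L / 4) := by
    have h4 := Real.add_one_le_exp (L / 4)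
    have h5 : 1 ≤ Real.exp (L / 4) := Real.one_le_exp (by positivity)
    nlinarith
  calc |c - k| * Real.exp (1 / 2 * max c k)
      ≤ ((8 + A) * Real.exp (L / 4)) * Real.exp (1 / 2 * (L + A)) := by
        refine mul_le_mul (h1.trans h3) (Real.exp_le_exp.2 (by linarith)) (Real.exp_pos _).le
          (by positivity)
    _ = ((8 + A) * Real.exp (A / 2)) * Real.exp (3 / 4 * L) := by
        have e1 : Real.exp (1 / 2 * (L + A)) = Real.exp (A / 2) * Real.exp (1 / 2 * L) := by
          rw [← Real.exp_add]; ring_nf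
        have e2 : Real.exp (3 / 4 * L) = Real.exp (L / 4) * Real.exp (1 / 2 * L) := by
          rw [← Real.exp_add]; ring_nf
        rw [e1, e2]; ring

lemma log_one_div_abs (z : ℝ) : Real.log (1 / |z|) = -Real.log |z| := by
  rw [one_div, Real.log_inv]

theorem compare_tendsto {C : ℕ → ℝ → ℝ → ℝ} (hC : IsRegularisation C) {ε : ℝ} (hε : 0 < ε) :
    ∃ N : ℕ, ∀ m ≥ N, ∀ J ≥ N,
    ∫⁻ x in Set.Icc (0 : ℝ) 1, ∫⁻ y in Set.Icc (0 : ℝ) 1,
      ENNReal.ofReal (|C m x y - K J (x - y)| *
        Real.exp (gam ^ 2 * max (C m x y) (K J (x - y)))) ≤ ENNReal.ofReal ε := by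
  obtain ⟨A, hA⟩ := hC.bound
  set I : Set ℝ := Set.Icc (0 : ℝ) 1 with hI
  set ν : Measure (ℝ × ℝ) := (volume.restrict I).prod (volume.restrict I) with hν
  set F : ℕ × ℕ → ℝ × ℝ → ℝ≥0∞ := fun p q => ENNReal.ofReal
    (|C p.1 q.1 q.2 - K p.2 (q.1 - q.2)| *
        Real.exp (gam ^ 2 * max (C p.1 q.1 q.2) (K p.2 (q.1 - q.2)))) with hF
  have hFm : ∀ p, Measurable (F p) := by
    intro p
    have h1 := hC.meas p.1
    have h2 : Measurable (fun q : ℝ × ℝ => K p.2 (q.1 - q.2)) :=
      (measurable_K p.2).comp (measurable_fst.sub measurable_snd)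
    refine Measurable.ennreal_ofReal (Measurable.mul ?_ ?_)
    · exact (h1.sub h2).abs
    · exact Real.measurable_exp.comp ((h1.max h2).const_mul _)
  have hiter : ∀ p, ∫⁻ x in I, ∫⁻ y in I, F p (x, y) = ∫⁻ q, F p q ∂ν := by
    intro p
    rw [hν, lintegral_prod _ (hFm p).aemeasurable]
  -- a.e. statements
  have hae : ∀ᵐ q ∂ν, q.1 ∈ I ∧ q.2 ∈ I ∧ q.1 ≠ q.2 := by
    have h1 : ∀ᵐ q ∂ν, q.1 ∈ I ∧ q.2 ∈ I := by
      rw [hν, Measure.prod_restrict]
      filter_upwards [ae_restrict_mem (measurableSet_Icc.prod measurableSet_Icc)] with q hq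
      exact ⟨hq.1, hq.2⟩
    have h2 : ∀ᵐ q ∂ν, q.1 ≠ q.2 := by
      rw [hν]
      have hms : MeasurableSet {q : ℝ × ℝ | q.1 ≠ q.2} :=
        (measurableSet_eq_fun measurable_fst measurable_snd).compl
      rw [Measure.ae_prod_iff_ae_ae hms]
      refine ae_of_all _ fun x => ?_
      have : ∀ᵐ y ∂(volume.restrict I), y ≠ x := Measure.ae_ne _ x
      filter_upwards [this] with y hy
      exact hy.symm
    filter_upwards [h1, h2] with q h3 h4
    exact ⟨h3.1, h3.2, h4⟩
  set D : ℝ × ℝ → ℝ≥0∞ := fun q => ENNReal.ofReal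
    ((8 + |A|) * Real.exp (|A| / 2) * |q.1 - q.2| ^ (-(3 / 4) : ℝ)) with hD
  have hDm : Measurable D := by
    refine Measurable.ennreal_ofReal (Measurable.const_mul ?_ _)
    exact (measurable_fst.sub measurable_snd).abs.pow_const _
  have hDfin : ∫⁻ q, D q ∂ν ≠ ∞ := by
    rw [hν, lintegral_prod _ hDm.aemeasurable]
    exact (lintegral_dom_lt_top _).ne
  have key : ∀ q : ℝ × ℝ, q.1 ∈ I → q.2 ∈ I → q.1 ≠ q.2 →
      0 < |q.1 - q.2| ∧ |q.1 - q.2| ≤ 1 ∧ 0 ≤ -Real.log |q.1 - q.2| := by
    intro q h1 h2 h3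
    have h4 : |q.1 - q.2| ≤ 1 := by
      rw [abs_le]
      constructor
      · linarith [h1.1, h2.2]
      · linarith [h1.2, h2.1]
    have h5 : 0 < |q.1 - q.2| := abs_pos.2 (sub_ne_zero.2 h3)
    exact ⟨h5, h4, by linarith [Real.log_nonpos h5.le h4]⟩
  have hFD : ∀ p, ∀ᵐ q ∂ν, F p q ≤ D q := by
    intro p
    filter_upwards [hae] with q hq
    obtain ⟨h1, h2, h3⟩ := hq
    obtain ⟨h4, h5, h6⟩ := key q h1 h2 h3
    refine ENNReal.ofReal_le_ofReal ?_
    have e1 : |q.1 - q.2| ^ (-(3 / 4) : ℝ) = Real.exp (3 / 4 * (-Real.log |q.1 - q.2|)) := by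
      rw [Real.rpow_def_of_pos h4]; ring_nf
    rw [e1, gam_sq]
    refine dom_le (abs_nonneg _) h6 ?_ (K_nonneg _ _) (K_le_neg_log _ (sub_ne_zero.2 h3) h5)
    have := hA p.1 q.1 h1 q.2 h2 h3
    rw [log_one_div_abs] at this
    linarith [le_abs_self A]
  have hlim : ∀ᵐ q ∂ν, Tendsto (fun p => F p q) (atTop ×ˢ atTop) (𝓝 0) := by
    filter_upwards [hae] with q hq
    obtain ⟨h1, h2, h3⟩ := hq
    obtain ⟨h4, h5, h6⟩ := key q h1 h2 h3
    have t1 : Tendsto (fun p : ℕ × ℕ => C p.1 q.1 q.2) (atTop ×ˢ atTop)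
        (𝓝 (-Real.log |q.1 - q.2|)) := by
      have := hC.lim q.1 h1 q.2 h2 h3
      rw [log_one_div_abs] at this
      exact this.comp tendsto_fst
    have t2 : Tendsto (fun p : ℕ × ℕ => K p.2 (q.1 - q.2)) (atTop ×ˢ atTop)
        (𝓝 (-Real.log |q.1 - q.2|)) := by
      have h7 : ∀ᶠ k : ℕ in atTop, ((2 : ℝ) ^ k)⁻¹ ≤ |q.1 - q.2| := by
        have h8 : Tendsto (fun k : ℕ => ((2 : ℝ) ^ k)⁻¹) atTop (𝓝 0) :=
          tendsto_inv_atTop_zero.comp (tendsto_pow_atTop_atTop_of_one_lt one_lt_two)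
        exact (h8.eventually_lt_const h4).mono fun k hk => hk.le
      have h8 : Tendsto (fun k : ℕ => K k (q.1 - q.2)) atTop (𝓝 (-Real.log |q.1 - q.2|)) := by
        refine tendsto_const_nhds.congr' ?_
        filter_upwards [h7] with k hk
        rw [K_of_ge hk h5]
      exact h8.comp tendsto_snd
    have t3 : Tendsto (fun p : ℕ × ℕ => |C p.1 q.1 q.2 - K p.2 (q.1 - q.2)| *
        Real.exp (gam ^ 2 * max (C p.1 q.1 q.2) (K p.2 (q.1 - q.2)))) (atTop ×ˢ atTop) (𝓝 0) := by
      have t4 := (t1.sub t2).abs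
      have t5 := (Real.continuous_exp.tendsto _).comp ((t1.max t2).const_mul (gam ^ 2))
      have t6 := t4.mul t5
      simpa using t6
    have t7 := ENNReal.tendsto_ofReal t3
    rw [ENNReal.ofReal_zero] at t7
    exact t7
  have hconv : Tendsto (fun p => ∫⁻ q, F p q ∂ν) (atTop ×ˢ atTop) (𝓝 0) := by
    have := tendsto_lintegral_filter_of_dominated_convergence (μ := ν)
      (l := (atTop ×ˢ atTop : Filter (ℕ × ℕ))) (F := F) (f := fun _ => 0) D
      (Eventually.of_forall hFm) (Eventually.of_forall hFD) hDfin hlim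
    simpa using this
  have hev : ∀ᶠ p : ℕ × ℕ in atTop ×ˢ atTop, ∫⁻ q, F p q ∂ν ≤ ENNReal.ofReal ε :=
    hconv.eventually_le_const (ENNReal.ofReal_pos.2 hε)
  rw [Filter.prod_atTop_atTop_eq, Filter.eventually_atTop] at hev
  obtain ⟨⟨a, b⟩, hab⟩ := hev
  refine ⟨max a b, fun m hm J hJ => ?_⟩
  have := hab (m, J) ⟨(le_max_left a b).trans hm, (le_max_right a b).trans hJ⟩
  rw [← hiter] at this
  exact this

/-- the layered field itself is an admissible regularisation -/
lemma isRegularisation_K : IsRegularisation (fun m x y => K m (x - y)) where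
  meas m := (measurable_K m).comp (measurable_fst.sub measurable_snd)
  diag m := ⟨1 + m * Real.log 2, fun x _ => K_le_K_zero _ _⟩
  bound := by
    refine ⟨0, fun m x hx y hy hxy => ?_⟩
    have h5 : |x - y| ≤ 1 := by
      rw [abs_le]
      constructor
      · linarith [hx.1, hy.2]
      · linarith [hx.2, hy.1]
    rw [log_one_div_abs, abs_of_nonneg (K_nonneg _ _), add_zero]
    exact K_le_neg_log _ (sub_ne_zero.2 hxy) h5
  lim := by
    intro x hx y hy hxy
    have h5 : |x - y| ≤ 1 := by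
      rw [abs_le]
      constructor
      · linarith [hx.1, hy.2]
      · linarith [hx.2, hy.1]
    have h4 : 0 < |x - y| := abs_pos.2 (sub_ne_zero.2 hxy)
    have h7 : ∀ᶠ k : ℕ in atTop, ((2 : ℝ) ^ k)⁻¹ ≤ |x - y| := by
      have h8 : Tendsto (fun k : ℕ => ((2 : ℝ) ^ k)⁻¹) atTop (𝓝 0) :=
        tendsto_inv_atTop_zero.comp (tendsto_pow_atTop_atTop_of_one_lt one_lt_two)
      exact (h8.eventually_lt_const h4).mono fun k hk => hk.le
    rw [log_one_div_abs]
    refine tendsto_const_nhds.congr' ?_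
    filter_upwards [h7] with k hk
    rw [K_of_ge hk h5]

/-! ### Mollifications -/

/-- bounded probability density supported in `[x - e, x + e]` -/
structure Dn (p : ℝ → ℝ) (x e b : ℝ) : Prop where
  meas : Measurable p
  nonneg : ∀ u, 0 ≤ p u
  supp : ∀ u, e < |u - x| → p u = 0
  bdd : ∀ u, p u ≤ b
  mass : ∫ u, p u = 1

lemma log_one_div_abs' (z : ℝ) : Real.log (1 / |z|) = -Real.log z := by
  rw [one_div, Real.log_inv, Real.log_abs]

lemma measurable_logk (u : ℝ) : Measurable (fun v : ℝ => Real.log (1 / |u - v|)) :=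
  Real.measurable_log.comp (((measurable_const.sub measurable_id).abs).const_div 1)

namespace Dn

variable {p q : ℝ → ℝ} {x y e b A : ℝ}

lemma integrable (h : Dn p x e b) : Integrable p := integrable_of_integral_eq_one h.mass

lemma b_nonneg (h : Dn p x e b) : 0 ≤ b := (h.nonneg 0).trans (h.bdd 0)

lemma int_log (h : Dn p x e b) (he : 0 ≤ e) (u : ℝ) :
    Integrable (fun v => p v * Real.log (1 / |u - v|)) := by
  have h1 : IntervalIntegrable (fun v => Real.log (u - v)) volume (x - e) (x + e) := by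
    have h2 : IntervalIntegrable Real.log volume (u - (x - e)) (u - (x + e)) :=
      intervalIntegral.intervalIntegrable_log'
    have h3 := h2.comp_sub_left u
    simpa using h3
  rw [intervalIntegrable_iff_integrableOn_Icc_of_le (by linarith)] at h1
  have h2 : IntegrableOn (fun v => p v * Real.log (1 / |u - v|)) (Set.Icc (x - e) (x + e)) := by
    have h3 : IntegrableOn (fun v => Real.log (1 / |u - v|)) (Set.Icc (x - e) (x + e)) := by
      have h4 := h1.neg
      refine h4.congr (ae_of_all _ fun v => ?_)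
      simp only [Pi.neg_apply]
      rw [log_one_div_abs']
    exact h3.bdd_mul (c := b) h.meas.aestronglyMeasurable
      (ae_of_all _ fun v => by
        rw [Real.norm_eq_abs, abs_of_nonneg (h.nonneg v)]; exact h.bdd v)
  refine h2.integrable_of_forall_notMem_eq_zero fun v hv => ?_
  have h3 : e < |v - x| := by
    by_contra hcon
    push Not at hcon
    rw [abs_le] at hcon
    exact hv ⟨by linarith [hcon.1], by linarith [hcon.2]⟩
  rw [h.supp v h3, zero_mul]

/-- double integrals against densities -/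
lemma dbl_le (he : 0 ≤ e) (hp : Dn p x e b) (hq : Dn q y e b) {L D : ℝ}
    (hD : ∀ u, |u - x| ≤ e → ∫ v, q v * |Real.log (1 / |u - v|) - L| ≤ D) :
    |(∫ u, ∫ v, p u * q v * Real.log (1 / |u - v|)) - L| ≤ D := by
  set G : ℝ → ℝ := fun u => ∫ v, q v * Real.log (1 / |u - v|) with hG
  have hGm : Measurable G := by
    have h1 : Measurable (fun r : ℝ × ℝ => q r.2 * Real.log (1 / |r.1 - r.2|)) := by
      refine (hq.meas.comp measurable_snd).mul (Real.measurable_log.comp ?_)
      exact (measurable_fst.sub measurable_snd).abs.const_div 1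
    exact (h1.stronglyMeasurable.integral_prod_right' (ν := volume)).measurable
  have h1 : ∀ u, G u - L = ∫ v, q v * (Real.log (1 / |u - v|) - L) := by
    intro u
    have h2 : ∫ v, q v * (Real.log (1 / |u - v|) - L) =
        (∫ v, q v * Real.log (1 / |u - v|)) - ∫ v, q v * L := by
      rw [← integral_sub (hq.int_log he u) (hq.integrable.mul_const L)]
      refine integral_congr_ae (ae_of_all _ fun v => ?_)
      simp only
      ring
    rw [h2, integral_mul_const, hq.mass, one_mul]
  have h2 : ∀ u, |u - x| ≤ e → |G u - L| ≤ D := by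
    intro u hu
    rw [h1]
    refine abs_integral_le_integral_abs.trans (le_trans (le_of_eq ?_) (hD u hu))
    refine integral_congr_ae (ae_of_all _ fun v => ?_)
    simp only
    rw [abs_mul, abs_of_nonneg (hq.nonneg v)]
  have hD0 : 0 ≤ D := (abs_nonneg _).trans (h2 x (by simpa using he))
  have h3 : ∀ u, |p u * (G u - L)| ≤ p u * D := by
    intro u
    rw [abs_mul, abs_of_nonneg (hp.nonneg u)]
    by_cases hu : |u - x| ≤ e
    · exact mul_le_mul_of_nonneg_left (h2 u hu) (hp.nonneg u)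
    · rw [hp.supp u (not_le.1 hu)]
      simp
  have h4 : Integrable (fun u => p u * (G u - L)) := by
    refine (hp.integrable.mul_const D).mono'
      (hp.meas.mul (hGm.sub_const L)).aestronglyMeasurable (ae_of_all _ fun u => ?_)
    rw [Real.norm_eq_abs]
    exact h3 u
  have h5 : ∫ u, ∫ v, p u * q v * Real.log (1 / |u - v|) = ∫ u, p u * G u := by
    refine integral_congr_ae (ae_of_all _ fun u => ?_)
    simp only [hG]
    rw [← integral_const_mul]
    refine integral_congr_ae (ae_of_all _ fun v => ?_)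
    simp only
    ring
  have h6 : ∫ u, p u * G u = (∫ u, p u * (G u - L)) + L := by
    have h7 : ∫ u, p u * G u = ∫ u, (p u * (G u - L) + p u * L) := by
      refine integral_congr_ae (ae_of_all _ fun u => ?_)
      simp only
      ring
    rw [h7, integral_add h4 (hp.integrable.mul_const L), integral_mul_const, hp.mass, one_mul]
  rw [h5, h6, add_sub_cancel_right]
  calc |∫ u, p u * (G u - L)| ≤ ∫ u, |p u * (G u - L)| := abs_integral_le_integral_abs
    _ ≤ ∫ u, p u * D := by
        refine integral_mono_of_nonneg (ae_of_all _ fun u => abs_nonneg _)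
          (hp.integrable.mul_const D) (ae_of_all _ h3)
    _ = D := by rw [integral_mul_const, hp.mass, one_mul]

lemma far (hq : Dn q y e b) {u L D : ℝ}
    (hD : ∀ v, |v - y| ≤ e → |Real.log (1 / |u - v|) - L| ≤ D) :
    ∫ v, q v * |Real.log (1 / |u - v|) - L| ≤ D := by
  calc ∫ v, q v * |Real.log (1 / |u - v|) - L| ≤ ∫ v, q v * D := by
        refine integral_mono_of_nonneg (ae_of_all _ fun v => ?_)
          (hq.integrable.mul_const D) (ae_of_all _ fun v => ?_)
        · exact mul_nonneg (hq.nonneg v) (abs_nonneg _)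
        · by_cases hv : |v - y| ≤ e
          · exact mul_le_mul_of_nonneg_left (hD v hv) (hq.nonneg v)
          · simp only
            rw [hq.supp v (not_le.1 hv)]
            simp
    _ = D := by rw [integral_mul_const, hq.mass, one_mul]

end Dn

/-- truncated absolute logarithm -/
noncomputable def Lam (w : ℝ) : ℝ := (Set.Icc (-7 : ℝ) 7).indicator (fun w => |Real.log w|) w

lemma Lam_nonneg (w : ℝ) : 0 ≤ Lam w := Set.indicator_nonneg (fun _ _ => abs_nonneg _) w

lemma integrable_Lam : Integrable Lam := by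
  have h1 : IntervalIntegrable Real.log volume (-7) 7 := intervalIntegral.intervalIntegrable_log'
  rw [intervalIntegrable_iff_integrableOn_Icc_of_le (by norm_num)] at h1
  have h2 : IntegrableOn (fun w => |Real.log w|) (Set.Icc (-7 : ℝ) 7) := h1.abs
  exact h2.integrable_indicator measurableSet_Icc

lemma Dn.near {q : ℝ → ℝ} {y e A : ℝ} (he : 0 < e) (hq : Dn q y e (A / e)) {u : ℝ}
    (hu : |u - y| ≤ 6 * e) :
    ∫ v, q v * |Real.log (1 / |u - v|) - Real.log (1 / e)| ≤ A * ∫ w, Lam w := by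
  have h1 : Integrable (fun v => A / e * Lam ((u - v) / e)) := by
    have h2 := (integrable_Lam.comp_div he.ne').comp_sub_left u
    exact h2.const_mul _
  have h2 : ∫ v, A / e * Lam ((u - v) / e) = A * ∫ w, Lam w := by
    rw [integral_const_mul, integral_sub_left_eq_self (fun w => Lam (w / e)) volume u,
      Measure.integral_comp_div, abs_of_pos he, smul_eq_mul]
    field_simp
  rw [← h2]
  refine integral_mono_of_nonneg (ae_of_all _ fun v => ?_) h1 ?_
  · exact mul_nonneg (hq.nonneg v) (abs_nonneg _)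
  · have hne : ∀ᵐ v : ℝ, v ≠ u := Measure.ae_ne _ u
    filter_upwards [hne] with v hv
    by_cases hvy : |v - y| ≤ e
    · have h3 : |u - v| ≤ 7 * e := by
        have h4 : u - v = (u - y) - (v - y) := by ring
        rw [h4]
        refine (abs_sub _ _).trans ?_
        linarith
      have h4 : (u - v) / e ∈ Set.Icc (-7 : ℝ) 7 := by
        rw [abs_le] at h3
        constructor
        · rw [le_div_iff₀ he]; linarith [h3.1]
        · rw [div_le_iff₀ he]; linarith [h3.2]
      have h5 : Real.log (1 / |u - v|) - Real.log (1 / e) = -Real.log ((u - v) / e) := by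
        rw [log_one_div_abs', one_div, Real.log_inv, Real.log_div (sub_ne_zero.2 hv.symm) he.ne']
        ring
      unfold Lam
      rw [Set.indicator_of_mem h4, h5, abs_neg]
      exact mul_le_mul_of_nonneg_right (hq.bdd v) (abs_nonneg _)
    · rw [hq.supp v (not_le.1 hvy), zero_mul]
      exact mul_nonneg hq.b_nonneg (Lam_nonneg _)

lemma IsMollifier.dn {ρ : ℕ → ℝ → ℝ → ℝ} {ε : ℕ → ℝ} {A : ℝ} (h : IsMollifier ρ ε A) (m : ℕ)
    {x : ℝ} (hx : x ∈ Set.Icc (0 : ℝ) 1) : Dn (ρ m x) x (ε m) (A / ε m) where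
  meas := (h.meas m).comp (measurable_const.prodMk measurable_id)
  nonneg := h.nonneg m x hx
  supp := h.supp m x hx
  bdd := h.bdd m x hx
  mass := h.mass m x hx

lemma log_ratio_le {r t : ℝ} (hr : 0 < r) (h1 : r / 2 ≤ t) (h2 : t ≤ 2 * r) :
    |Real.log t - Real.log r| ≤ Real.log 2 := by
  have ht : 0 < t := lt_of_lt_of_le (by positivity) h1
  rw [abs_le]
  constructor
  · have h3 : Real.log (r / 2) ≤ Real.log t := Real.log_le_log (by positivity) h1
    rw [Real.log_div hr.ne' two_ne_zero] at h3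
    linarith
  · have h3 : Real.log t ≤ Real.log (2 * r) := Real.log_le_log ht h2
    rw [Real.log_mul two_ne_zero hr.ne'] at h3
    linarith

/-- mollified covariances are admissible -/
theorem mollifier_isRegularisation {ρ : ℕ → ℝ → ℝ → ℝ} {ε : ℕ → ℝ} {A : ℝ}
    (hρ : IsMollifier ρ ε A) (hε1 : ∀ m, ε m ≤ 1) :
    IsRegularisation (fun m x y => ∫ u, ∫ v, ρ m x u * ρ m y v * Real.log (1 / |u - v|)) := by
  set c0 : ℝ := ∫ w, Lam w with hc0
  have hc00 : 0 ≤ c0 := integral_nonneg Lam_nonneg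
  have hA0 : 0 ≤ A := by
    have h1 := (hρ.dn 0 (x := 0) ⟨le_rfl, zero_le_one⟩).b_nonneg
    have h2 := hρ.pos 0
    have h3 : A = A / ε 0 * ε 0 := by field_simp
    rw [h3]; positivity
  -- near the diagonal
  have hnear : ∀ m, ∀ x ∈ Set.Icc (0 : ℝ) 1, ∀ y ∈ Set.Icc (0 : ℝ) 1, |x - y| ≤ 5 * ε m →
      |(∫ u, ∫ v, ρ m x u * ρ m y v * Real.log (1 / |u - v|)) - Real.log (1 / ε m)| ≤ A * c0 := by
    intro m x hx y hy hxy
    refine (Dn.dbl_le (hρ.pos m).le (hρ.dn m hx) (hρ.dn m hy)) fun u hu => ?_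
    refine (hρ.dn m hy).near (hρ.pos m) ?_
    have h4 : u - y = (u - x) + (x - y) := by ring
    rw [h4]
    refine (abs_add_le _ _).trans ?_
    linarith
  -- away from the diagonal
  have hfar : ∀ m, ∀ x ∈ Set.Icc (0 : ℝ) 1, ∀ y ∈ Set.Icc (0 : ℝ) 1, ∀ L D : ℝ,
      (∀ t, abs (t - |x - y|) ≤ 2 * ε m → |Real.log (1 / t) - L| ≤ D) →
      |(∫ u, ∫ v, ρ m x u * ρ m y v * Real.log (1 / |u - v|)) - L| ≤ D := by
    intro m x hx y hy L D hD
    refine (Dn.dbl_le (hρ.pos m).le (hρ.dn m hx) (hρ.dn m hy)) fun u hu => ?_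
    refine (hρ.dn m hy).far fun v hv => hD _ ?_
    refine (abs_abs_sub_abs_le _ _).trans ?_
    have h4 : u - v - (x - y) = (u - x) - (v - y) := by ring
    rw [h4]
    refine (abs_sub _ _).trans ?_
    linarith
  refine ⟨fun m => ?_, fun m => ?_, ?_, ?_⟩
  · -- measurability
    have h1 : Measurable (fun r : ((ℝ × ℝ) × ℝ) × ℝ =>
        ρ m r.1.1.1 r.1.2 * ρ m r.1.1.2 r.2 * Real.log (1 / |r.1.2 - r.2|)) := by
      refine Measurable.mul (Measurable.mul ?_ ?_) (Real.measurable_log.comp ?_)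
      · exact (hρ.meas m).comp (measurable_fst.fst.fst.prodMk measurable_fst.snd)
      · exact (hρ.meas m).comp (measurable_fst.fst.snd.prodMk measurable_snd)
      · exact (measurable_fst.snd.sub measurable_snd).abs.const_div 1
    have h2 := h1.stronglyMeasurable.integral_prod_right' (ν := volume)
    have h3 := h2.integral_prod_right' (ν := volume)
    exact h3.measurable
  · -- diagonal
    refine ⟨Real.log (1 / ε m) + A * c0, fun x hx => ?_⟩
    have h1 := hnear m x hx x hx (by simpa using (hρ.pos m).le)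
    have h2 := le_abs_self ((∫ u, ∫ v, ρ m x u * ρ m x v * Real.log (1 / |u - v|)) -
      Real.log (1 / ε m))
    linarith
  · -- uniform bound
    refine ⟨A * c0 + Real.log 5, fun m x hx y hy hxy => ?_⟩
    have hr : 0 < |x - y| := abs_pos.2 (sub_ne_zero.2 hxy)
    have hr1 : |x - y| ≤ 1 := by
      rw [abs_le]
      constructor
      · linarith [hx.1, hy.2]
      · linarith [hx.2, hy.1]
    have hl5 : Real.log 2 ≤ Real.log 5 := Real.log_le_log two_pos (by norm_num)
    have he := hρ.pos m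
    rcases le_total |x - y| (5 * ε m) with h | h
    · have h1 := hnear m x hx y hy h
      have h2 : 0 ≤ Real.log (1 / ε m) :=
        Real.log_nonneg (by rw [le_div_iff₀ he]; linarith [hε1 m])
      have h3 : Real.log (1 / ε m) ≤ Real.log (1 / |x - y|) + Real.log 5 := by
        rw [← Real.log_mul (by positivity) (by norm_num)]
        refine Real.log_le_log (by positivity) ?_
        rw [div_mul_eq_mul_div, div_le_div_iff₀ he hr]
        linarith
      have h4 : |∫ u, ∫ v, ρ m x u * ρ m y v * Real.log (1 / |u - v|)| ≤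
          A * c0 + Real.log (1 / ε m) := by
        have h5 := abs_add_le ((∫ u, ∫ v, ρ m x u * ρ m y v * Real.log (1 / |u - v|)) -
          Real.log (1 / ε m)) (Real.log (1 / ε m))
        rw [sub_add_cancel, abs_of_nonneg h2] at h5
        linarith
      linarith
    · have h1 := hfar m x hx y hy (Real.log (1 / |x - y|)) (Real.log 2) (fun t ht => by
        rw [abs_le] at ht
        have h6 : abs (Real.log t - Real.log |x - y|) ≤ Real.log 2 :=
          log_ratio_le hr (by linarith [ht.1]) (by linarith [ht.2])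
        have h7 : Real.log (1 / t) - Real.log (1 / |x - y|) =
            -(Real.log t - Real.log |x - y|) := by
          rw [one_div, one_div, Real.log_inv, Real.log_inv]; ring
        rw [h7, abs_neg]
        exact h6)
      have h2 : 0 ≤ Real.log (1 / |x - y|) :=
        Real.log_nonneg (by rw [le_div_iff₀ hr]; linarith)
      have h5 := abs_add_le ((∫ u, ∫ v, ρ m x u * ρ m y v * Real.log (1 / |u - v|)) -
        Real.log (1 / |x - y|)) (Real.log (1 / |x - y|))
      rw [sub_add_cancel, abs_of_nonneg h2] at h5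
      have h6 : 0 ≤ A * c0 := by positivity
      linarith
  · -- limit
    intro x hx y hy hxy
    have hr : 0 < |x - y| := abs_pos.2 (sub_ne_zero.2 hxy)
    rw [Metric.tendsto_nhds]
    intro δ hδ
    have hc : ContinuousAt (fun t : ℝ => Real.log (1 / t)) |x - y| := by
      have h1 : (fun t : ℝ => Real.log (1 / t)) = fun t => -Real.log t := by
        funext t; rw [one_div, Real.log_inv]
      rw [h1]
      exact (Real.continuousAt_log hr.ne').neg
    obtain ⟨η, hη, hη2⟩ := Metric.continuousAt_iff.1 hc (δ / 2) (by positivity)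
    have h3 : ∀ᶠ m in atTop, ε m < η / 2 := hρ.tend.eventually_lt_const (by positivity)
    filter_upwards [h3] with m hm
    rw [Real.dist_eq]
    have h4 := hfar m x hx y hy (Real.log (1 / |x - y|)) (δ / 2) (fun t ht => by
      have h5 : dist t |x - y| < η := by
        rw [Real.dist_eq]; linarith
      have h6 := hη2 h5
      rw [Real.dist_eq] at h6
      exact h6.le)
    linarith

end Pool.Agent.helper95.GMC
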